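import Pool.Agent.W_448fin_h16.FnP
import Pool.Agent.W_448t8_h97.TI

/-!
# Final assembly (MP_448cb3_co): case B, the window `j - 1`, `j`: THE FUNCTIONAL AND ITS LEAVES

`j = i + 1`.  The functional `Wsh` is `- L31 + 9 L52 - 2 L62 - 4 L83 - 6 L10,4 - w21 - 4 L42 + 13 w32`.
The joins of a double `y` and a single element `v` cost (once) `4 (1 + a + b) - 4 [N5s]`; a HEAVY join
(`a b ≠ 0`) pays `4 b` to the part of `v`, everything else goes to the part of `y`.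
`Vt` is TWICE the value of a part with the shares of its pendants, without any join of a double and a
single element.  The leaves `HNat`, `HClosed`, `HOpen3`, `HRing3`, `HFold`, `HTwo`, `HSix` are the lower
bounds of `Vt`; `HHeavy` is the class fact (L1').
-/

namespace Pool.Agent.GaussPoset.EK

set_option linter.unusedSectionVars false

open Finset Win St Polynomial Wd Win.W4

universe u

/-- the weights of the functional -/
def Wsh : Pn.Wt := ⟨-1, 9, 1, 4, 3, -1, 2, 13, 0⟩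

section defs

variable (P : Type u) [Fintype P] [PartialOrder P] [DecidableEq P]

variable {P} in
/-- twice the value of a part with the shares of its pendants -/
noncomputable def Vt (i : ℕ) (t : Tops P) : ℤ :=
  2 * Pn.own Wsh i (i + 1) t +
    ∑ p ∈ (PD P i).filter (fun p => (topOf p : Tops P) = t), Pn.shr Wsh i p

variable {P} in
/-- every join of a double and a single element at the part is light -/
def NoHeavy (j : ℕ) (K : Finset P) (t : Tops P) : Prop :=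
  ∀ z y v : P, K2.SD j (topOf : P → Tops P) z y v → (topOf y = t ∨ topOf v = t) →
    sa j (topOf : P → Tops P) K (uc y) (topOf y) *
      sa j (topOf : P → Tops P) K (uc v) (topOf v) = 0

/-- INPUT (L1'): a component (not the one with two stars) all of whose joins have `Ek 2 = 0` has (3,2)
equal to zero.  (For components without two stars `Ek 2 = a b`.) -/
def HHeavy : Prop :=
  ∀ (r j : ℕ) (K : Finset P) (psi : P → P), 2 ≤ j → CB P r j → Red P j K psi → ∀ t : Tops P,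
    (∀ (m : ℕ) (x : ℕ → P) (c : ℕ → ℤ) (β : ℤ), RowB P j t m x c β → ¬ Pat6 m c β) →
    (∀ z y v : P, K2.SD j (topOf : P → Tops P) z y v → (topOf y = t ∨ topOf v = t) →
      Ek j K (K2.Tz z) 2 = 0) → v3 j t = 0

/-- INPUT: natural rows (flips included, any number of sites) -/
def HNat : Prop :=
  ∀ (r i : ℕ) (t : Tops P) (m : ℕ) (x : ℕ → P) (c : ℕ → ℤ) (β : ℤ), 1 ≤ i → CB P r (i + 1) →
    RowB P (i + 1) t m x c β → β = 0 → (∀ k, k < m → c k = 0) → 0 ≤ Vt i t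

/-- the pattern [DL] -/
def IsDL (m : ℕ) (c : ℕ → ℤ) (β : ℤ) : Prop :=
  β = 0 ∧ c 0 = 1 ∧ c 1 = -1 ∧ ∀ k, 2 ≤ k → k < m → c k = 0

/-- INPUT: [DL], at least four sites, the doubled end closed -/
def HClosed : Prop :=
  ∀ (r i : ℕ) (K : Finset P) (psi : P → P) (t : Tops P) (m : ℕ) (x : ℕ → P) (c : ℕ → ℤ) (β : ℤ)
    (lo hi : ℕ → ℕ) (e : ℕ → ℕ → P), 1 ≤ i → CB P r (i + 1) → Red P (i + 1) K psi →
    RowB P (i + 1) t m x c β →
    Cp.Comp (i + 1) (t : P) lo hi e → Shape (i + 1) lo hi → 3 ≤ m → IsDL m c β →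
    (uc (x 0)).card = 2 →
    (v3 (i + 1) t = 0 → 0 ≤ Vt i t ∧ (4 ≤ m → 0 < Vt i t)) ∧
      (v3 (i + 1) t ≠ 0 → -8 < Vt i t ∨ (-16 < Vt i t ∧ NoHeavy (i + 1) K t))

/-- INPUT: [DL], four sites, both ends single (the late words ending with OO), the doubled end at the
end `lo` -/
def HOpen3 : Prop :=
  ∀ (r i : ℕ) (t : Tops P) (x : ℕ → P) (c : ℕ → ℤ) (β : ℤ) (lo hi : ℕ → ℕ)
    (e : ℕ → ℕ → P) (a : ℕ), 1 ≤ i → CB P r (i + 1) → RowB P (i + 1) t 3 x c β →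
    Cp.Comp (i + 1) (t : P) lo hi e → Shape (i + 1) lo hi → LateC (i + 1) a lo hi → IsDL 3 c β →
    (uc (x 0)).card = 1 → (uc (x 3)).card = 1 →
    UE (i + 1) (cext (i + 1 + 1) (topOf : P → Tops P) t) x 2 = ∅ →
    (∀ k, k ≤ 3 → x k = e (i + 1) (lo (i + 1) + k)) →
    0 < Vt i t ∨ (-8 < Vt i t ∧ v3 (i + 1) t ≠ 0) ∨
      (-16 < Vt i t ∧ v3 (i + 1) t ≠ 0 ∧
        ∃ z y v : P, K2.SD (i + 1) (topOf : P → Tops P) z y v ∧ topOf y = t ∧
          (∀ (K : Finset P) (psi : P → P), Red P (i + 1) K psi →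
            sa (i + 1) (topOf : P → Tops P) K (uc y) (topOf y) = 0) ∧
          z ∉ So.N5s i (topOf : P → Tops P))

/-- INPUT: the rotated rows, four sites (the late words ending with OO), `w32` arbitrary -/
def HRing3 : Prop :=
  ∀ (r i : ℕ) (t : Tops P) (x : ℕ → P) (c : ℕ → ℤ) (β : ℤ) (lo hi : ℕ → ℕ)
    (e : ℕ → ℕ → P) (a : ℕ), 1 ≤ i → CB P r (i + 1) → RowB P (i + 1) t 3 x c β →
    Cp.Comp (i + 1) (t : P) lo hi e → Shape (i + 1) lo hi → LateC (i + 1) a lo hi →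
    β = 1 → c 0 = -1 → (∀ k, 1 ≤ k → k < 3 → c k = 0) →
    (uc (x 0)).card = 1 → (uc (x 3)).card = 1 → pen (x 0) ≠ ∅ →
    (∀ k, k ≤ 3 → x k = e (i + 1) (hi (i + 1) - k)) → 0 < Vt i t

/-- INPUT: [DL] at a fold end -/
def HFoldV : Prop :=
  ∀ (r i : ℕ) (K : Finset P) (psi : P → P) (t : Tops P) (m : ℕ) (x : ℕ → P) (c : ℕ → ℤ) (β : ℤ)
    (lo hi : ℕ → ℕ) (e : ℕ → ℕ → P), 1 ≤ i → CB P r (i + 1) → Red P (i + 1) K psi →
    RowB P (i + 1) t m x c β → Cp.Comp (i + 1) (t : P) lo hi e → StairShape (i + 1) lo hi →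
    (i + 1) % 2 = 0 → 3 ≤ m → x 0 = e (i + 1) ((i + 1) / 2) → IsDL m c β →
    0 < Vt i t ∨ (-16 < Vt i t ∧ v3 (i + 1) t ≠ 0 ∧ NoHeavy (i + 1) K t) ∨
      (-8 < Vt i t ∧ ∃ z y v : P, K2.SD (i + 1) (topOf : P → Tops P) z y v ∧ topOf y = t ∧
        sa (i + 1) (topOf : P → Tops P) K (uc y) (topOf y) = 0 ∧
        z ∉ So.N5s i (topOf : P → Tops P))

/-- INPUT: three sites with a defect -/
def HTwo : Prop :=
  ∀ (r i : ℕ) (K : Finset P) (psi : P → P) (t : Tops P) (x : ℕ → P) (c : ℕ → ℤ) (β : ℤ),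
    1 ≤ i → CB P r (i + 1) → Red P (i + 1) K psi → RowB P (i + 1) t 2 x c β →
    ¬ (β = 0 ∧ ∀ k, k < 2 → c k = 0) →
    v3 (i + 1) t ≠ 0 ∧ (-8 < Vt i t ∨ (-16 < Vt i t ∧ NoHeavy (i + 1) K t))

/-- INPUT: two stars -/
def HSix : Prop :=
  ∀ (r i : ℕ) (t : Tops P) (m : ℕ) (x : ℕ → P) (c : ℕ → ℤ) (β : ℤ) (lo hi : ℕ → ℕ)
    (e : ℕ → ℕ → P), 1 ≤ i → CB P r (i + 1) → RowB P (i + 1) t m x c β →
    Cp.Comp (i + 1) (t : P) lo hi e → Shape (i + 1) lo hi → Pat6 m c β → 0 < Vt i t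

end defs

end Pool.Agent.GaussPoset.EK
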