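import Pool.Agent.W_448fin_h16.FnU

/-!
# Final assembly (MP_448cb3_co): case B, the window `j - 1`, `j`: `HWin1` FROM THE LEAVES
-/

namespace Pool.Agent.GaussPoset.EK

set_option linter.unusedSectionVars false

open Finset Win St Polynomial Wd Win.W4

universe u

/-- THE INPUTS OF THE WINDOW -/
structure Leaves (P : Type u) [Fintype P] [PartialOrder P] [DecidableEq P] : Prop where
  no6 : HNo6 P
  nat : HNat P
  closed : HClosed P
  open3 : HOpen3 P
  ring3 : HRing3 P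
  fold : HFoldV P
  two : HTwo P

variable {P : Type u} [Fintype P] [PartialOrder P] [DecidableEq P] {r i j : ℕ}

variable {m : ℕ} {x : ℕ → P} {c : ℕ → ℤ} {β : ℤ} {t : Tops P}

variable {K : Finset P} {psi : P → P} {Y V : P → P}

/-- the value of a part -/
noncomputable def Lt (i : ℕ) (K : Finset P) (Y V : P → P) (t : Tops P) : ℤ :=
  Vt i t + Gt i K Y V t

/-- a level above a nonempty level -/
lemma NJ.lv_pos (h : NJ P r (i + 1)) (hi1 : 1 ≤ i) (t : Tops P) : 1 ≤ (lv P i).card := by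
  obtain ⟨m, x, c, β, B⟩ := NJ.rowB h (by omega) t
  have h1 := B.row.lev_x 0 (by omega)
  obtain ⟨u, hu⟩ := uc_nonempty h.g.H (x := x 0) (by omega)
  have h2 := lev_uc h.g.H hu
  exact card_pos.2 ⟨u, mem_lv.2 (by omega)⟩

section main

variable (hL : Leaves P) (h : CB P r (i + 1)) (hi1 : 1 ≤ i)
  (R : Red P (i + 1) K psi) (hY : YW (i + 1) Y V)

include hL h hi1 R hY

/-- the double edge at a closed end -/
lemma CB.lt_closed (B : RowB P (i + 1) t m x c β) (hm : 3 ≤ m) (hd : IsDL m c β)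
    (h6 : ∀ (m : ℕ) (x : ℕ → P) (c : ℕ → ℤ) (β : ℤ), RowB P (i + 1) t m x c β → ¬ Pat6 m c β)
    (hcl : (uc (x 0)).card = 2) {lo hi : Tops P → ℕ → ℕ}
    {e : Tops P → ℕ → ℕ → P} (C : ∀ t : Tops P, Cp.Comp (i + 1) (t : P) (lo t) (hi t) (e t))
    (hS : ∀ t : Tops P, Shape (i + 1) (lo t) (hi t)) :
    0 ≤ Lt i K Y V t ∧ (v3 (i + 1) t ≠ 0 → 0 < Lt i K Y V t) ∧ (4 ≤ m → 0 < Lt i K Y V t) := by
  obtain ⟨a1, a2⟩ := hL.closed r i K psi t m x c β (lo t) (hi t) (e t) hi1 h R B (C t) (hS t) hm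
    hd hcl
  have h2 := NJ.Gt_nonneg h.nj hi1 R hY t
  have hb := B.not_bad h.nj (by omega) (Or.inl (by rw [hd.1]; norm_num))
  unfold Lt
  by_cases hv : v3 (i + 1) t = 0
  · obtain ⟨b1, b2⟩ := a1 hv
    refine ⟨by linarith, fun q => absurd hv q, fun hm4 => ?_⟩
    have := b2 hm4
    linarith
  · obtain ⟨g1, g2⟩ := NJ.gain h.nj hi1 R hY h (hheavy_of_no6 hL.no6) h6 hb hv
    have h3 : 0 < Vt i t + Gt i K Y V t := by
      rcases a2 hv with h4 | ⟨h4, h5⟩
      · linarith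
      · have := g2 h5
        linarith
    exact ⟨h3.le, fun _ => h3, fun _ => h3⟩

/-- the double edge at a fold end -/
lemma CB.lt_fold (B : RowB P (i + 1) t m x c β) (hm : 3 ≤ m) (hd : IsDL m c β)
    (h6 : ∀ (m : ℕ) (x : ℕ → P) (c : ℕ → ℤ) (β : ℤ), RowB P (i + 1) t m x c β → ¬ Pat6 m c β)
    {lo hi : ℕ → ℕ} {e : ℕ → ℕ → P} (C : Cp.Comp (i + 1) (t : P) lo hi e)
    (hS : StairShape (i + 1) lo hi) (h0 : (i + 1) % 2 = 0) (hx : x 0 = e (i + 1) ((i + 1) / 2)) :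
    0 < Lt i K Y V t := by
  have h2 := NJ.Gt_nonneg h.nj hi1 R hY t
  have hb := B.not_bad h.nj (by omega) (Or.inl (by rw [hd.1]; norm_num))
  unfold Lt
  rcases hL.fold r i K psi t m x c β lo hi e hi1 h R B C hS h0 hm hx hd with h1 | ⟨h1, h3, h4⟩ |
    ⟨h1, z, y, v, S, h3, h4, h5⟩
  · linarith
  · have := (NJ.gain h.nj hi1 R hY h (hheavy_of_no6 hL.no6) h6 hb h3).2 h4
    linarith
  · have := NJ.gain_light h.nj hi1 R hY S h3 h6 hb h4 h5
    linarith

/-- EVERY PART -/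
theorem CB.lt_all (hC : HCCu P) (hT : HTail P) {lo hi : Tops P → ℕ → ℕ}
    {e : Tops P → ℕ → ℕ → P} (C : ∀ t : Tops P, Cp.Comp (i + 1) (t : P) (lo t) (hi t) (e t))
    (hS : ∀ t : Tops P, Shape (i + 1) (lo t) (hi t)) (t : Tops P) :
    0 ≤ Lt i K Y V t ∧ (v3 (i + 1) t ≠ 0 → 0 < Lt i K Y V t) := by
  classical
  have hn := h.nj
  have hG := NJ.Gt_nonneg hn hi1 R hY t
  have h6 := hL.no6 r (i + 1) (by omega) h t
  -- a natural row
  have natc : ∀ (m : ℕ) (x : ℕ → P) (c : ℕ → ℤ) (β : ℤ), RowB P (i + 1) t m x c β → β = 0 →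
      (∀ k, k < m → c k = 0) → 0 ≤ Lt i K Y V t ∧ (v3 (i + 1) t ≠ 0 → 0 < Lt i K Y V t) := by
    intro m x c β B hβ hc
    have h1 := hL.nat r i t m x c β hi1 h B hβ hc
    have hb := B.not_bad hn (by omega) (Or.inl (by rw [hβ]; norm_num))
    unfold Lt
    refine ⟨by linarith, fun hv => ?_⟩
    have := (NJ.gain hn hi1 R hY h (hheavy_of_no6 hL.no6) h6 hb hv).1
    linarith
  obtain ⟨m, x, c, β, B⟩ := NJ.rowB hn (by omega) t
  rcases Nat.lt_or_ge m 3 with hm | hm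
  · by_cases hnat : β = 0 ∧ ∀ k, k < m → c k = 0
    · exact natc m x c β B hnat.1 hnat.2
    have hm2 : m = 2 := by
      rcases B.pat with ⟨p1, p2⟩ | ⟨p0, -⟩ | ⟨p0, -⟩ | ⟨p0, -⟩ | ⟨p0, -⟩ | ⟨p0, -⟩ | ⟨p0, -⟩ | ⟨p0, -⟩
      · exact absurd ⟨p1, p2⟩ hnat
      all_goals omega
    subst hm2
    obtain ⟨hv, hV⟩ := hL.two r i K psi t x c β hi1 h R B hnat
    have hb := B.not_bad hn (by omega) (Or.inr (by norm_num))
    obtain ⟨g1, g2⟩ := NJ.gain hn hi1 R hY h (hheavy_of_no6 hL.no6) h6 hb hv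
    have h1 : 0 < Lt i K Y V t := by
      unfold Lt
      rcases hV with hV | ⟨hV, hN⟩
      · linarith
      · have := g2 hN
        linarith
    exact ⟨h1.le, fun _ => h1⟩
  rcases B.cases hn hm with hN | ⟨x', c', B', hB'⟩
  · obtain ⟨g1, g2⟩ := B.nat_zero hn hN
    exact natc m x c β B (g2 (by omega)) g1
  have hd : Dft m c' β := by
    rcases hB' with ⟨c0, c1, hb, h2 | h2⟩ | ⟨hb, c0, c1⟩
    · exact Or.inl ⟨c0, c1, hb, h2⟩
    · exact absurd h2 (h6 m x' c' β B')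
    · exact Or.inr ⟨hb, c0, c1⟩
  rcases CB.shape2 hC h (by omega) C hS B' hm with ⟨g1, g2⟩ | ⟨a, L⟩
  · rcases hd with ⟨c0, c1, hb, h2⟩ | ⟨hb, -⟩
    · have hI : IsDL m c' β := ⟨hb, c0, c1, h2⟩
      rcases g1 c0 with g3 | ⟨S, g4, g5⟩
      · obtain ⟨k1, k2, -⟩ := CB.lt_closed hL h hi1 R hY B' hm hI h6 g3 C hS
        exact ⟨k1, k2⟩
      · have := CB.lt_fold hL h hi1 R hY B' hm hI h6 (C t) S g4 g5
        exact ⟨this.le, fun _ => this⟩
    · exact absurd hb g2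
  · rcases late_class hT h (by omega) C hS B' hm L hd with ⟨hI, g3⟩ | ⟨hI, hm3, g1, g2, g3, g4⟩ |
      ⟨hm3, hb, c0, c1, hp, hr⟩
    · obtain ⟨k1, k2, -⟩ := CB.lt_closed hL h hi1 R hY B' hm hI h6 g3 C hS
      exact ⟨k1, k2⟩
    · subst hm3
      have hb := B'.not_bad hn (by omega) (Or.inl (by rw [hI.1]; norm_num))
      have h3 : 0 < Vt i t + Gt i K Y V t := by
        rcases hL.open3 r i t x' c' β (lo t) (hi t) (e t) a hi1 h B' (C t) (hS t) L hI g1 g2 g3 g4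
          with a1 | ⟨a1, hv⟩ | ⟨a1, hv, z, y, v, S, k1, k2, k3⟩
        · linarith
        · have := (NJ.gain hn hi1 R hY h (hheavy_of_no6 hL.no6) h6 hb hv).1
          linarith
        · have := NJ.gain_both hn hi1 R hY h (hheavy_of_no6 hL.no6) h6 hb hv S k1 (k2 K psi R) k3
          linarith
      exact ⟨h3.le, fun _ => h3⟩
    · subst hm3
      obtain ⟨f1, f2⟩ := B'.ends (by rw [hb]; norm_num)
      have h1 := hL.ring3 r i t x' c' β (lo t) (hi t) (e t) a hi1 h B' (C t) (hS t) L hb c0 c1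
        f1 f2 hp hr
      have h3 : 0 < Lt i K Y V t := by
        unfold Lt
        linarith
      exact ⟨h3.le, fun _ => h3⟩

end main

/-- THE WINDOW `j - 1`, `j` -/
theorem hwin1 (hC : HCCu P) (hT : HTail P) (hL : Leaves P) : HWin1 P := by
  classical
  intro r j hj h
  obtain ⟨i, rfl⟩ : ∃ i, j = i + 1 := ⟨j - 1, by omega⟩
  have hi1 : 1 ≤ i := by omega
  have hn := h.nj
  obtain ⟨lo, hi, e, C, hS⟩ := hsh (P := P) r (i + 1) hn.g
  obtain ⟨K, psi, R⟩ := exists_red P (i + 1)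
  obtain ⟨Y, V, hY⟩ := exists_YW P (i + 1)
  rcases isEmpty_or_nonempty (Tops P) with hE | ⟨⟨t0⟩⟩
  · exact ⟨fun t => (hE.false t).elim, fun t => (hE.false t).elim, fun t => (hE.false t).elim⟩
  have hz : ∀ t : Tops P, Lt i K Y V t = 0 := by
    have h8 : (0 : ℤ) ≤ Wsh.a8 := by
      unfold Wsh
      norm_num
    have h9 := (Pn.nj_end hn rfl hi1 (NJ.lv_pos hn hi1 t0) R Wsh h8 (gj i K Y V)
      (fun z hz => (hY.sum_gj hz).le)
      (fun t => (CB.lt_all hL h hi1 R hY hC hT C hS t).1)).1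
    exact h9
  have hv : ∀ t : Tops P, v3 (i + 1) t = 0 := by
    intro t
    by_contra h1
    have h2 := (CB.lt_all hL h hi1 R hY hC hT C hS t).2 h1
    rw [hz t] at h2
    exact lt_irrefl _ h2
  have h6 := hL.no6 r (i + 1) (by omega) h
  refine ⟨hv, ?_, ?_⟩
  · intro t m x c β B hm c0 hcl
    rcases B.isDL hn (by omega) c0 with hI | hI
    · have h2 := (CB.lt_closed hL h hi1 R hY B (by omega) hI (h6 t) hcl C hS).2.2 hm
      rw [hz t] at h2
      exact lt_irrefl _ h2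
    · exact h6 t m x c β B hI
  · intro t m x c β lo' hi' e' B C' S' h2 hm hx c0
    rcases B.isDL hn (by omega) c0 with hI | hI
    · have h2 := CB.lt_fold hL h hi1 R hY B (by omega) hI (h6 t) C' S' h2 hx
      rw [hz t] at h2
      exact lt_irrefl _ h2
    · exact h6 t m x c β B hI

/-- THE THEOREM from the inputs which are left -/
theorem distrib_of_inputs6 (hG : IsGaussian P) (hc : (SimpleGraph.hasse P).Connected)
    (h1 : HJoin10 P) (h3 : HCC3 P) (hT : HTail P) (hL : Leaves P) : IsDistribLatticeOrder P :=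
  distrib_of_inputs5 hG hc h1 h3 (hwin1 (hccu h3) hT hL) hT

end Pool.Agent.GaussPoset.EK
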