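import Pool.Agent.W_448so_h39.FB
import Pool.Agent.W_448al_h63.LJ

/-!
# Final assembly (MP_448cb3_co): the ends of a rotated row

Two enumerations of the row of a component agree up to the reversal (at the ends); the element of
`PU` at the last pair of a rotated row gives the letters C, O at this end.
-/

namespace Pool.Agent.GaussPoset.Win

set_option linter.unusedSectionVars false

open Finset

universe u

variable {P : Type u} [Fintype P] [PartialOrder P] [DecidableEq P] {r i j : ℕ} {t : P}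
  {lo hi : ℕ → ℕ} {x : ℕ → ℕ → P}

/-- two enumerations of a row -/
lemma Rw.ends {X Y : ℕ → P} {m m' : ℕ} (S : Rw P j t m X) (S' : Rw P j t m' Y) (hm : 3 ≤ m) :
    m = m' ∧ ((X 0 = Y 0 ∧ X m = Y m ∧ X (m - 1) = Y (m - 1)) ∨
      (X 0 = Y m ∧ X m = Y 0 ∧ X (m - 1) = Y 1)) := by
  have hmm : m = m' := by
    have h1 := S.card_wt
    have h2 := S'.card_wt
    omega
  subst hmm
  have hs : ∀ a, a ≤ m → ∃ b, b ≤ m ∧ Y b = X a :=
    fun a ha => S'.surj (X a) (S.lev_x a ha) (S.le_t a ha)
  have hs' : ∀ b, b ≤ m → ∃ a, a ≤ m ∧ X a = Y b :=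
    fun b hb => S.surj (Y b) (S'.lev_x b hb) (S'.le_t b hb)
  have adj : ∀ a a' b b', a ≤ m → a' ≤ m → b ≤ m → b' ≤ m → Y b = X a → Y b' = X a' →
      ((a + 1 = a' ∨ a' + 1 = a) ↔ (b + 1 = b' ∨ b' + 1 = b)) := by
    intro a a' b b' ha ha' hb hb' e e'
    by_cases hne : a = a'
    · subst hne
      have : b = b' := S'.inj b b' hb hb' (e.trans e'.symm)
      constructor <;> intro h <;> omega
    · have hne' : b ≠ b' := fun hbb => hne (S.inj a a' ha ha' (by rw [← e, ← e', hbb]))
      have h1 := S.ucv_x a a' ha ha' hne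
      have h2 := S'.ucv_x b b' hb hb' hne'
      rw [e, e', h1] at h2
      constructor
      · intro h3
        rw [if_pos h3] at h2
        by_contra hcon
        rw [if_neg hcon] at h2
        exact absurd h2 (by norm_num)
      · intro h3
        rw [if_pos h3] at h2
        by_contra hcon
        rw [if_neg hcon] at h2
        exact absurd h2 (by norm_num)
  have endpt : ∀ a b, (a = 0 ∨ a = m) → b ≤ m → Y b = X a → b = 0 ∨ b = m := by
    intro a b ha hb e
    by_contra hcon
    obtain ⟨c, hc, ec⟩ := hs' (b - 1) (by omega)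
    obtain ⟨c', hc', ec'⟩ := hs' (b + 1) (by omega)
    have ham : a ≤ m := by omega
    have g1 := (adj a c b (b - 1) ham hc hb (by omega) e ec.symm).2 (by omega)
    have g2 := (adj a c' b (b + 1) ham hc' hb (by omega) e ec'.symm).2 (by omega)
    have hcc : c = c' := by omega
    subst hcc
    have := S'.inj (b - 1) (b + 1) (by omega) (by omega) (ec.symm.trans ec')
    omega
  obtain ⟨b0, hb0, e0⟩ := hs 0 (by omega)
  obtain ⟨bm, hbm, em⟩ := hs m le_rfl
  obtain ⟨bn, hbn, en⟩ := hs (m - 1) (by omega)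
  have h0 := endpt 0 b0 (Or.inl rfl) hb0 e0
  have h1 := endpt m bm (Or.inr rfl) hbm em
  have hne : b0 ≠ bm := by
    rintro rfl
    have := S.inj 0 m (by omega) le_rfl (e0.symm.trans em)
    omega
  have h2 := (adj (m - 1) m bn bm (by omega) le_rfl hbn hbm en em).1 (by omega)
  refine ⟨rfl, ?_⟩
  rcases h1 with h1 | h1
  · right
    have g1 : b0 = m := by omega
    have g2 : bn = 1 := by omega
    rw [g1] at e0
    rw [h1] at em
    rw [g2] at en
    exact ⟨e0.symm, em.symm, en.symm⟩
  · left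
    have g1 : b0 = 0 := by omega
    have g2 : bn = m - 1 := by omega
    rw [g1] at e0
    rw [h1] at em
    rw [g2] at en
    exact ⟨e0.symm, em.symm, en.symm⟩

/-- the letters at the last pair of a rotated row -/
theorem RotR.letters {k : ℕ} (h : GoodTo P r (k + 2)) (ht : lev t = 0)
    (C : Comp P t (k + 2) lo hi x) {m : ℕ} {X : ℕ → P} (R : RotR P (k + 2) t m X)
    (hU : T6N.thU (k + 2) {X (m - 1), X m} = 1) :
    hi (k + 2) = lo (k + 2) + m ∧
      ((puR lo hi (k + 2) ∧ X 0 = x (k + 2) (lo (k + 2)) ∧ X m = x (k + 2) (hi (k + 2))) ∨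
      (puL lo hi (k + 2) ∧ X 0 = x (k + 2) (hi (k + 2)) ∧ X m = x (k + 2) (lo (k + 2)) ∧
        X (m - 1) = x (k + 2) (lo (k + 2) + 1))) := by
  have H := h.H
  have hm := R.hm
  have S' : Rw P (k + 2) t (hi (k + 2) - lo (k + 2)) (fun a => x (k + 2) (lo (k + 2) + a)) :=
    C.rw_row (i := k + 1) h (by omega) ht
  obtain ⟨e1, e2⟩ := R.row.ends S' hm
  have f1 := C.lo_le k (by omega)
  have f2 := C.lo_ge k (by omega)
  have f3 := C.hi_le k (by omega)
  have f4 := C.hi_ge k (by omega)
  have f5 := C.lo_le (k + 1) (by omega)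
  have f6 := C.lo_ge (k + 1) (by omega)
  have f7 := C.hi_le (k + 1) (by omega)
  have f8 := C.hi_ge (k + 1) (by omega)
  have f9 := C.lohi (k + 2) le_rfl
  have f10 := C.lohi k (by omega)
  refine ⟨by omega, ?_⟩
  have em : lo (k + 2) + m = hi (k + 2) := by omega
  -- the element of `PU`
  have hne : ((PU P (k + 2)).filter
      (fun z => (dc z).biUnion (ns (k + 2)) = {X (m - 1), X m})).Nonempty := by
    unfold T6N.thU at hU
    rw [← card_pos]
    omega
  obtain ⟨z, hz⟩ := hne
  rw [mem_filter] at hz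
  obtain ⟨hz, hs⟩ := hz
  obtain ⟨l1, hc, w, hw, -⟩ := T6N.mem_PU.1 hz
  obtain ⟨u, hu⟩ := card_eq_one.1 hc
  have hwu : w = u := by
    have := mem_dc.2 hw
    rw [hu, mem_singleton] at this
    exact this
  subst hwu
  have l2 := lev_cov H hw
  have hdw : dc w = {X (m - 1), X m} := by
    rw [← hs, hu, singleton_biUnion, T6N.nsu (x := w) (i := k + 2) (by omega)]
  have hmw : X m ⋖ w := by
    rw [← mem_dc, hdw]
    exact mem_insert_of_mem (mem_singleton_self _)
  have hwt : w ≤ t := h.cov_le (z := X m) (v := w)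
    (by have := R.row.lev_x m le_rfl; omega) ht (R.row.le_t m le_rfl) hmw
  have hzt : z ≤ t := h.cov_le (z := w) (v := z) (by omega) ht hwt hw
  obtain ⟨c, c1, c2, rfl⟩ := C.surj k (by omega) z (by omega) hzt
  obtain ⟨d, d1, d2, rfl⟩ := C.surj (k + 1) (by omega) w (by omega) hwt
  have hcd := (C.cov k (by omega) d c d1 d2 c1 c2).1 hw
  have hinj : ∀ a b, lo (k + 2) ≤ a → a ≤ hi (k + 2) → lo (k + 2) ≤ b → b ≤ hi (k + 2) →
      x (k + 2) a = x (k + 2) b → a = b := fun a b h1 h2 h3 h4 h5 => C.inj' le_rfl h1 h2 h3 h4 h5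
  rcases (C.mem_PU_iff h ht (k := k) (by omega) c1 c2).1 hz with ⟨g1, hp⟩ | ⟨g1, hp⟩
  · -- left
    have hp' := hp
    unfold puL at hp'
    rw [show k + 2 - 1 = k + 1 by omega, show k + 2 - 2 = k by omega] at hp'
    obtain ⟨-, p1, p2, p3⟩ := hp'
    have hd : d = lo (k + 2) := by omega
    have hin : x (k + 2) (lo (k + 2)) ∈ dc (x (k + 1) d) := by
      rw [mem_dc]
      exact (C.cov (k + 1) (by omega) (lo (k + 2)) d le_rfl f9 d1 d2).2 (Or.inl hd)
    rw [hdw, mem_insert, mem_singleton] at hin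
    rcases e2 with ⟨g2, g3, g4⟩ | ⟨g2, g3, g4⟩
    · exfalso
      try beta_reduce at g2 g3 g4
      rw [g3, g4] at hin
      rcases hin with q | q
      · have := hinj _ _ le_rfl f9 (by omega) (by omega) q
        omega
      · have := hinj _ _ le_rfl f9 (by omega) (by omega) q
        omega
    · right
      try beta_reduce at g2 g3 g4
      exact ⟨hp, by rw [g2, em], g3, g4⟩
  · -- right
    have hp' := hp
    unfold puR at hp'
    rw [show k + 2 - 1 = k + 1 by omega, show k + 2 - 2 = k by omega] at hp'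
    obtain ⟨-, p1, p2, p3⟩ := hp'
    have hd : hi (k + 2) = d + 1 := by omega
    have hin : x (k + 2) (hi (k + 2)) ∈ dc (x (k + 1) d) := by
      rw [mem_dc]
      exact (C.cov (k + 1) (by omega) (hi (k + 2)) d f9 le_rfl d1 d2).2 (Or.inr hd.symm)
    rw [hdw, mem_insert, mem_singleton] at hin
    rcases e2 with ⟨g2, g3, g4⟩ | ⟨g2, g3, g4⟩
    · left
      try beta_reduce at g2 g3 g4
      exact ⟨hp, g2, by rw [g3, em]⟩
    · exfalso
      try beta_reduce at g2 g3 g4
      rw [g3, g4] at hin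
      rcases hin with q | q
      · have := hinj _ _ f9 le_rfl (by omega) (by omega) q
        omega
      · have := hinj _ _ f9 le_rfl (by omega) (by omega) q
        omega

end Pool.Agent.GaussPoset.Win
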