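import Pool.Agent.W_448so_h39.FJ
import Pool.Agent.W_448so_h63.FL

/-!
# Final assembly (MP_448cb3_co): balance of the chains and no flips at the window `j - 2`

`S9_QQ`: the inner statement of `S9_all`.  `no_flip`, `chain_bal`: when no element of level `i + 3` is
below two maximal elements and all levels less than `i + 2` are good, no component has a flip at the
window `i`, and the numbers of lower and upper chains of every component with at least three sites at
the window `i` are equal.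
-/

namespace Pool.Agent.GaussPoset.Win

set_option linter.unusedSectionVars false

open Finset
open Pool.Agent.GaussPoset.Win.I2 (Prof be bb VV)
open Pool.Agent.GaussPoset.Wd (SS Shape)

universe u

variable {P : Type u} [Fintype P] [PartialOrder P] [DecidableEq P] {r i j : ℕ}
  {lo hi : ℕ → ℕ} {x : ℕ → ℕ → P} {S : Finset P}

/-- the inner statement of S9: not closed, not a flip, the form vanishes -/
theorem S9_QQ (h : GoodTo P r (i + 1)) (hi1 : 1 ≤ i)
    (hno : ∀ z : P, lev z = i + 2 → ¬ Hul.Jn z)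
    (hZ : ∀ v, lev v = i + 3 → v ∉ cuni (i + 2) (topOf : P → Tops P) → up (i + 1) v = 2 →
      up i v ≤ 3)
    (t : Tops P) (h3 : 3 ≤ (st i (cext (i + 2) (topOf : P → Tops P) t)).card) :
    Ncl i (cext (i + 2) (topOf : P → Tops P) t) ∧ Nfl i (cext (i + 2) (topOf : P → Tops P) t) ∧
      QQ i (cext (i + 2) (topOf : P → Tops P) t) ≤ 0 := by
  obtain ⟨psi, hM⟩ := good_mat h.H (h.good i (by omega))
  have hcx : ∀ t : Tops P, ∃ lo hi e, Comp P (t : P) (i + 1) lo hi e :=
    fun t => comp_exists h t.2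
  have hP : ∀ t : Tops P, Prof 3 5 (st i (cext (i + 2) (topOf : P → Tops P) t)).card
      (ZS i (cext (i + 2) (topOf : P → Tops P) t)) := by
    intro t
    obtain ⟨lo, hi, e, C⟩ := hcx t
    have K := cm5_no h hi1 hno t C
    exact (K.ps5 hM).prof5 K.card_PP
  have hfive : ∀ t : Tops P, 3 ≤ (st i (cext (i + 2) (topOf : P → Tops P) t)).card →
      be 5 (st i (cext (i + 2) (topOf : P → Tops P) t)).card
        (ZS i (cext (i + 2) (topOf : P → Tops P) t)) ≤ 0 ∧
      (be 5 (st i (cext (i + 2) (topOf : P → Tops P) t)).card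
        (ZS i (cext (i + 2) (topOf : P → Tops P) t)) = 0 →
        Ncl i (cext (i + 2) (topOf : P → Tops P) t) ∧
        Nfl i (cext (i + 2) (topOf : P → Tops P) t)) := by
    intro t h3
    obtain ⟨lo, hi, e, C⟩ := hcx t
    have K := cm5_no h hi1 hno t C
    obtain ⟨g1, g2⟩ := K.five hno hM (by omega)
    refine ⟨g1, fun h0 => ?_⟩
    obtain ⟨g3, g4⟩ := g2 h0
    exact ⟨K.ncl g3, K.nfl hM g4⟩
  have hsix : ∀ t : Tops P, 3 ≤ (st i (cext (i + 2) (topOf : P → Tops P) t)).card →
      Ncl i (cext (i + 2) (topOf : P → Tops P) t) → Nfl i (cext (i + 2) (topOf : P → Tops P) t) →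
      dd ^ (st i (cext (i + 2) (topOf : P → Tops P) t)).card ∣
        dd ^ 2 * PowerSeries.coeff 6 (ZS i (cext (i + 2) (topOf : P → Tops P) t)) ∧
      ∃ n : ℕ, (I2.al 3 (st i (cext (i + 2) (topOf : P → Tops P) t)).card
          (ZS i (cext (i + 2) (topOf : P → Tops P) t))) ^ 2 -
        2 * be 6 (st i (cext (i + 2) (topOf : P → Tops P) t)).card
          (ZS i (cext (i + 2) (topOf : P → Tops P) t)) =
        QQ i (cext (i + 2) (topOf : P → Tops P) t) + 2 * (n : ℤ) := by
    intro t h3 h4 h5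
    obtain ⟨lo, hi, e, C⟩ := hcx t
    have K := (cm5_no h hi1 hno t C).to6 h4 h5
    have Q := K.ps6 hM
    refine ⟨Q.top6, (SO.N1f i (cext (i + 2) (topOf : P → Tops P) t)).card +
      (SO.N5f i (cext (i + 2) (topOf : P → Tops P) t)).card, ?_⟩
    rw [Q.six' (by omega)]
    push_cast
    ring
  have hκ : Split (i + 2) (topOf : P → Tops P) := split_two h hno
  have hb : 1 ≤ (lv P i).card := by
    obtain ⟨lo, hi, e, C'⟩ := hcx t
    have f1 := C'.lohi i (by omega)
    exact card_pos.2 ⟨e i (lo i), mem_lv.2 (C'.lev_x i (by omega) (lo i) le_rfl f1)⟩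
  have hfive' : ∀ a ∈ univ.image (topOf : P → Tops P), 3 ≤ bb i (i + 2) topOf a →
      be 5 (bb i (i + 2) topOf a) (VV i (i + 2) topOf a) ≤ 0 := fun a _ h3 => (hfive a h3).1
  have h5 := So.five_zero h.H hi1 h.hr (h.good i (by omega)) hκ hb hZ (fun a _ => hP a) hfive'
  have hm : ∀ t : Tops P, t ∈ univ.image (topOf : P → Tops P) := Wd.mem_tops
  have hnn : ∀ t : Tops P, 3 ≤ (st i (cext (i + 2) (topOf : P → Tops P) t)).card →
      Ncl i (cext (i + 2) (topOf : P → Tops P) t) ∧ Nfl i (cext (i + 2) (topOf : P → Tops P) t) ∧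
      0 ≤ QQ i (cext (i + 2) (topOf : P → Tops P) t) := by
    intro t h3
    obtain ⟨g1, g2⟩ := (hfive t h3).2 (h5 t (hm t))
    obtain ⟨lo, hi, e, C⟩ := hcx t
    exact ⟨g1, g2, (((cm5_no h hi1 hno t C).to6 g1 g2).cmp hno).QQ_nonneg⟩
  obtain ⟨h6, -⟩ := So.six_zero h.H hi1 h.hr (h.good i (by omega)) hκ hb hZ (fun a _ => hP a)
    (fun a _ h3 => (hsix a h3 (hnn a h3).1 (hnn a h3).2.1).1) hfive' (fun a _ h3 => by
      obtain ⟨g1, g2, g3⟩ := hnn a h3
      obtain ⟨-, n, g4⟩ := hsix a h3 g1 g2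
      have g5 : (0 : ℤ) ≤ 2 * (n : ℤ) := by positivity
      show 2 * be 6 (st i (cext (i + 2) (topOf : P → Tops P) a)).card
          (ZS i (cext (i + 2) (topOf : P → Tops P) a)) ≤
        (I2.al 3 (st i (cext (i + 2) (topOf : P → Tops P) a)).card
          (ZS i (cext (i + 2) (topOf : P → Tops P) a))) ^ 2
      linarith)
  obtain ⟨g1, g2, g3⟩ := hnn t h3
  obtain ⟨-, n, g4⟩ := hsix t h3 g1 g2
  have g6 : (I2.al 3 (st i (cext (i + 2) (topOf : P → Tops P) t)).card
      (ZS i (cext (i + 2) (topOf : P → Tops P) t))) ^ 2 =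
      2 * be 6 (st i (cext (i + 2) (topOf : P → Tops P) t)).card
        (ZS i (cext (i + 2) (topOf : P → Tops P) t)) := h6 t (hm t)
  have g7 : (0 : ℤ) ≤ 2 * (n : ℤ) := by positivity
  exact ⟨g1, g2, by linarith⟩

section

variable (h : GoodTo P r (i + 2)) (hi1 : 1 ≤ i) (hno : ∀ z : P, lev z = i + 3 → ¬ Hul.Jn z)

include h hno in
/-- without joins on the level `i + 3` the extended components contain the level `i + 3` -/
lemma mem_cuni_no {v : P} (hv : lev v = i + 3) : v ∈ cuni (i + 2) (topOf : P → Tops P) := by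
  unfold cuni
  rw [mem_biUnion]
  refine ⟨topOf v, mem_image_of_mem _ (mem_univ v), ?_⟩
  rw [mem_cext]
  intro y hy _
  exact Subtype.ext (Hul.top_unique (hno v hv) (topOf y).2 (topOf v).2
    (hy.trans (le_topOf y)) (le_topOf v))

include h hi1 hno in
/-- without joins on the level `i + 3` there is no flip at the window `i` -/
theorem no_flip {t : Tops P} (C : Comp P (t : P) (i + 2) lo hi x) : ¬ Flip lo hi i := by
  classical
  intro hf
  have h1 : So.Z2s i (topOf : P → Tops P) = ∅ := by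
    rw [eq_empty_iff_forall_notMem]
    intro v hv
    obtain ⟨h2, h3, -⟩ := So.mem_Z2s.1 hv
    exact h3 (mem_cuni_no h hno h2)
  have h2 := So.Z2_card h hi1
  rw [h1, card_empty] at h2
  have h3 := (sum_eq_zero_iff.1 h2.symm) t (Wd.mem_tops t)
  have h4 := F5_flip h C t.2 hi1 le_rfl (S := SS i t)
    (fun y hy => (Wd.SS_ext h (by omega) t).mem y hy) hf
  rw [card_eq_zero] at h3
  rw [h3] at h4
  exact absurd h4 (by simp)

include h hi1 hno in
/-- the numbers of the lower and upper chains are equal -/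
theorem chain_bal {t : Tops P} (C : Comp P (t : P) (i + 2) lo hi x) (h3 : lo i + 2 ≤ hi i) :
    (FL i (SS i t)).card = (FU' i (SS i t)).card := by
  classical
  have h' : GoodTo P r (i + 1) := h.mono (by omega)
  have hno' : ∀ z : P, lev z = i + 2 → ¬ Hul.Jn z := fun z hz => h.no_join z (by omega)
  have hE : cext (i + 2) (topOf : P → Tops P) t = SS i t := Wd.cext_eq h (by omega) t
  have K := cm5_no h' hi1 hno' t (C.mono (show i + 1 ≤ i + 2 by omega))
  have hcs := K.card_st
  obtain ⟨g1, g2, g3⟩ := S9_QQ h' hi1 hno' (fun v hv hv2 _ => absurd (mem_cuni_no h hno hv) hv2)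
    t (by omega)
  have K' := (K.to6 g1 g2).cmp hno'
  obtain ⟨N, q1, -, q3⟩ := K'.QQ_eq
  have q4 : ∀ k ∈ Trs x lo hi i, phc i (cext (i + 2) (topOf : P → Tops P) t) k = 0 := by
    intro k hk
    unfold Trs at hk
    obtain ⟨a, ha, rfl⟩ := mem_image.1 hk
    rw [mem_Ioo] at ha
    rw [K'.phc_Tr ha.1 ha.2]
    have f1 := C.lo_ge i (by omega)
    have f2 := C.hi_le i (by omega)
    have l1 := C.lev_x (i + 1) (by omega) a (by omega) (by omega)
    have l2 := C.lev_x (i + 1) (by omega) (a + 1) (by omega) (by omega)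
    have hne := C.inj (i + 1) (by omega) a (a + 1) (by omega) (by omega) (by omega)
    have e1 := h.good (i + 1) (by omega) _ _ l1 l2 hne
    rw [C.ucv_eq h t.2 (show i + 1 ≤ i + 2 by omega) (by omega) (by omega) (by omega) (by omega)
      (by omega), if_pos (Or.inl rfl)] at e1
    rw [← e1]
    norm_num
  have q5 : So.qf (Trs x lo hi i) (fun k l => ¬ Disjoint k l)
      (phc i (cext (i + 2) (topOf : P → Tops P) t)) = 0 := by
    unfold So.qf
    refine sum_eq_zero fun k hk => sum_eq_zero fun l _ => ?_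
    rw [q4 k hk, zero_mul, ite_self]
  have q6 : ∑ k ∈ N, phc i (cext (i + 2) (topOf : P → Tops P) t) k = 0 :=
    sum_eq_zero fun k hk => q4 k (q1 hk)
  rw [q3, q5, q6, mul_zero, zero_add, zero_add] at g3
  have q7 : ((FL i (cext (i + 2) (topOf : P → Tops P) t)).card : ℤ) -
      (FU' i (cext (i + 2) (topOf : P → Tops P) t)).card = 0 := by
    have := sq_nonneg (((FL i (cext (i + 2) (topOf : P → Tops P) t)).card : ℤ) -
      (FU' i (cext (i + 2) (topOf : P → Tops P) t)).card)
    exact pow_eq_zero_iff (two_ne_zero) |>.1 (le_antisymm g3 this)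
  rw [hE] at q7
  omega

end

end Pool.Agent.GaussPoset.Win
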