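import Pool.Agent.W_448fin_h16.FnA
import Pool.Agent.W_448fin_h16.FnB
import Pool.Agent.W_448so_h39.FC

/-!
# Final assembly (MP_448cb3_co): the rotated rows which survive T6

`rotR_cases`: in case B (no element of level `j + 1` is below two maximal elements) a rotated row with
the data of T6 exists only in a stair-like component, `j` even, between the fold end and the open end
(the element (C)).
-/

namespace Pool.Agent.GaussPoset.Win

set_option linter.unusedSectionVars false

open Finset
open Pool.Agent.GaussPoset.Wd (SS Shape Ltr OO CO OC CC word)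

universe u

variable {P : Type u} [Fintype P] [PartialOrder P] [DecidableEq P] {r j : ℕ}
  {lo hi : ℕ → ℕ} {e : ℕ → ℕ → P}

/-- one step of a word -/
lemma step_val {f : ℕ → ℕ} {k : ℕ} (hs : f (k + 1) = f k ∨ f (k + 1) = f k + 1) {b : Bool}
    (h : some b = some (decide (f (k + 1) ≠ f k))) : f (k + 1) = f k + (if b then 1 else 0) := by
  rw [Option.some.injEq] at h
  subst h
  by_cases h1 : f (k + 1) = f k
  · simp [h1]
  · rw [if_pos (by simpa using h1)]
    omega

/-- the values of the ends from the word -/
lemma word_vals {a d : ℕ} {w : List Ltr} (h : word lo hi a d = w)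
    (hlo : ∀ k, k < a + d → lo (k + 1) = lo k ∨ lo (k + 1) = lo k + 1)
    (hhi : ∀ k, k < a + d → hi (k + 1) = hi k ∨ hi (k + 1) = hi k + 1) :
    d = w.length ∧ ∀ n b c, w[n]? = some (b, c) →
      lo (a + n + 1) = lo (a + n) + (if b then 1 else 0) ∧
      hi (a + n + 1) = hi (a + n) + (if c then 1 else 0) := by
  obtain ⟨h1, h2⟩ := Wd.word_spec h
  refine ⟨h1, fun n b c hn => ?_⟩
  have hnd : n < d := by
    rw [h1]
    exact (List.getElem?_eq_some_iff.1 hn).1
  obtain ⟨q1, q2⟩ := h2 n hnd
  rw [hn] at q1 q2
  simp only [Option.map_some] at q1 q2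
  exact ⟨step_val (hlo (a + n) (by omega)) q1, step_val (hhi (a + n) (by omega)) q2⟩

/-- the element (C) -/
def IsC (j : ℕ) (lo hi : ℕ → ℕ) (e : ℕ → ℕ → P) : Prop :=
  StairShape j lo hi ∧ Even j ∧ lo j = 0 ∧ 3 ≤ hi j ∧ ∃ z, z ⋖ e j (j / 2) ∧ z ⋖ e j 0

section cases

variable {k : ℕ} (h : GoodTo P r (k + 2)) (hno : ∀ z : P, lev z = k + 3 → ¬ Hul.Jn z)

include h hno

/-- the word `OC CO CO OO CO OO`: the end with the letters C, O has a pendant -/
theorem no_rot_pend (hk : 1 ≤ k) {t : Tops P} (C : Comp P (t : P) (k + 2) lo hi e) {m : ℕ} {X : ℕ → P}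
    (R : RotR P (k + 2) (t : P) m X) (hX : X m = e (k + 2) (lo (k + 2))) (h3 : lo k + 2 ≤ hi k)
    (hL : puL lo hi k) (hk3 : 3 ≤ k) (hL2 : lo (k - 2) = lo (k - 3) + 1)
    (hR : hi (k + 1) ≠ hi k) : False := by
  classical
  have H := h.H
  have hm := R.hm
  have hb := chain_bal h hk hno C h3
  have hS : ∀ y, lev y ≤ k + 2 → (y ∈ SS k t ↔ y ≤ (t : P)) :=
    fun y hy => (Wd.SS_ext h (by omega) t).mem y hy
  have hU := C.card_FU h t.2 (i := k) (by omega) (S := SS k t) (fun y hy => hS y (by omega))
  have hpos : 0 < (FL k (SS k t)).card := by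
    rw [hb, hU]
    unfold fuw
    rw [if_pos ⟨hk3, hL2, Or.inl hL⟩]
    omega
  obtain ⟨w, hw⟩ := card_pos.1 hpos
  obtain ⟨hwS, z, hz, hwz⟩ := mem_FL.1 hw
  have l1 := (lev_PD hz).1
  have hwz' : w ⋖ z := by
    rw [← mem_uc, hwz]
    exact mem_singleton_self z
  have hPt := Wd.SS_part h (i := k) (k := k) (by omega) (by omega) t
  have hzS : z ∈ SS k t := hPt.up hwS hwz'
  have hzt : z ≤ (t : P) := (hS z (by omega)).1 hzS
  obtain ⟨c, c1, c2, rfl⟩ := C.surj (k + 2) le_rfl z (by omega) hzt
  have hc : c = lo (k + 2) := by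
    rcases (C.mem_PD_iff h t.2 (i := k) le_rfl c1 c2).1 hz with ⟨g, -⟩ | ⟨-, g⟩
    · exact g
    · exact absurd g.1 hR
  subst hc
  rw [← hX] at hwz hwz'
  -- the other two lower covers of `X m`
  have hl0 := R.row.lev_x 0 (by omega)
  have hlm := R.row.lev_x m le_rfl
  have hln := R.row.lev_x (m - 1) (by omega)
  have n0 : X 0 ≠ X m := fun q => by
    have := R.row.inj 0 m (by omega) le_rfl q
    omega
  have n1 : X (m - 1) ≠ X m := fun q => by
    have := R.row.inj (m - 1) m (by omega) le_rfl q
    omega
  have n2 : X 0 ≠ X (m - 1) := fun q => by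
    have := R.row.inj 0 (m - 1) (by omega) (by omega) q
    omega
  have d0 : 1 ≤ dcv (X 0) (X m) := by
    have := R.new
    rw [Df_pair H hl0 n0] at this
    omega
  have d1 : 1 ≤ dcv (X (m - 1)) (X m) := by
    have q := R.rest (m - 1) (by omega) (by omega)
    rw [show m - 1 + 1 = m by omega, Df_pair H hln n1] at q
    have q2 := R.row.ucv_x (m - 1) m (by omega) le_rfl (by omega)
    rw [if_pos (Or.inl (by omega))] at q2
    omega
  obtain ⟨z0, a0, b0⟩ := StA_of_dcv d0
  obtain ⟨z1, a1, b1⟩ := StA_of_dcv d1
  have m0 : z0 ≠ w := by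
    rintro rfl
    have := mem_uc.2 a0
    rw [hwz, mem_singleton] at this
    exact n0 this
  have m1 : z1 ≠ w := by
    rintro rfl
    have := mem_uc.2 a1
    rw [hwz, mem_singleton] at this
    exact n1 this
  have m2 : z0 ≠ z1 := by
    rintro rfl
    have h5 : ({X 0, X (m - 1), X m} : Finset P) ⊆ uc z0 := by
      intro v hv
      rw [mem_insert, mem_insert, mem_singleton] at hv
      rcases hv with rfl | rfl | rfl
      · exact mem_uc.2 a0
      · exact mem_uc.2 a1
      · exact mem_uc.2 b0
    have h6 := card_le_card h5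
    have h7 := uc_card_le H z0
    rw [card_insert_of_notMem (by
      rw [mem_insert, mem_singleton, not_or]
      exact ⟨n2, n0⟩), card_insert_of_notMem (by
      rw [mem_singleton]
      exact n1), card_singleton] at h6
    omega
  have h5 : ({w, z0, z1} : Finset P) ⊆ dc (X m) := by
    intro v hv
    rw [mem_insert, mem_insert, mem_singleton] at hv
    rcases hv with rfl | rfl | rfl
    · exact mem_dc.2 hwz'
    · exact mem_dc.2 b0
    · exact mem_dc.2 b1
  have h6 := card_le_card h5
  have h7 := dc_card_le H (X m)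
  rw [card_insert_of_notMem (by
    rw [mem_insert, mem_singleton, not_or]
    exact ⟨m0.symm, m1.symm⟩), card_insert_of_notMem (by
    rw [mem_singleton]
    exact m2), card_singleton] at h6
  omega

/-- the rotated rows in case B -/
theorem rotR_cases {t : Tops P} (C : Cp.Comp (k + 2) (t : P) lo hi e)
    (S : Wd.Shape (k + 2) lo hi) {m : ℕ} {X : ℕ → P} (R : RotR P (k + 2) (t : P) m X)
    (hU : T6N.thU (k + 2) {X (m - 1), X m} = 1) : IsC (k + 2) lo hi e := by
  classical
  have H := h.H
  have hm := R.hm
  have C' := C.toWin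
  obtain ⟨hw, hl⟩ := R.letters h t.2 C' hU
  have i1 : k + 2 - 1 = k + 1 := by omega
  have i2 : k + 2 - 2 = k := by omega
  have hL : ∀ {f g : ℕ → ℕ}, puL f g (k + 2) → f (k + 1) = f k + 1 ∧ f (k + 2) = f (k + 1) := by
    intro f g q
    unfold puL at q
    rw [i1, i2] at q
    exact ⟨q.2.1, q.2.2.1⟩
  have hR : ∀ {f g : ℕ → ℕ}, puR f g (k + 2) → g (k + 1) = g k ∧ g (k + 2) = g (k + 1) + 1 := by
    intro f g q
    unfold puR at q
    rw [i1, i2] at q
    exact ⟨q.2.1, q.2.2.1⟩
  have c0 := C.hi_le (k := k) (by omega)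
  have c1 := C.lo_le k (by omega)
  rcases S with h1 | ⟨h1, h2⟩ | ⟨h0, h2⟩ | ⟨h0, h1, h2⟩ | ⟨h0, h1⟩ | ⟨a, h0, h1, h2, h3, hN, h4⟩
  · have := h1 (k + 2) le_rfl
    omega
  · exfalso
    rcases hl with ⟨p, -⟩ | ⟨p, -⟩
    · obtain ⟨q1, q2⟩ := hR p
      have := h2.hi (k + 1) (by omega)
      rw [show k + 1 + 1 = k + 2 by omega] at this
      omega
    · obtain ⟨q1, q2⟩ := hL p
      have := h2.lo (k + 1) (by omega)
      rw [show k + 1 + 1 = k + 2 by omega] at this
      omega
  · rcases hl with ⟨p, x0, xm⟩ | ⟨p, -⟩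
    · obtain ⟨q1, q2⟩ := hR p
      have e0 := h2.hi k (by omega)
      have e1 := h2.hi (k + 1) (by omega)
      have e2 := h2.hi (k + 2) le_rfl
      have hev : Even (k + 2) := by
        rw [Nat.even_iff]
        omega
      have n0 : X 0 ≠ X m := fun q => by
        have := R.row.inj 0 m (by omega) le_rfl q
        omega
      have d0 : 1 ≤ dcv (X 0) (X m) := by
        have := R.new
        rw [Df_pair H (R.row.lev_x 0 (by omega)) n0] at this
        omega
      obtain ⟨z0, a0, b0⟩ := StA_of_dcv d0
      obtain ⟨-, -, u0, -⟩ := R.row.far 0 m (by omega) le_rfl (by omega)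
      have hlo : lo (k + 2) = 0 := by
        rw [x0] at u0
        have glh : lo (k + 2) ≤ hi (k + 1 + 1) := by
          show lo (k + 2) ≤ hi (k + 2)
          omega
        have g1 := (C'.uc_two h t.2 (k := k + 1) (by omega) (a := lo (k + 2)) le_rfl glh).not.1
          (by rw [u0]; omega)
        have g2 := C'.lo_le (k + 1) (by omega)
        have g3 := C'.lo_ge (k + 1) (by omega)
        have g4 := C'.hi_le (k + 1) (by omega)
        have g5 := h2.lo (k + 1) (by omega)
        rw [show k + 1 + 1 = k + 2 by omega] at g1 g2 g3 g4 g5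
        omega
      refine ⟨h2, hev, hlo, by omega, z0, ?_, ?_⟩
      · rw [xm, e2] at b0
        exact b0
      · rw [x0, hlo] at a0
        exact a0
    · exfalso
      obtain ⟨q1, q2⟩ := hL p
      have := h2.lo (k + 1) (by omega)
      rw [show k + 1 + 1 = k + 2 by omega] at this
      omega
  · exfalso
    have hk : k = 1 := by omega
    subst hk
    norm_num at hw
    omega
  · exfalso
    have hk : k = 4 := by omega
    subst hk
    obtain ⟨⟨-, -, -, -, -, -, g1⟩, -, -, -, -, -, -, g2⟩ := h1
    simp only [show 4 + 2 = 6 by norm_num] at hw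
    omega
  · exfalso
    obtain ⟨d, hd⟩ : ∃ d, k + 2 = a + d := ⟨k + 2 - a, by omega⟩
    have hda : k + 2 - a = d := by omega
    rw [hda] at h4
    have hlo : ∀ n, n < a + d → lo (n + 1) = lo n ∨ lo (n + 1) = lo n + 1 :=
      fun n hn => C.lo_step n (by omega)
    have hhi : ∀ n, n < a + d → hi (n + 1) = hi n ∨ hi (n + 1) = hi n + 1 :=
      fun n hn => C.hi_step n (by omega)
    have hwd := Wd.late_wide (lo := lo) (hi := hi) (a := a) (d := d) h3
      (fun n hn => by have := hlo n hn; omega) (fun n hn => by have := hhi n hn; omega) h4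
      (by rw [← hd]; omega)
    rcases hwd with g | g | g | g | g
    · obtain ⟨v0, v⟩ := word_vals g hlo hhi
      have v1 := v 0 false false rfl
      have v2 := v 1 false true rfl
      have v3 := v 2 false true rfl
      simp only [Bool.false_eq_true, if_false, if_true, List.length_cons, List.length_nil,
        Nat.add_zero, Nat.add_assoc, Nat.reduceAdd] at v0 v1 v2 v3
      have hk : k = a + 1 := by omega
      subst hk
      rcases hl with ⟨p, -⟩ | ⟨p, -⟩
      · obtain ⟨q1, q2⟩ := hR p
        simp only [Nat.add_assoc, Nat.reduceAdd] at q1 q2 hw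
        omega
      · obtain ⟨q1, q2⟩ := hL p
        simp only [Nat.add_assoc, Nat.reduceAdd] at q1 q2 hw
        omega
    · obtain ⟨v0, v⟩ := word_vals g hlo hhi
      have v1 := v 0 false false rfl
      have v2 := v 1 false true rfl
      have v3 := v 2 true true rfl
      have v4 := v 3 false true rfl
      simp only [Bool.false_eq_true, if_false, if_true, List.length_cons, List.length_nil,
        Nat.add_zero, Nat.add_assoc, Nat.reduceAdd] at v0 v1 v2 v3 v4
      have hk : k = a + 2 := by omega
      subst hk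
      refine no_flip h (by omega) hno C' ⟨?_, Or.inr ⟨?_, ?_⟩⟩
      · omega
      · unfold puR
        rw [show a + 2 - 1 = a + 1 by omega, show a + 2 - 2 = a by omega]
        refine ⟨by omega, by omega, by omega, by omega⟩
      · unfold pdL
        simp only [Nat.add_assoc, Nat.reduceAdd]
        refine ⟨by omega, by omega, by omega⟩
    · obtain ⟨v0, v⟩ := word_vals g hlo hhi
      have v1 := v 0 false false rfl
      have v2 := v 1 true true rfl
      have v3 := v 2 true true rfl
      have v4 := v 3 false true rfl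
      have v5 := v 4 true true rfl
      have v6 := v 5 false true rfl
      simp only [Bool.false_eq_true, if_false, if_true, List.length_cons, List.length_nil,
        Nat.add_zero, Nat.add_assoc, Nat.reduceAdd] at v0 v1 v2 v3 v4 v5 v6
      have hk : k = a + 4 := by omega
      subst hk
      rcases hl with ⟨p, -⟩ | ⟨p, -, p2, -⟩
      · obtain ⟨q1, q2⟩ := hR p
        simp only [Nat.add_assoc, Nat.reduceAdd] at q1 q2 hw
        omega
      · refine no_rot_pend h hno (by omega) C' R p2 (by omega) ?_ (by omega) ?_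
          (by simp only [Nat.add_assoc, Nat.reduceAdd]; omega)
        · unfold puL
          rw [show a + 4 - 1 = a + 3 by omega, show a + 4 - 2 = a + 2 by omega]
          refine ⟨by omega, by omega, by omega, by omega⟩
        · rw [show a + 4 - 2 = a + 2 by omega, show a + 4 - 3 = a + 1 by omega]
          omega
    · obtain ⟨v0, v⟩ := word_vals g hlo hhi
      have v1 := v 0 false false rfl
      have v2 := v 1 true true rfl
      have v3 := v 2 true true rfl
      have v4 := v 3 false true rfl
      have v5 := v 4 true true rfl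
      have v6 := v 5 false true rfl
      have v7 := v 6 false false rfl
      simp only [Bool.false_eq_true, if_false, if_true, List.length_cons, List.length_nil,
        Nat.add_zero, Nat.add_assoc, Nat.reduceAdd] at v0 v1 v2 v3 v4 v5 v6 v7
      have hk : k = a + 5 := by omega
      subst hk
      rcases hl with ⟨p, -⟩ | ⟨p, -⟩
      · obtain ⟨q1, q2⟩ := hR p
        simp only [Nat.add_assoc, Nat.reduceAdd] at q1 q2 hw
        omega
      · obtain ⟨q1, q2⟩ := hL p
        simp only [Nat.add_assoc, Nat.reduceAdd] at q1 q2 hw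
        omega
    · obtain ⟨v0, v⟩ := word_vals g hlo hhi
      have v1 := v 0 false false rfl
      have v2 := v 1 true true rfl
      have v3 := v 2 true true rfl
      have v4 := v 3 false true rfl
      have v5 := v 4 true true rfl
      have v6 := v 5 false true rfl
      have v7 := v 6 false true rfl
      simp only [Bool.false_eq_true, if_false, if_true, List.length_cons, List.length_nil,
        Nat.add_zero, Nat.add_assoc, Nat.reduceAdd] at v0 v1 v2 v3 v4 v5 v6 v7
      have hk : k = a + 5 := by omega
      subst hk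
      rcases hl with ⟨p, -⟩ | ⟨p, -⟩
      · obtain ⟨q1, q2⟩ := hR p
        simp only [Nat.add_assoc, Nat.reduceAdd] at q1 q2 hw
        omega
      · obtain ⟨q1, q2⟩ := hL p
        simp only [Nat.add_assoc, Nat.reduceAdd] at q1 q2 hw
        omega

end cases

end Pool.Agent.GaussPoset.Win
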