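import Pool.Agent.W_448so_h39.FB

/-!
# Final assembly (MP_448cb3_co): from the classes of a row to the case distinction of T6

If the bad level `i + 1` has no lost edge between two double-ups, and nothing hangs at the second
pair of a rotated row, then every component is as required by T6.
-/

namespace Pool.Agent.GaussPoset.Win

set_option linter.unusedSectionVars false

open Finset

universe u

variable {P : Type u} [Fintype P] [PartialOrder P] [DecidableEq P] {r i j : ℕ} {t : P}
  {lo hi : ℕ → ℕ} {x : ℕ → ℕ → P} {m : ℕ}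

/-- in a rotated row at most one element of `PU` hangs at the last pair -/
lemma RotR.thU_le (h : GoodTo P r j) (ht : lev t = 0) {X : ℕ → P} (R : RotR P j t m X) :
    T6N.thU j {X (m - 1), X m} ≤ 1 := by
  have S := R.row
  have hm := R.hm
  refine thU_le_one h ht (by rw [S.card_wt]; omega) (S.le_t _ (by omega)) ?_
  rw [S.ucv_x (m - 1) m (by omega) le_rfl (by omega)]
  split_ifs <;> omega

/-- what has to be shown about a component with at least four sites of the bad level `j` -/
def RowOK (P : Type u) [Fintype P] [PartialOrder P] [DecidableEq P] (j : ℕ) (t : P) : Prop :=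
  4 ≤ (St.wt0 j t).card →
    (∀ v v' : P, lev v = j → lev v' = j → v ≤ t → v' ≤ t → (uc v).card = 2 → (uc v').card = 2 →
      ucv v v' = 1 → dcv v v' = 1) ∧
    ∀ (m : ℕ) (X : ℕ → P), RotR P j t m X → T6N.thD j {X 1, X 2} = 0

/-- the case distinction of T6 -/
theorem case_row (h : GoodTo P r (i + 1)) (hi1 : 1 ≤ i) (hr : i + 2 ≤ r)
    (hno : ∀ z : P, lev z = i + 2 → ¬ Hul.Jn z) (ht : lev t = 0) (hok : RowOK P (i + 1) t) :
    T6case P (i + 1) t := by
  classical
  obtain ⟨lo, hi, x, C⟩ := comp_exists h ht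
  have S := C.rw_row h hi1 ht
  have hlohi := C.lohi (i + 1) le_rfl
  obtain ⟨c, β, hpc, hdef, -, -⟩ := S6_pieces h hi1 hr hno ht C
  set m := hi (i + 1) - lo (i + 1) with hm
  set X : ℕ → P := fun a => x (i + 1) (lo (i + 1) + a) with hX
  have hcard := S.card_wt
  by_cases h4 : 4 ≤ (St.wt0 (i + 1) t).card
  swap
  · exact Or.inr (Or.inl (by omega))
  have hm3 : 3 ≤ m := by omega
  obtain ⟨hφ, hR⟩ := hok h4
  have f1 := C.lo_le i (by omega)
  have f2 := C.lo_ge i (by omega)
  have f3 := C.hi_le i (by omega)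
  have f4 := C.hi_ge i (by omega)
  -- inner elements are double-ups
  have hdb : ∀ a, 1 ≤ a → a < m → (uc (X a)).card = 2 := by
    intro a h1 h2
    show (uc (x (i + 1) (lo (i + 1) + a))).card = 2
    rw [C.uc_two h ht (k := i) (by omega) (by omega) (by omega)]
    omega
  have hD : ∀ a b, a < b → b ≤ m → Df (i + 1) {X a, X b} =
      if b = a + 1 then c a else if a = 0 ∧ b = m then β else 0 := by
    intro a b hab hb
    rw [Df_pair h.H (S.lev_x a (by omega)) (fun he => by
      have := S.inj a b (by omega) hb he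
      omega)]
    have h1 := hdef (lo (i + 1) + a) (lo (i + 1) + b) (by omega) (by omega) (by omega)
    rw [h1]
    by_cases h2 : b = a + 1
    · rw [if_pos (by omega), if_pos h2, show lo (i + 1) + a - lo (i + 1) = a by omega]
    · rw [if_neg (by omega), if_neg h2]
      exact if_congr (by omega) rfl rfl
  have hc0 : ∀ k, 1 ≤ k → k + 1 < m → c k = 0 := by
    intro k h1 h2
    have e1 := hD k (k + 1) (by omega) (by omega)
    rw [if_pos rfl, Df_pair h.H (S.lev_x k (by omega)) (fun he => by
      have := S.inj k (k + 1) (by omega) (by omega) he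
      omega)] at e1
    have e2 := S.ucv_x k (k + 1) (by omega) (by omega) (by omega)
    rw [if_pos (Or.inl rfl)] at e2
    have e3 := hφ (X k) (X (k + 1)) (S.lev_x k (by omega)) (S.lev_x (k + 1) (by omega))
      (S.le_t k (by omega)) (S.le_t (k + 1) (by omega)) (hdb k h1 (by omega))
      (hdb (k + 1) (by omega) h2) e2
    rw [e2, e3] at e1
    rw [← e1]
    norm_num
  rcases hpc with ⟨p1, p2⟩ | ⟨-, p1, p2, p3⟩ | ⟨-, p1, p2, p3⟩ | ⟨-, -, -, p3, -⟩ |
    ⟨-, -, -, p3, -⟩ | ⟨-, -, -, p3, -⟩ | ⟨p1, -⟩ | ⟨p1, -, -, p3, -⟩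
  · -- natural
    left
    rw [natT_iff h.H, S.wt_eq]
    have key : ∀ a b, a < b → b ≤ m → Df (i + 1) {X a, X b} = 0 := by
      intro a b hab hb
      rw [hD a b hab hb, p1]
      split_ifs
      · exact p2 a (by omega)
      · rfl
      · rfl
    intro u hu w hw huw
    unfold SV at hu hw
    obtain ⟨a, ha, rfl⟩ := mem_image.1 hu
    obtain ⟨b, hb, rfl⟩ := mem_image.1 hw
    rw [mem_range] at ha hb
    rcases Nat.lt_trichotomy a b with h1 | h1 | h1
    · exact key a b h1 (by omega)
    · rw [h1] at huw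
      exact absurd rfl huw
    · rw [pair_comm]
      exact key b a h1 (by omega)
  · -- rotation
    have R : RotR P (i + 1) t m X := by
      refine ⟨S, hm3, ?_, ?_, ?_⟩
      · rw [hD 0 m (by omega) le_rfl, if_neg (by omega), if_pos ⟨rfl, rfl⟩, p1]
      · rw [hD 0 1 (by omega) (by omega), if_pos rfl, p2]
      · intro k h1 h2
        rw [hD k (k + 1) (by omega) (by omega), if_pos rfl]
        exact p3 k h1 h2
    exact Or.inr (Or.inr ⟨m, X, R, hR m X R, R.thU_le h ht⟩)
  · -- the mirror image
    have R : RotR P (i + 1) t m (fun a => X (m - a)) := by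
      refine ⟨S.rev, hm3, ?_, ?_, ?_⟩
      · show Df (i + 1) {X (m - 0), X (m - m)} = 1
        rw [Nat.sub_zero, Nat.sub_self, pair_comm, hD 0 m (by omega) le_rfl, if_neg (by omega),
          if_pos ⟨rfl, rfl⟩, p1]
      · show Df (i + 1) {X (m - 0), X (m - 1)} = -1
        rw [Nat.sub_zero, pair_comm, hD (m - 1) m (by omega) le_rfl, if_pos (by omega), p2]
      · intro k h1 h2
        show Df (i + 1) {X (m - k), X (m - (k + 1))} = 0
        rw [pair_comm, hD (m - (k + 1)) (m - k) (by omega) (by omega), if_pos (by omega)]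
        exact p3 (m - (k + 1)) (by omega)
    exact Or.inr (Or.inr ⟨m, fun a => X (m - a), R, hR m _ R, R.thU_le h ht⟩)
  · have := hc0 1 le_rfl (by omega)
    omega
  · have := hc0 (m - 2) (by omega) (by omega)
    omega
  · have := hc0 1 le_rfl (by omega)
    omega
  · omega
  · have := hc0 1 le_rfl (by omega)
    omega

end Pool.Agent.GaussPoset.Win
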