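import Pool.Agent.W_448fin_h16.FnC
import Pool.Agent.W_448fin_h16.FnE
import Pool.Agent.W_448g2_h96.Asm

/-!
# Final assembly (MP_448cb3_co), step B

`stepB`: a bad level `j` without elements of level `j + 1` below two maximal elements is impossible,
from three named inputs:
* `HSh`: coordinates and shapes of the components (proved, `W_448wd_h84`);
* `HRow`: the rows of level `j` with at least four sites are natural or rotated without pendant
  at the second pair (`RowOK`);
* `HCC`: there is no element (C).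
-/

namespace Pool.Agent.GaussPoset.Win

set_option linter.unusedSectionVars false

open Finset

universe u

/-- coordinates and shapes of all components -/
def HSh (P : Type u) [Fintype P] [PartialOrder P] [DecidableEq P] : Prop :=
  ∀ r j, GoodTo P r j → ∃ (lo hi : Tops P → ℕ → ℕ) (e : Tops P → ℕ → ℕ → P),
    (∀ t : Tops P, Cp.Comp j (t : P) (lo t) (hi t) (e t)) ∧
      ∀ t : Tops P, Wd.Shape j (lo t) (hi t)

/-- INPUT of step A, the levels at most `18` -/
def HFin (P : Type u) [Fintype P] [PartialOrder P] [DecidableEq P] : Prop :=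
  ∀ r j, j ≤ 18 → Bad P r j → ∀ z : P, lev z = j + 1 → ¬ Hul.Jn z

/-- INPUT of step B: the rows of level `j` -/
def HRow (P : Type u) [Fintype P] [PartialOrder P] [DecidableEq P] : Prop :=
  ∀ r i, 1 ≤ i → Bad P r (i + 1) → (∀ z : P, lev z = i + 2 → ¬ Hul.Jn z) →
    ∀ t : P, lev t = 0 → RowOK P (i + 1) t

/-- INPUT of step B, the element (C) -/
def HCC (P : Type u) [Fintype P] [PartialOrder P] [DecidableEq P] : Prop :=
  ∀ r m, 2 ≤ m → Bad P r (2 * m) → (∀ z : P, lev z = 2 * m + 1 → ¬ Hul.Jn z) →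
    ∀ (lo hi : Tops P → ℕ → ℕ) (e : Tops P → ℕ → ℕ → P),
      (∀ t : Tops P, Cp.Comp (2 * m) (t : P) (lo t) (hi t) (e t)) →
      (∀ t : Tops P, Wd.Shape (2 * m) (lo t) (hi t)) →
      (∀ t : Tops P, NatT (2 * m) (t : P) ∨ StairShape (2 * m) (lo t) (hi t)) →
      ∀ (t : Tops P) (z : P), StairShape (2 * m) (lo t) (hi t) → lo t (2 * m) = 0 →
        z ⋖ e t (2 * m) m → z ⋖ e t (2 * m) 0 → False

variable {P : Type u} [Fintype P] [PartialOrder P] [DecidableEq P] {r j : ℕ}

/-- step B at the level `1` -/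
lemma stepB_one (hB : Bad P r 1) (hno : ∀ z : P, lev z = 1 + 1 → ¬ Hul.Jn z) : False := by
  apply hB.bad
  have H := hB.gt.H
  refine T6_good hB.gt le_rfl hB.lt hno fun t ht => Or.inr ?_
  have h1 : St.wt0 1 t ⊆ dc t := by
    intro v hv
    rw [St.mem_wt0] at hv
    rw [mem_dc, H.covBy_iff]
    refine ⟨lt_of_le_of_ne hv.2 ?_, by omega⟩
    rintro rfl
    omega
  have h2 := card_le_card h1
  have h3 := dc_card_le H t
  omega

/-- STEP B -/
theorem stepB (HS : HSh P) (HR : HRow P) (HC : HCC P) :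
    ∀ r j, Bad P r j → (∀ z : P, lev z = j + 1 → ¬ Hul.Jn z) → False := by
  intro r j hB hno
  have h := hB.gt
  have hr := hB.lt
  have h1 := hB.one_le
  rcases Nat.lt_or_ge 1 j with hj | hj
  swap
  · obtain rfl : j = 1 := by omega
    exact stepB_one hB hno
  obtain ⟨k, rfl⟩ : ∃ k, j = k + 2 := ⟨j - 2, by omega⟩
  obtain ⟨lo, hi, e, hC, hS⟩ := HS r (k + 2) h
  have hT : ∀ t : P, lev t = 0 → T6case P (k + 2) t := fun t ht =>
    case_row (i := k + 1) h (by omega) hr hno ht (HR r (k + 1) (by omega) hB hno t ht)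
  have hc : ∀ t : Tops P, NatT (k + 2) (t : P) ∨ IsC (k + 2) (lo t) (hi t) (e t) := by
    intro t
    rcases T6_final h (by omega) hr hno hT t.2 with g | ⟨m, X, R, -, hU, -⟩
    · exact Or.inl g
    · exact Or.inr (rotR_cases h hno (hC t) (hS t) R hU)
  by_cases hall : ∀ t : Tops P, NatT (k + 2) (t : P)
  · exact hB.bad (T6_good h (by omega) hr hno fun t ht => Or.inl (hall ⟨t, ht⟩))
  · push Not at hall
    obtain ⟨t, ht⟩ := hall
    obtain ⟨S, hev, hlo, hhi, z, hz1, hz2⟩ := (hc t).resolve_left ht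
    obtain ⟨m, hm⟩ := hev
    have hm' : k + 2 = 2 * m := by omega
    have hm3 : 3 ≤ m := by
      have := S.hi (k + 2) le_rfl
      omega
    rw [show (k + 2) / 2 = m by omega] at hz1
    have hc' : ∀ t : Tops P, NatT (2 * m) (t : P) ∨ StairShape (2 * m) (lo t) (hi t) := by
      intro t
      rw [← hm']
      exact (hc t).imp_right fun g => g.1
    rw [hm'] at hz1 hz2 hlo S hB hno
    have hC' : ∀ t : Tops P, Cp.Comp (2 * m) (t : P) (lo t) (hi t) (e t) := by
      intro t
      rw [← hm']
      exact hC t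
    have hS' : ∀ t : Tops P, Wd.Shape (2 * m) (lo t) (hi t) := by
      intro t
      rw [← hm']
      exact hS t
    exact HC r m (by omega) hB (fun z hz => hno z (by omega)) lo hi e hC' hS' hc' t z S hlo hz1 hz2

end Pool.Agent.GaussPoset.Win
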