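import Pool.Agent.W_448fin_h16.FnE
import Pool.Agent.W_448e_h97.EI

/-!
# Final assembly (MP_448cb3_co): the open input of case B in terms of the rows of the level `j`
-/

namespace Pool.Agent.GaussPoset.EK

set_option linter.unusedSectionVars false

open Finset Win St Polynomial Wd

universe u

variable {P : Type u} [Fintype P] [PartialOrder P] [DecidableEq P] {r i j : ℕ}

variable {m : ℕ} {x : ℕ → P} {c : ℕ → ℤ} {β : ℤ} {t : Tops P}

lemma RowB.topOf_iff (h : NJ P r j) {v : P} (hl : lev v = j) : topOf v = t ↔ v ≤ (t : P) := by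
  constructor
  · rintro rfl
    exact le_topOf v
  · intro hv
    refine Subtype.ext ?_
    exact Hul.top_unique (h.nj (by omega)) (topOf v).2 t.2 (le_topOf v) hv

lemma RowB.card_wt (h : NJ P r j) (R : RowB P j t m x c β) : (St.wt0 j (t : P)).card = m + 1 := by
  classical
  have e : St.wt0 j (t : P) = (range (m + 1)).image x := by
    ext v
    rw [St.mem_wt0, mem_image]
    constructor
    · rintro ⟨h1, h2⟩
      obtain ⟨k, hk, hkv⟩ := R.row.surj v h1 ((RowB.topOf_iff h h1).2 h2)
      exact ⟨k, by rw [mem_range]; omega, hkv⟩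
    · rintro ⟨k, hk, rfl⟩
      rw [mem_range] at hk
      exact ⟨R.row.lev_x k (by omega),
        (RowB.topOf_iff h (R.row.lev_x k (by omega))).1 (R.row.kap k (by omega))⟩
  rw [e, card_image_of_injOn, card_range]
  intro a ha b hb hab
  rw [mem_coe, mem_range] at ha hb
  exact R.row.inj a b (by omega) (by omega) hab

lemma RowB.ucv_sym (R : RowB P j t m x c β) {a b : ℕ} (ha : a ≤ m) (hb : b ≤ m) (hab : a ≠ b) :
    ucv (x a) (x b) = if a + 1 = b ∨ b + 1 = a then 1 else 0 := by
  rcases Nat.lt_or_ge a b with h1 | h1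
  · rw [R.ucv_x a b h1 hb]
    exact if_congr (by omega) rfl rfl
  · rw [StB_ucv_comm, R.ucv_x b a (by omega) ha]
    exact if_congr (by omega) rfl rfl

/-- THE OPEN INPUT of case B in terms of the rows: no double edge at an end of a row with at least
four sites, and nothing hangs at the second pair of a rotated row -/
theorem rowOK_of (h : NJ P r j) (hj : 2 ≤ j) (t : Tops P)
    (hR : ∀ (m : ℕ) (x : ℕ → P) (c : ℕ → ℤ) (β : ℤ), RowB P j t m x c β → 3 ≤ m →
      c 0 ≠ 1 ∧ c (m - 1) ≠ 1 ∧
        (β = 1 → c 0 = -1 → T6N.thD j {x 1, x 2} = 0) ∧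
        (β = 1 → c (m - 1) = -1 → T6N.thD j {x (m - 1), x (m - 2)} = 0)) :
    RowOK P j (t : P) := by
  classical
  intro h4
  obtain ⟨m, x, c, β, R⟩ := NJ.rowB h hj t
  have hm := R.card_wt h
  have hm3 : 3 ≤ m := by omega
  obtain ⟨g1, g2, g3, g4⟩ := hR m x c β R hm3
  have hD := R.row.df
  have H := h.g.H
  -- the inner edges are not lost
  have hc0 : ∀ k, 1 ≤ k → k + 1 < m → c k = 0 := by
    intro k k1 k2
    rcases R.pat with ⟨p1, p2⟩ | ⟨-, p1, p2, p3⟩ | ⟨-, p1, p2, p3⟩ | ⟨-, -, p3, -⟩ |
      ⟨-, -, p3, -⟩ | ⟨-, -, p3, -⟩ | ⟨p1, -⟩ | ⟨p1, -, p3, -⟩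
    · exact p2 k (by omega)
    · exact p3 k k1 (by omega)
    · exact p3 k k2
    · exact absurd p3 g1
    · exact absurd p3 g2
    · exact absurd p3 g1
    · omega
    · exact absurd p3 g1
  refine ⟨?_, ?_⟩
  · intro v v' hv hv' hvt hvt' hu hu' huc
    obtain ⟨a, ha, rfl⟩ := R.row.surj v hv ((RowB.topOf_iff h hv).2 hvt)
    obtain ⟨b, hb, rfl⟩ := R.row.surj v' hv' ((RowB.topOf_iff h hv').2 hvt')
    have hab : a ≠ b := by
      rintro rfl
      unfold ucv at huc
      rw [show (univ.filter fun w => x a ⋖ w ∧ x a ⋖ w) = uc (x a) by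
        ext w
        simp [mem_uc], hu] at huc
      omega
    have e0 := R.ucv_sym ha hb hab
    rw [e0] at huc
    have hadj : a + 1 = b ∨ b + 1 = a := by
      by_contra hcon
      rw [if_neg hcon] at huc
      omega
    -- the end edges of a rotated row contain a single-up
    have key : ∀ k, k + 1 ≤ m → (uc (x k)).card = 2 → (uc (x (k + 1))).card = 2 →
        dcv (x k) (x (k + 1)) = 1 := by
      intro k hk hk1 hk2
      have hne : x k ≠ x (k + 1) := fun q => by
        have := R.row.inj k (k + 1) (by omega) hk q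
        omega
      have e1 := hD k (k + 1) (by omega) hk
      rw [if_pos rfl, Df_pair H (R.row.lev_x k (by omega)) hne,
        R.ucv_x k (k + 1) (by omega) hk, if_pos rfl] at e1
      have hck : c k = 0 := by
        by_cases hk0 : k = 0
        · subst hk0
          rcases R.pat with ⟨p1, p2⟩ | ⟨-, p1, p2, p3⟩ | ⟨-, p1, p2, p3⟩ | ⟨-, -, p3, -⟩ |
            ⟨-, -, p3, p4, p5⟩ | ⟨-, -, p3, -⟩ | ⟨p1, -⟩ | ⟨p1, -, p3, -⟩
          · exact p2 0 (by omega)
          · have := (R.ends (by omega)).1
            omega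
          · exact p3 0 (by omega)
          · exact absurd p3 g1
          · exact absurd p3 g2
          · exact absurd p3 g1
          · omega
          · exact absurd p3 g1
        · by_cases hkm : k + 1 = m
          · rcases R.pat with ⟨p1, p2⟩ | ⟨-, p1, p2, p3⟩ | ⟨-, p1, p2, p3⟩ | ⟨-, -, p3, -⟩ |
              ⟨-, -, p3, p4, p5⟩ | ⟨-, -, p3, -⟩ | ⟨p1, -⟩ | ⟨p1, -, p3, -⟩
            · exact p2 k (by omega)
            · exact p3 k (by omega) (by omega)
            · have := (R.ends (by omega)).2
              rw [← hkm] at this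
              omega
            · exact absurd p3 g1
            · exact absurd p3 g2
            · exact absurd p3 g1
            · omega
            · exact absurd p3 g1
          · exact hc0 k (by omega) (by omega)
      rw [hck] at e1
      have : (dcv (x k) (x (k + 1)) : ℤ) = 1 := by
        push_cast at e1
        linarith
      exact_mod_cast this
    rcases hadj with rfl | rfl
    · exact key a hb hu hu'
    · rw [StB_dcv_comm]
      exact key b ha hu' hu
  · intro m' X S
    -- the rotated row is `x` or its mirror image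
    have hwt := S.row.card_wt
    have hmm : m' = m := by omega
    subst hmm
    have hs : ∀ a, a ≤ m' → ∃ b, b ≤ m' ∧ x b = X a := fun a ha => by
      have h1 := S.row.lev_x a ha
      exact R.row.surj (X a) h1 ((RowB.topOf_iff h h1).2 (S.row.le_t a ha))
    have adj : ∀ a a' b b', a ≤ m' → a' ≤ m' → b ≤ m' → b' ≤ m' → x b = X a → x b' = X a' →
        ((a + 1 = a' ∨ a' + 1 = a) ↔ (b + 1 = b' ∨ b' + 1 = b)) := by
      intro a a' b b' ha ha' hb hb' e e'
      by_cases hne : a = a'
      · subst hne
        have : b = b' := R.row.inj b b' hb hb' (e.trans e'.symm)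
        constructor <;> intro h <;> omega
      · have hne' : b ≠ b' := fun hbb => hne (S.row.inj a a' ha ha' (by rw [← e, ← e', hbb]))
        have h1 := S.row.ucv_x a a' ha ha' hne
        have h2 := R.ucv_sym hb hb' hne'
        rw [e, e', h1] at h2
        constructor
        · intro h3
          rw [if_pos h3] at h2
          by_contra hcon
          rw [if_neg hcon] at h2
          exact absurd h2 (by norm_num)
        · intro h3
          rw [if_pos h3] at h2
          by_contra hcon
          rw [if_neg hcon] at h2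
          exact absurd h2 (by norm_num)
    obtain ⟨b0, hb0, e0⟩ := hs 0 (by omega)
    obtain ⟨b1, hb1, e1⟩ := hs 1 (by omega)
    obtain ⟨b2, hb2, e2⟩ := hs 2 (by omega)
    obtain ⟨bm, hbm, em⟩ := hs m' le_rfl
    have s1 := (adj 0 1 b0 b1 (by omega) (by omega) hb0 hb1 e0 e1).1 (by omega)
    have s2 := (adj 1 2 b1 b2 (by omega) (by omega) hb1 hb2 e1 e2).1 (by omega)
    have n02 : b0 ≠ b2 := by
      rintro rfl
      have := S.row.inj 0 2 (by omega) (by omega) (e0.symm.trans e2)
      omega
    have n0m : b0 ≠ bm := by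
      rintro rfl
      have := S.row.inj 0 m' (by omega) le_rfl (e0.symm.trans em)
      omega
    have n01 : b0 ≠ b1 := by
      rintro rfl
      have := S.row.inj 0 1 (by omega) (by omega) (e0.symm.trans e1)
      omega
    -- the new pair
    have hnew := S.new
    rw [← e0, ← em] at hnew
    have hlost := S.lost
    rw [← e0, ← e1] at hlost
    have D0 : ∀ a b, a ≤ m' → b ≤ m' → a ≠ b → Df j {x a, x b} =
        if b = a + 1 then c a else if a = b + 1 then c b else
          if (a = 0 ∧ b = m') ∨ (a = m' ∧ b = 0) then β else 0 := by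
      intro a b ha hb hab
      rcases Nat.lt_or_ge a b with h1 | h1
      · rw [hD a b h1 hb]
        by_cases h2 : b = a + 1
        · rw [if_pos h2, if_pos h2]
        · rw [if_neg h2, if_neg h2, if_neg (show ¬ a = b + 1 by omega)]
          exact if_congr (by omega) rfl rfl
      · rw [pair_comm, hD b a (by omega) ha, if_neg (show ¬ b = a + 1 by omega)]
        by_cases h2 : a = b + 1
        · rw [if_pos h2, if_pos h2]
        · rw [if_neg h2, if_neg h2]
          exact if_congr (by omega) rfl rfl
    rw [D0 b0 bm hb0 hbm n0m] at hnew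
    rw [D0 b0 b1 hb0 hb1 n01] at hlost
    have hc1 : ∀ k, k < m' → c k ≠ 1 := by
      intro k hk
      by_cases k0 : k = 0
      · rw [k0]; exact g1
      · by_cases km : k + 1 = m'
        · rw [show k = m' - 1 by omega]; exact g2
        · rw [hc0 k (by omega) (by omega)]
          norm_num
    have hends : (b0 = 0 ∧ bm = m') ∨ (b0 = m' ∧ bm = 0) := by
      by_contra hcon
      by_cases q1 : bm = b0 + 1
      · rw [if_pos q1] at hnew
        exact hc1 b0 (by omega) hnew
      · rw [if_neg q1] at hnew
        by_cases q2 : b0 = bm + 1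
        · rw [if_pos q2] at hnew
          exact hc1 bm (by omega) hnew
        · rw [if_neg q2, if_neg hcon] at hnew
          exact absurd hnew (by norm_num)
    rcases hends with ⟨q1, q2⟩ | ⟨q1, q2⟩
    · subst q1
      rw [if_neg (show ¬ bm = 0 + 1 by omega), if_neg (show ¬ 0 = bm + 1 by omega),
        if_pos (Or.inl ⟨rfl, q2⟩)] at hnew
      have r1 : b1 = 1 := by omega
      have r2 : b2 = 2 := by omega
      rw [r1, if_pos rfl] at hlost
      rw [← e1, ← e2, r1, r2]
      exact g3 hnew hlost
    · rw [if_neg (show ¬ bm = b0 + 1 by omega), if_neg (show ¬ b0 = bm + 1 by omega),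
        if_pos (Or.inr ⟨q1, q2⟩)] at hnew
      have r1 : b1 = m' - 1 := by omega
      have r2 : b2 = m' - 2 := by omega
      rw [if_neg (show ¬ b1 = b0 + 1 by omega), if_pos (show b0 = b1 + 1 by omega), r1] at hlost
      rw [← e1, ← e2, r1, r2]
      exact g4 hnew hlost

end Pool.Agent.GaussPoset.EK
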