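import Pool.Agent.W_448fin_h16.FnD
import Pool.Agent.W_448wd_h84.WdM
import Pool.Agent.W_448so_h63.EB
import Pool.Agent.W_448s8_h76.SaT
import Pool.Agent.W_448fc_h67.FcX

/-!
# Final assembly (MP_448cb3_co)

The theorem on connected Gaussian posets from three named inputs:
* `HFin`: step A for the levels at most `18`;
* `HRow`: step B, the rows with at least four sites of level `j`;
* `HCC8`: step B, no element (C) for `j = 6, 8, .., 16`.
-/

namespace Pool.Agent.GaussPoset.Win

set_option linter.unusedSectionVars false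

open Finset

universe u

/-- INPUT: step B, the element (C) for the levels `6, 8, .., 16` -/
def HCC8 (P : Type u) [Fintype P] [PartialOrder P] [DecidableEq P] : Prop :=
  ∀ r m, 3 ≤ m → m ≤ 8 → Bad P r (2 * m) → (∀ z : P, lev z = 2 * m + 1 → ¬ Hul.Jn z) →
    ∀ (lo hi : Tops P → ℕ → ℕ) (e : Tops P → ℕ → ℕ → P),
      (∀ t : Tops P, Cp.Comp (2 * m) (t : P) (lo t) (hi t) (e t)) →
      (∀ t : Tops P, Wd.Shape (2 * m) (lo t) (hi t)) →
      (∀ t : Tops P, NatT (2 * m) (t : P) ∨ StairShape (2 * m) (lo t) (hi t)) →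
      ∀ (t : Tops P) (z : P), StairShape (2 * m) (lo t) (hi t) → lo t (2 * m) = 0 →
        z ⋖ e t (2 * m) m → z ⋖ e t (2 * m) 0 → False

variable {P : Type u} [Fintype P] [PartialOrder P] [DecidableEq P] {r j : ℕ}

/-- coordinates and shapes of all components -/
theorem hsh : HSh P := by
  intro r j h
  choose lo hi e hC hS using fun t => Wd.shape_all (SO_holds P r) Wd.EV_holds h t
  exact ⟨lo, hi, e, hC, hS⟩

/-- step A -/
theorem stepA (H18 : HFin P) : ∀ r j, Bad P r j → ∀ z : P, lev z = j + 1 → ¬ Hul.Jn z := by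
  intro r j hB z hz
  rcases Nat.lt_or_ge 18 j with hj | hj
  · obtain ⟨lo, hi, e, hC, hS⟩ := hsh (P := P) r j hB.gt
    exact GaussPoset.no_jn hB.gt hB.lt (by omega) hC hS z hz
  · exact H18 r j hj hB z hz

/-- no element (C) -/
theorem hcc (HC : HCC8 P) : HCC P := by
  intro r m hm hB hno lo hi e hC hS hT t z S h0 hz1 hz2
  rcases Nat.lt_or_ge 8 m with h8 | h8
  · exact GaussPoset.caseB_no_cc_big (Or.inr (by omega)) hB.gt hC hS hno S h0 hz1 hz2
  · rcases Nat.lt_or_ge 2 m with h2 | h2
    · exact HC r m (by omega) h8 hB hno lo hi e hC hS hT t z S h0 hz1 hz2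
    · exact GaussPoset.caseB_no_cc_big (Or.inl (by omega)) hB.gt hC hS hno S h0 hz1 hz2

/-- THE THEOREM from the three inputs -/
theorem distrib_of_inputs (hG : IsGaussian P) (hc : (SimpleGraph.hasse P).Connected)
    (H18 : HFin P) (HR : HRow P) (HC : HCC8 P) : IsDistribLatticeOrder P :=
  distrib_of_bad hG hc (stepA H18) (stepB hsh HR (hcc HC))

end Pool.Agent.GaussPoset.Win
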