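import Pool.Agent.W_448fin_h16.FnG
import Pool.Agent.W_448s7s_h5.SpC
import Pool.Agent.W_448s7s_h5.SpB
import Pool.Agent.W_448s7s_h5.SmJ6
import Pool.Agent.W_448s7s_h5.SmJ7
import Pool.Agent.W_448s7s_h5.SmI5
import Pool.Agent.W_448s8f_h76.FiQ

/-!
# Final assembly (MP_448cb3_co): step A for the levels at most `18`

The levels `j ≤ 7`, `j = 9`, `j = 17`, `j = 18` are done, `j = 16` from the seventh step.
-/

namespace Pool.Agent.GaussPoset.Win

set_option linter.unusedSectionVars false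

open Finset

universe u

/-- INPUT: step A for `j = 8` and `j = 10, .., 15` -/
def HJoin (P : Type u) [Fintype P] [PartialOrder P] [DecidableEq P] : Prop :=
  ∀ r j, (j = 8 ∨ (10 ≤ j ∧ j ≤ 15)) → Bad P r j → ∀ z : P, lev z = j + 1 → ¬ Hul.Jn z

/-- INPUT: the seventh step for `j = 16` -/
def HS7 (P : Type u) [Fintype P] [PartialOrder P] [DecidableEq P] : Prop :=
  ∀ r, Bad P r 16 → Fi.S7F P 8

variable {P : Type u} [Fintype P] [PartialOrder P] [DecidableEq P] {r j : ℕ}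

theorem hfin (h1 : HJoin P) (h2 : HS7 P) : HFin P := by
  intro r j hj hB z hz
  have hj1 := hB.one_le
  have hcase : j ≤ 4 ∨ j = 5 ∨ j = 6 ∨ j = 7 ∨ j = 9 ∨ (j = 8 ∨ (10 ≤ j ∧ j ≤ 15)) ∨ j = 16 ∨
      j = 17 ∨ j = 18 := by omega
  obtain ⟨lo, hi, e, hC, hS⟩ := hsh (P := P) r j hB.gt
  rcases hcase with h | h | h | h | h | h | h | h | h
  · exact Sm.no_join_le4 hB.gt hj1 h hC hS hz
  · subst h
    exact Sm.no_join5 ⟨hB.gt, by norm_num, by norm_num, hC, hS⟩ hz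
  · subst h
    exact Sm.no_join6w ⟨hB.gt, by norm_num, by norm_num, hC, hS⟩ hz
  · subst h
    exact Sm.no_join7w ⟨hB.gt, by norm_num, by norm_num, hC, hS⟩ hz
  · subst h
    exact Sm.no_join9 ⟨hB.gt, by norm_num, by norm_num, hC, hS⟩ hz
  · exact h1 r j h hB z hz
  · subst h
    exact Fi.no_jn16 hB.gt hB.lt hC hS (h2 r hB) z hz
  · subst h
    exact Fi.no_jn17 hB.gt hC hS z hz
  · subst h
    exact Fi.no_jn18 hB.gt hB.lt hC hS z hz

end Pool.Agent.GaussPoset.Win
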