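import Pool.Agent.W_448fin_h16.FnH
import Pool.Agent.W_448j8_h67.JaR
import Pool.Agent.W_448hcc_h53.HcA

/-!
# Final assembly (MP_448cb3_co): the inputs which are left

* `HJoin10`: step A for `j = 10, .., 15`;
* `HS7`: the seventh step for `j = 16`;
* `HCC7`: no element (C) for `m = 3, 5, 6, 7`;
* `HRow`: the rows of step B.
-/

namespace Pool.Agent.GaussPoset.Win

set_option linter.unusedSectionVars false

open Finset

universe u

/-- INPUT: step A for `j = 10, .., 15` -/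
def HJoin10 (P : Type u) [Fintype P] [PartialOrder P] [DecidableEq P] : Prop :=
  ∀ r j, 10 ≤ j → j ≤ 15 → Bad P r j → ∀ z : P, lev z = j + 1 → ¬ Hul.Jn z

/-- INPUT: step B, the element (C) for `m = 3, 5, 6, 7` -/
def HCC7 (P : Type u) [Fintype P] [PartialOrder P] [DecidableEq P] : Prop :=
  ∀ r m, (m = 3 ∨ m = 5 ∨ m = 6 ∨ m = 7) → Bad P r (2 * m) →
    (∀ z : P, lev z = 2 * m + 1 → ¬ Hul.Jn z) →
    ∀ (lo hi : Tops P → ℕ → ℕ) (e : Tops P → ℕ → ℕ → P),
      (∀ t : Tops P, Cp.Comp (2 * m) (t : P) (lo t) (hi t) (e t)) →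
      (∀ t : Tops P, Wd.Shape (2 * m) (lo t) (hi t)) →
      (∀ t : Tops P, NatT (2 * m) (t : P) ∨ StairShape (2 * m) (lo t) (hi t)) →
      ∀ (t : Tops P) (z : P), StairShape (2 * m) (lo t) (hi t) → lo t (2 * m) = 0 →
        z ⋖ e t (2 * m) m → z ⋖ e t (2 * m) 0 → False

variable {P : Type u} [Fintype P] [PartialOrder P] [DecidableEq P] {r j : ℕ}

theorem hjoin (h : HJoin10 P) : HJoin P := by
  intro r j hj hB
  rcases hj with rfl | hj
  · obtain ⟨lo, hi, e, hC, hS⟩ := hsh (P := P) r 8 hB.gt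
    exact J8.no_jn8 ⟨hB.gt, by norm_num, by norm_num, hC, hS⟩
  · exact h r j hj.1 hj.2 hB

theorem hcc8 (HC : HCC7 P) : HCC8 P := by
  intro r m h3 h8 hB hno lo hi e hC hS hT t z S h0 hz1 hz2
  have hcase : (m = 3 ∨ m = 5 ∨ m = 6 ∨ m = 7) ∨ m = 4 ∨ m = 8 := by omega
  rcases hcase with h | h | h
  · exact HC r m h hB hno lo hi e hC hS hT t z S h0 hz1 hz2
  · subst h
    exact (J8.level8 ⟨hB.gt, by norm_num, by norm_num, hC, hS⟩).2 t z S h0 hz1 hz2
  · subst h
    exact Fi.no_cc_eight hB.gt hB.lt hC hS hno S h0 hz1 hz2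

/-- THE THEOREM from the inputs which are left -/
theorem distrib_of_inputs2 (hG : IsGaussian P) (hc : (SimpleGraph.hasse P).Connected)
    (h1 : HJoin10 P) (h2 : HS7 P) (h3 : HCC7 P) (h4 : HRow P) : IsDistribLatticeOrder P :=
  distrib_of_inputs hG hc (hfin (hjoin h1) h2) h4 (hcc8 h3)

end Pool.Agent.GaussPoset.Win
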