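import Pool.Agent.W_448fin_h16.FnI
import Pool.Agent.W_448hcc_h53.HcH
import Pool.Agent.W_448cc7_h94.CsG

/-!
# Final assembly (MP_448cb3_co): `m = 6` and `m = 7` of the element (C) plugged in
-/

namespace Pool.Agent.GaussPoset.Win

set_option linter.unusedSectionVars false

open Finset

universe u

/-- INPUT: step B, the element (C) for `m = 3, 5` -/
def HCC5 (P : Type u) [Fintype P] [PartialOrder P] [DecidableEq P] : Prop :=
  ∀ r m, (m = 3 ∨ m = 5) → Bad P r (2 * m) →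
    (∀ z : P, lev z = 2 * m + 1 → ¬ Hul.Jn z) →
    ∀ (lo hi : Tops P → ℕ → ℕ) (e : Tops P → ℕ → ℕ → P),
      (∀ t : Tops P, Cp.Comp (2 * m) (t : P) (lo t) (hi t) (e t)) →
      (∀ t : Tops P, Wd.Shape (2 * m) (lo t) (hi t)) →
      (∀ t : Tops P, NatT (2 * m) (t : P) ∨ StairShape (2 * m) (lo t) (hi t)) →
      ∀ (t : Tops P) (z : P), StairShape (2 * m) (lo t) (hi t) → lo t (2 * m) = 0 →
        z ⋖ e t (2 * m) m → z ⋖ e t (2 * m) 0 → False

variable {P : Type u} [Fintype P] [PartialOrder P] [DecidableEq P] {r j : ℕ}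

theorem hcc7 (HC : HCC5 P) : HCC7 P := by
  intro r m hm hB hno lo hi e hC hS hT t z S h0 hz1 hz2
  have hcase : (m = 3 ∨ m = 5) ∨ m = 6 ∨ m = 7 := by omega
  rcases hcase with h | h | h
  · exact HC r m h hB hno lo hi e hC hS hT t z S h0 hz1 hz2
  · subst h
    exact Hc.no_cc_six hB.gt hC hS hT hno S h0 hz1 hz2
  · subst h
    exact Cs.no_cc_seven hB.gt hC hS hT hno S h0 hz1 hz2

/-- THE THEOREM from the inputs which are left -/
theorem distrib_of_inputs3 (hG : IsGaussian P) (hc : (SimpleGraph.hasse P).Connected)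
    (h1 : HJoin10 P) (h2 : HS7 P) (h3 : HCC5 P) (h4 : HRow P) : IsDistribLatticeOrder P :=
  distrib_of_inputs2 hG hc h1 h2 (hcc7 h3) h4

end Pool.Agent.GaussPoset.Win
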