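import Pool.Agent.W_448fin_h16.FnF
import Pool.Agent.W_448p_h97.PbZ
import Pool.Agent.W_448nf_h84.NfB
import Pool.Agent.W_448w4_h10.ME
import Pool.Agent.W_448kf_h15.KfM

/-!
# Final assembly (MP_448cb3_co): case B, the sum over the window `j`

If all the values (3,2) vanish and all `F` are nonnegative, then all `F` are zero, and the element `y`
of a join of a double `y` and a single element is an exceptional double over the last edge of a
rotated row.
-/

namespace Pool.Agent.GaussPoset.EK

set_option linter.unusedSectionVars false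

open Finset Win St Polynomial Wd Win.W4

universe u

variable {P : Type u} [Fintype P] [PartialOrder P] [DecidableEq P] {r i j : ℕ}

variable {m : ℕ} {x : ℕ → P} {c : ℕ → ℤ} {β : ℤ} {t : Tops P}

variable {K : Finset P} {psi : P → P}

/-- the value (3,2) of a component -/
noncomputable def v3 (j : ℕ) (t : Tops P) : ℤ :=
  I2.w3 (I2.bb j (j + 1) (topOf : P → Tops P) t) (I2.VV j (j + 1) (topOf : P → Tops P) t)

/-- the functional `F` of a component -/
noncomputable def FF (j : ℕ) (t : Tops P) : ℤ := Fn j (cext (j + 1) (topOf : P → Tops P) t)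

/-- (2a): all the values (3,2) vanish, and the two stars are far apart -/
structure W0 (P : Type u) [Fintype P] [PartialOrder P] [DecidableEq P] (j : ℕ) : Prop where
  w : ∀ t : Tops P, v3 j t = 0
  six : ∀ (t : Tops P) (m : ℕ) (x : ℕ → P) (c : ℕ → ℤ) (β : ℤ), RowB P j t m x c β → Pat6 m c β →
    7 ≤ m ∧ Pa.dl j (cext (j + 1) (topOf : P → Tops P) t) x 2 = 1 ∧
      Pa.dl j (cext (j + 1) (topOf : P → Tops P) t) x (m - 3) = 1

/-- the value of the exceptional double -/
lemma RowB.sa_bad (h : NJ P r j) (R : Red P j K psi) (B : RowB P j t m x c β) (hm : 3 ≤ m)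
    (c0 : c 0 = -1) (c1 : ∀ k, 1 ≤ k → k < m → c k = 0) :
    sa j (topOf : P → Tops P) K {x (m - 1), x m} t = -1 := by
  classical
  have H := h.g.H
  have W := B.row
  rw [sa_eq]
  have e : K.filter (fun k => topOf k = t ∧ Disjoint (ns j k) {x (m - 1), x m}) =
      K.filter (fun k => ns j k = {x 0, x 1}) := by
    ext k
    rw [mem_filter, mem_filter]
    constructor
    · rintro ⟨hk, hkt, hd⟩
      refine ⟨hk, ?_⟩
      obtain ⟨p', q', f1, f2, f3, f4⟩ := W.pair R H h.split hk hkt
      rcases f4 with ⟨f5, f6⟩ | ⟨f5, f6, _, _⟩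
      · have : p' = 0 := by
          by_contra h7
          exact f6 (c1 p' (by omega) (by omega))
        subst this
        rw [f3, f5]
      · exfalso
        rw [f3, f6, disjoint_left] at hd
        exact hd (a := x m) (by simp) (by simp)
    · rintro ⟨hk, hns⟩
      refine ⟨hk, ?_, ?_⟩
      · have h1 := (kap_ns' H h.split (R.sub hk) (v := x 0) (by rw [hns]; simp)).1
        rw [← h1]
        exact W.kap 0 (by omega)
      · rw [hns, disjoint_left]
        intro v hv hv'
        rw [mem_insert, mem_singleton] at hv hv'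
        rcases hv with rfl | rfl <;> rcases hv' with h8 | h8 <;>
          (have := W.inj _ _ (by omega) (by omega) h8; omega)
  rw [e, fib_K R.mat R.sub, W.df 0 1 (by omega) (by omega), if_pos rfl, c0]

lemma sa_badR (h : NJ P r j) (R : Red P j K psi) {y : P} (hb : BadR P j y) :
    sa j (topOf : P → Tops P) K (uc y) (topOf y) = -1 := by
  obtain ⟨m, x, c, β, B, hm, -, ⟨c0, c1, e⟩ | ⟨c0, c1, e⟩⟩ := hb
  · rw [e]
    exact B.sa_bad h R hm c0 c1
  · rw [e]
    have h1 := B.rev.sa_bad h R hm (by show c (m - 1 - 0) = -1; rwa [Nat.sub_zero])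
      (fun k k1 k2 => c1 (m - 1 - k) (by omega))
    rw [show m - (m - 1) = 1 by omega, Nat.sub_self, pair_comm] at h1
    exact h1

/-- every top is the component of itself -/
lemma NJ.topOf_self (h : NJ P r j) (t : Tops P) : topOf (t : P) = t :=
  Subtype.ext (Hul.top_unique (h.nj (by have := t.2; omega)) (topOf (t : P)).2 t.2
    (le_topOf (t : P)) le_rfl)

lemma NJ.mem_img (h : NJ P r j) (t : Tops P) : t ∈ univ.image (topOf : P → Tops P) :=
  mem_image.2 ⟨(t : P), mem_univ _, NJ.topOf_self h t⟩

/-- the profile of a component -/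
theorem NJ.prof (h : NJ P r j) (hj : 2 ≤ j) (hW : W0 P j) (t : Tops P) :
    I2.Prof 2 4 (I2.bb j (j + 1) (topOf : P → Tops P) t)
      (I2.VV j (j + 1) (topOf : P → Tops P) t) := by
  have hjr : j ≤ r := by have := h.hr; omega
  obtain ⟨K, psi, R⟩ := exists_red P j
  obtain ⟨m, x, c, β, B⟩ := NJ.rowB h hj t
  rcases B.small h.g.H h.split with h1 | h1
  · exact (K2.prof_star h.g.H hjr (NJ.noQ h hj) (fun m hm => h.g.good m (by omega)) h.split R.mat
      R.sub (K2.star_small h.g.H hjr h.split R h1) (hW.w t)).p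
  · exact (NJ.pat6_prof h hj R (hW.w t) B h1).1

/-- the weight of a join of a double and a single element -/
lemma NJ.join_weight (h : NJ P r j) (hj : 2 ≤ j) (R : Red P j K psi) {z y v : P}
    (S : K2.SD j (topOf : P → Tops P) z y v) :
    0 ≤ 1 + (sa j (topOf : P → Tops P) K (uc y) (topOf y) +
      sa j (topOf : P → Tops P) K (uc v) (topOf v)) ∧
    (1 + (sa j (topOf : P → Tops P) K (uc y) (topOf y) +
      sa j (topOf : P → Tops P) K (uc v) (topOf v)) = 0 → BadR P j y) := by
  have hjr : j ≤ r := by have := h.hr; omega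
  have h4 := NJ.sa_single h hj R (S.lv' h.g.H) S.cv
  by_cases hb : BadR P j y
  · rw [sa_badR h R hb]
    exact ⟨by linarith, fun _ => hb⟩
  · have h1 := NJ.join_one h R S hj hb
    rw [K2.Ek_one_SD h.g.H hjr h.split R.mat R.sub S] at h1
    exact ⟨by linarith, fun h2 => by linarith⟩

/-- THE STATE after the sum: all `F = 0`, all joins of a double and a single element are exceptional -/
structure Z0 (P : Type u) [Fintype P] [PartialOrder P] [DecidableEq P] (j : ℕ) : Prop where
  w : W0 P j
  F : ∀ t : Tops P, FF j t = 0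
  sd : ∀ z y v, K2.SD j (topOf : P → Tops P) z y v → z ∉ cuni (j + 1) (topOf : P → Tops P) →
    BadR P j y

/-- THE SUM over the window `j` -/
theorem NJ.z0 (h : NJ P r j) (hj : 2 ≤ j) (hW : W0 P j) (hF : ∀ t : Tops P, 0 ≤ FF j t) :
    Z0 P j := by
  have hjr : j ≤ r := by have := h.hr; omega
  obtain ⟨K, psi, R⟩ := exists_red P j
  have key := K2.all_zero h.g.H hjr (NJ.noQ h hj) (fun m hm => h.g.good m (by omega)) h.split R.mat
    R.sub (fun t _ => NJ.prof h hj hW t) (fun t _ => hF t)
    (fun z y v S _ => (NJ.join_weight h hj R S).1)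
  exact ⟨hW, fun t => key.1 t (NJ.mem_img h t),
    fun z y v S hz => (NJ.join_weight h hj R S).2 (key.2 z y v S hz)⟩

/-- a component with at most three sites is natural -/
theorem NJ.nat_three (h : NJ P r j) (hj : 2 ≤ j) (hW : W0 P j) (B : RowB P j t m x c β)
    (hm : m ≤ 2) : NatT j (t : P) := by
  classical
  have hjr : j ≤ r := by have := h.hr; omega
  have H := h.g.H
  obtain ⟨K, psi, R⟩ := exists_red P j
  have hst : (st j (cext (j + 1) (topOf : P → Tops P) t)).card ≤ 3 := by
    have h5 : st j (cext (j + 1) (topOf : P → Tops P) t) ⊆ (range 3).image x := by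
      intro v hv
      rw [mem_sites h.split] at hv
      obtain ⟨k, hk, rfl⟩ := B.row.surj v hv.1 hv.2
      exact mem_image_of_mem x (mem_range.2 (by omega))
    have h6 := (card_le_card h5).trans card_image_le
    rwa [card_range] at h6
  have h0 := K2.three_natural H hjr (NJ.noQ h hj) (fun m hm => h.g.good m (by omega)) h.split R
    (a := t) hst (hW.w t)
  intro v v' hv hv' hvt hvt' hne
  have hD : Df j {v, v'} = 0 := by
    rw [← fib_K R.mat R.sub]
    refine sum_eq_zero fun k hk => ?_
    rw [mem_filter] at hk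
    exfalso
    have hkap := (kap_ns' H h.split (R.sub hk.1) (v := v) (by rw [hk.2]; simp)).1
    have htv : topOf v = t := (RowB.topOf_iff h hv).2 hvt
    have hl : lev k ≤ j + 1 := by
      rcases mem_union.1 (R.sub hk.1) with h1 | h1
      · exact (mem_dbL.1 h1).1.le
      · have := (mem_dbU.1 h1).1
        omega
    have hk2 : k ∈ K2.KD j K (cext (j + 1) (topOf : P → Tops P) t) := by
      rw [K2.mem_KD]
      exact ⟨hk.1, mem_cext_of_le h.split hl (hkap.symm.trans htv), R.sub hk.1⟩
    rw [h0] at hk2
    exact absurd hk2 (notMem_empty k)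
  rw [Df_pair H hv hne] at hD
  have : (dcv v v' : ℤ) = ucv v v' := by linarith
  exact_mod_cast this.symm

end Pool.Agent.GaussPoset.EK
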