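import Pool.Agent.W_448fin_h16.FnK
import Pool.Agent.W_448fin_h16.FnJ
import Pool.Agent.W_448kf_h15.KfN
import Pool.Agent.W_448sd_h84.SdM
import Pool.Agent.W_448rr_h67.RrE
import Pool.Agent.W_448so_h39.FC

/-!
# Final assembly (MP_448cb3_co): case B, the rows: `HRow` from named inputs

Every row with at least four sites of the bad level is natural, from the inputs
* `HCCu` : no element (C) (no hypothesis on the other components);
* `HW0` : (2a), all the values (3,2) vanish;
* `HFold` : no [DL] at a fold end;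
* `HLateF`, `HLate0` : the open rows of the late words;
* `HRT` : no closed [DL] with at least five sites, in the state `Z1` (all `F = 0`, no join of a double
  and a single element).
-/

namespace Pool.Agent.GaussPoset.EK

set_option linter.unusedSectionVars false

open Finset Win St Polynomial Wd Win.W4

universe u

/-- CASE B -/
structure CB (P : Type u) [Fintype P] [PartialOrder P] [DecidableEq P] (r j : ℕ) : Prop where
  bad : Bad P r j
  no : ∀ z : P, lev z = j + 1 → ¬ Hul.Jn z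

/-- the late components with at least four sites of level `j` -/
structure LateC (j a : ℕ) (lo hi : ℕ → ℕ) : Prop where
  ha : 3 ≤ a
  haj : a ≤ j
  one : ∀ k, k < a → lo k = 0 ∧ hi k = 0
  two : lo a = 0 ∧ hi a = 1
  wd : word lo hi a (j - a) = [OC, OO, OO] ∨ word lo hi a (j - a) = [OC, OO, CO, OO] ∨
    word lo hi a (j - a) = [OC, CO, CO, OO, CO, OO] ∨
    word lo hi a (j - a) = [OC, CO, CO, OO, CO, OO, OC] ∨
    word lo hi a (j - a) = [OC, CO, CO, OO, CO, OO, OO]

/-- the state `Z0` without any join of a double and a single element -/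
structure Z1 (P : Type u) [Fintype P] [PartialOrder P] [DecidableEq P] (j : ℕ) : Prop
    extends Z0 P j where
  no_sd : ∀ z y v, K2.SD j (topOf : P → Tops P) z y v → z ∈ cuni (j + 1) (topOf : P → Tops P)

section inputs

variable (P : Type u) [Fintype P] [PartialOrder P] [DecidableEq P]

/-- INPUT (A6): there is no element (C) -/
def HCCu : Prop :=
  ∀ r m, 3 ≤ m → CB P r (2 * m) → ∀ (lo hi : Tops P → ℕ → ℕ) (e : Tops P → ℕ → ℕ → P),
    (∀ t : Tops P, Cp.Comp (2 * m) (t : P) (lo t) (hi t) (e t)) →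
    (∀ t : Tops P, Shape (2 * m) (lo t) (hi t)) →
    ∀ (t : Tops P) (z : P), StairShape (2 * m) (lo t) (hi t) → lo t (2 * m) = 0 →
      z ⋖ e t (2 * m) m → z ⋖ e t (2 * m) 0 → False

/-- INPUT (A1) -/
def HW0 : Prop := ∀ r j, 2 ≤ j → CB P r j → W0 P j

/-- INPUT (A2): no [DL] at a fold end -/
def HFold : Prop :=
  ∀ r j, 2 ≤ j → CB P r j → W0 P j → ∀ (t : Tops P) (m : ℕ) (x : ℕ → P) (c : ℕ → ℤ) (β : ℤ)
    (lo hi : ℕ → ℕ) (e : ℕ → ℕ → P), RowB P j t m x c β → Cp.Comp j (t : P) lo hi e →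
    StairShape j lo hi → j % 2 = 0 → 3 ≤ m → x 0 = e j (j / 2) → c 0 = 1 → False

/-- INPUT: `F ≥ 0` for the open rows of the late words (not yet typed) -/
def HLateF : Prop :=
  ∀ r j, 2 ≤ j → CB P r j → W0 P j → ∀ (t : Tops P) (m : ℕ) (x : ℕ → P) (c : ℕ → ℤ) (β : ℤ)
    (lo hi : ℕ → ℕ) (e : ℕ → ℕ → P) (a : ℕ), RowB P j t m x c β → Cp.Comp j (t : P) lo hi e →
    LateC j a lo hi → 3 ≤ m →
    ((c 0 = 1 ∧ (uc (x 0)).card = 1 ∧
        (m = 3 → UE j (cext (j + 1) (topOf : P → Tops P) t) x 2 ≠ ∅ ∨ (uc (x 3)).card = 2)) ∨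
      (β = 1 ∧ c 0 = -1 ∧ 4 ≤ m)) → 0 ≤ FF j t

/-- INPUT: the open rows of the late words in the state `Z0` (not yet typed) -/
def HLate0 : Prop :=
  ∀ r j, 2 ≤ j → CB P r j → Z0 P j → ∀ (t : Tops P) (m : ℕ) (x : ℕ → P) (c : ℕ → ℤ) (β : ℤ)
    (lo hi : ℕ → ℕ) (e : ℕ → ℕ → P) (a : ℕ), RowB P j t m x c β → Cp.Comp j (t : P) lo hi e →
    LateC j a lo hi → 3 ≤ m →
    ((c 0 = 1 ∧ (uc (x 0)).card = 1 ∧
        (m = 3 → UE j (cext (j + 1) (topOf : P → Tops P) t) x 2 ≠ ∅ ∨ (uc (x 3)).card = 2)) ∨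
      (β = 1 ∧ c 0 = -1 ∧ (m = 3 → pen (x 1) ≠ ∅ ∧ pen (x 0) = ∅))) → False

/-- INPUT (route T): no closed [DL] with at least five sites in the state `Z1` -/
def HRT : Prop :=
  ∀ r j, 2 ≤ j → CB P r j → Z1 P j → ∀ (t : Tops P) (m : ℕ) (x : ℕ → P) (c : ℕ → ℤ),
    RowB P j t m x c 0 → 4 ≤ m → (uc (x 0)).card = 2 → c 0 = 1 → c 1 = -1 →
    (∀ k, 2 ≤ k → k < m → c k = 0) → False

end inputs

variable {P : Type u} [Fintype P] [PartialOrder P] [DecidableEq P] {r i j : ℕ}

variable {m : ℕ} {x : ℕ → P} {c : ℕ → ℤ} {β : ℤ} {t : Tops P}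

variable {K : Finset P} {psi : P → P}

theorem CB.nj (h : CB P r j) : NJ P r j := ⟨h.bad.gt, h.bad.lt, h.no⟩

/-- a row without defects is natural -/
lemma RowB.natT (h : NJ P r j) (B : RowB P j t m x c β) (h0 : ∀ k, k < m → c k = 0)
    (hβ : β = 0) : NatT j (t : P) := by
  have H := h.g.H
  have key : ∀ a b, a < b → b ≤ m → ucv (x a) (x b) = dcv (x a) (x b) := by
    intro a b hab hb
    have hne : x a ≠ x b := fun q => by
      have := B.row.inj a b (by omega) hb q
      omega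
    have e1 := B.row.df a b hab hb
    rw [Df_pair H (B.row.lev_x a (by omega)) hne, hβ] at e1
    have e2 : (dcv (x a) (x b) : ℤ) - ucv (x a) (x b) = 0 := by
      rw [e1]
      split_ifs
      · exact h0 a (by omega)
      · rfl
      · rfl
    have : (ucv (x a) (x b) : ℤ) = dcv (x a) (x b) := by linarith
    exact_mod_cast this
  intro v v' hv hv' hvt hvt' hne
  obtain ⟨a, ha, rfl⟩ := B.row.surj v hv ((RowB.topOf_iff h hv).2 hvt)
  obtain ⟨b, hb, rfl⟩ := B.row.surj v' hv' ((RowB.topOf_iff h hv').2 hvt')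
  rcases Nat.lt_trichotomy a b with h1 | h1 | h1
  · exact key a b h1 hb
  · rw [h1] at hne
    exact absurd rfl hne
  · rw [StB_ucv_comm, StB_dcv_comm]
    exact key b a h1 ha

/-- a row with at least four sites is natural, or it has a double edge or a lost edge at the
beginning, after a reversal -/
lemma RowB.cases (h : NJ P r j) (B : RowB P j t m x c β) (hm : 3 ≤ m) :
    NatT j (t : P) ∨ ∃ (x' : ℕ → P) (c' : ℕ → ℤ), RowB P j t m x' c' β ∧
      ((c' 0 = 1 ∧ c' 1 = -1 ∧ β = 0 ∧ ((∀ k, 2 ≤ k → k < m → c' k = 0) ∨ Pat6 m c' β)) ∨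
        (β = 1 ∧ c' 0 = -1 ∧ ∀ k, 1 ≤ k → k < m → c' k = 0)) := by
  rcases B.pat with ⟨p1, p2⟩ | ⟨-, p1, p2, p3⟩ | ⟨-, p1, p2, p3⟩ | ⟨-, p1, p2, p3, p4⟩ |
    ⟨-, p1, p2, p3, p4⟩ | p1 | ⟨p1, -⟩ | p1
  · exact Or.inl (B.natT h p2 p1)
  · exact Or.inr ⟨x, c, B, Or.inr ⟨p1, p2, p3⟩⟩
  · refine Or.inr ⟨_, _, B.rev, Or.inr ⟨p1, ?_, fun k k1 k2 => ?_⟩⟩
    · show c (m - 1 - 0) = -1
      rwa [Nat.sub_zero]
    · exact p3 (m - 1 - k) (by omega)
  · exact Or.inr ⟨x, c, B, Or.inl ⟨p2, p3, p1, Or.inl p4⟩⟩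
  · refine Or.inr ⟨_, _, B.rev, Or.inl ⟨?_, ?_, p1, Or.inl fun k k1 k2 => ?_⟩⟩
    · show c (m - 1 - 0) = 1
      rwa [Nat.sub_zero]
    · show c (m - 1 - 1) = -1
      rwa [show m - 1 - 1 = m - 2 by omega]
    · exact p4 (m - 1 - k) (by omega)
  · exact Or.inr ⟨x, c, B, Or.inl ⟨p1.2.2.1, p1.2.2.2.1, p1.2.1, Or.inr p1⟩⟩
  · omega
  · exact (B.not8 p1).elim

/-- the two sites with a common lower double -/
lemma RowB.low (h : NJ P r j) (B : RowB P j t m x c β) {a b : ℕ} (hab : a < b) (hb : b ≤ m)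
    (h1 : 1 ≤ (dcv (x a) (x b) : ℤ)) : ∃ y, lev y = j + 1 ∧ y ≤ (t : P) ∧ y ⋖ x a ∧ y ⋖ x b := by
  classical
  have h2 : 0 < dcv (x a) (x b) := by exact_mod_cast h1
  unfold dcv at h2
  obtain ⟨y, hy⟩ := card_pos.1 h2
  rw [mem_filter] at hy
  have hl := lev_cov h.g.H hy.2.1
  have hx := B.row.lev_x a (by omega)
  refine ⟨y, by omega, ?_, hy.2.1, hy.2.2⟩
  have hxt : x a ≤ (t : P) := by
    rw [← B.row.kap a (by omega)]
    exact le_topOf (x a)
  exact hy.2.1.le.trans hxt

/-- the shape of a component with a defect: closed at the double edge, or late -/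
theorem CB.shape (hC : HCCu P) (hFo : HFold P) (h : CB P r j) (hj : 2 ≤ j) (hW : W0 P j)
    {lo hi : Tops P → ℕ → ℕ} {e : Tops P → ℕ → ℕ → P}
    (C : ∀ t : Tops P, Cp.Comp j (t : P) (lo t) (hi t) (e t))
    (hS : ∀ t : Tops P, Shape j (lo t) (hi t)) (B : RowB P j t m x c β) (hm : 3 ≤ m) :
    ((c 0 = 1 → (uc (x 0)).card = 2) ∧ β ≠ 1) ∨ ∃ a, LateC j a (lo t) (hi t) := by
  classical
  have hn := h.nj
  have H := hn.g.H
  have hdf := B.row.df
  -- the double edge
  have hdd : c 0 = 1 → dcv (x 0) (x 1) = 2 := by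
    intro h0
    have hne : x 0 ≠ x 1 := fun q => by
      have := B.row.inj 0 1 (by omega) (by omega) q
      omega
    have e1 := hdf 0 1 (by omega) (by omega)
    rw [if_pos rfl, Df_pair H (B.row.lev_x 0 (by omega)) hne,
      B.ucv_x 0 1 (by omega) (by omega), if_pos rfl, h0] at e1
    have : (dcv (x 0) (x 1) : ℤ) = 2 := by
      push_cast at e1
      linarith
    exact_mod_cast this
  -- the new pair
  have hnew : β = 1 → ∃ y, lev y = j + 1 ∧ y ≤ (t : P) ∧ y ⋖ x 0 ∧ y ⋖ x m := by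
    intro h1
    refine B.low hn (by omega) le_rfl ?_
    have hne : x 0 ≠ x m := fun q => by
      have := B.row.inj 0 m (by omega) le_rfl q
      omega
    have e1 := hdf 0 m (by omega) le_rfl
    rw [if_neg (by omega), if_pos ⟨rfl, rfl⟩, Df_pair H (B.row.lev_x 0 (by omega)) hne,
      B.ucv_x 0 m (by omega) le_rfl, if_neg (by omega), h1] at e1
    push_cast at e1
    linarith
  have hone : (uc (x 0)).card ≠ 2 → (uc (x 0)).card = 1 := by
    intro h2
    have W := NJ.prow hn hj B (by omega)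
    rcases W.uc_le (k := 0) (by omega) with h1 | h1
    · exact h1
    · exact absurd h1 h2
  have hx0t : x 0 ≤ (t : P) := by
    rw [← B.row.kap 0 (by omega)]
    exact le_topOf (x 0)
  have hxmt : x m ≤ (t : P) := by
    rw [← B.row.kap m le_rfl]
    exact le_topOf (x m)
  have hx0 := B.row.lev_x 0 (by omega)
  have hxm := B.row.lev_x m le_rfl
  obtain ⟨hlen, hor⟩ := B.orient hn hj (C t)
  rcases hS t with g1 | ⟨g1, S'⟩ | ⟨g1, S⟩ | ⟨g1, g2, g3⟩ | ⟨g1, g2⟩ | ⟨a, g0, g1, g2, g3, hN, g4⟩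
  · exfalso
    have := g1 j le_rfl
    omega
  · -- rectangle
    left
    refine ⟨fun h0 => ?_, fun h1 => ?_⟩
    · by_contra h2
      have h3 := NJ_rect_S_end hn hj C hS (t := t) (x := x 0) (x' := x 1) (by omega) hx0 hx0t
        (hone h2) (fun q => by
          have := B.row.inj 0 1 (by omega) (by omega) q
          omega)
      rw [hdd h0] at h3
      omega
    · obtain ⟨y, hy1, hy2, hy3, hy4⟩ := hnew h1
      have h3 := rect_no_rotation hn.g hj hn.no C (NJ_level_one hn (by omega) C hS) (t := t)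
        (z := y) (x := x 0) (x' := x m) (by omega) hy1 hy2 hy3 hy4 (fun q => by
          have := B.row.inj 0 m (by omega) le_rfl q
          omega)
      rw [B.ucv_x 0 m (by omega) le_rfl, if_neg (by omega)] at h3
      omega
  · -- stair
    left
    have hhj := S.hi j le_rfl
    have hj6 : 6 ≤ j := by omega
    have hcc : ∀ z : P, lo t j = 0 → j % 2 = 0 → z ⋖ e t j (j / 2) → z ⋖ e t j 0 → False := by
      intro z z0 z1 z2 z3
      obtain ⟨n, rfl⟩ : ∃ n, j = 2 * n := ⟨j / 2, by omega⟩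
      rw [show 2 * n / 2 = n by omega] at z2
      exact hC r n (by omega) h lo hi e C hS t z S z0 z2 z3
    have hNo : NoCC j lo hi e := by
      intro _ t' z S' z0 z1 z2 z3
      obtain ⟨n, rfl⟩ : ∃ n, j = 2 * n := ⟨j / 2, by omega⟩
      rw [show 2 * n / 2 = n by omega] at z2
      exact hC r n (by omega) h lo hi e C hS t' z S' z0 z2 z3
    refine ⟨fun h0 => ?_, fun h1 => ?_⟩
    · by_contra h2
      rcases sd_single hn.g hj6 (C t) S hx0 hx0t (hone h2) with ⟨a1, a2⟩ | ⟨a1, a2⟩
      · have hu := B.ucv_x 0 1 (by omega) (by omega)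
        rw [if_pos rfl] at hu
        have hd := hdd h0
        have hne : x 1 ≠ x 0 := fun q => by
          have := B.row.inj 1 0 (by omega) (by omega) q
          omega
        rw [a2] at hu hd hne
        have h3 := NJ_stair_S_end hn hj6 C hS hNo S a1 hne hu
        omega
      · exact hFo r j hj h hW t m x c β (lo t) (hi t) (e t) B (C t) S a1 hm a2 h0
    · obtain ⟨y, hy1, hy2, hy3, hy4⟩ := hnew h1
      have hne : x 0 ≠ x m := fun q => by
        have := B.row.inj 0 m (by omega) le_rfl q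
        omega
      obtain ⟨f1, f2⟩ := B.ends (by rw [h1]; norm_num)
      rcases sd_single hn.g hj6 (C t) S hx0 hx0t f1 with ⟨a1, a2⟩ | ⟨a1, a2⟩ <;>
        rcases sd_single hn.g hj6 (C t) S hxm hxmt f2 with ⟨b1, b2⟩ | ⟨b1, b2⟩
      · exact hne (a2.trans b2.symm)
      · exact hcc y a1 b1 (by rw [← b2]; exact hy4) (by rw [← a2]; exact hy3)
      · exact hcc y b1 a1 (by rw [← a2]; exact hy3) (by rw [← b2]; exact hy4)
      · exact hne (a2.trans b2.symm)
  · exfalso
    subst g1
    omega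
  · subst g1
    exact absurd g2 (NJ_no_six hn C hS t)
  · right
    have Ct := C t
    refine ⟨a, g0, g1, g2, g3, ?_⟩
    have hstep : ∀ k, k < a + (j - a) → lo t k ≤ lo t (k + 1) ∧ lo t (k + 1) ≤ lo t k + 1 := by
      intro k hk
      have := Ct.lo_step k (by omega)
      omega
    have hstep' : ∀ k, k < a + (j - a) → hi t k ≤ hi t (k + 1) ∧ hi t (k + 1) ≤ hi t k + 1 := by
      intro k hk
      have := Ct.hi_step k (by omega)
      omega
    exact late_wide g3 hstep hstep' g4 (by rw [show a + (j - a) = j by omega]; omega)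

/-- the length of a late row -/
lemma LateC.len {a : ℕ} {lo hi : ℕ → ℕ} {e : ℕ → ℕ → P} (hn : NJ P r j) (hj : 2 ≤ j)
    (L : LateC j a lo hi) (C : Cp.Comp j (t : P) lo hi e) (B : RowB P j t m x c β) : m ≤ 4 := by
  obtain ⟨hlen, -⟩ := B.orient hn hj C
  have h1 := L.two
  have h2 : ∀ d, a + d ≤ j → hi (a + d) ≤ 1 + d := by
    intro d
    induction d with
    | zero => intro _; rw [Nat.add_zero, h1.2]
    | succ d ih =>
      intro hd
      have e1 := ih (by omega)
      have e2 := C.hi_step (a + d) (by omega)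
      rw [show a + d + 1 = a + (d + 1) by omega] at e2
      omega
  -- count the letters
  have key : ∀ w : List Ltr, word lo hi a (j - a) = w → (wdt w : ℤ) ≤ 4 → m ≤ 4 := by
    intro w hw hw4
    have gen : ∀ n, n ≤ j - a → (hi (a + n) : ℤ) - lo (a + n) =
        1 + ((word lo hi a n).map (fun l => (if l.2 then (1 : ℤ) else 0) -
          if l.1 then 1 else 0)).sum := by
      intro n
      induction n with
      | zero =>
        intro _
        simp [word, h1.1, h1.2]
      | succ n ih =>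
        intro hn
        have e1 := ih (by omega)
        have e2 := C.lo_step (a + n) (by omega)
        have e3 := C.hi_step (a + n) (by omega)
        have e4 : word lo hi a (n + 1) = word lo hi a n ++
            [(decide (lo (a + n + 1) ≠ lo (a + n)), decide (hi (a + n + 1) ≠ hi (a + n)))] := by
          unfold word
          rw [List.range_succ, List.map_append]
          rfl
        rw [e4, List.map_append, List.sum_append]
        simp only [List.map_cons, List.map_nil, List.sum_cons, List.sum_nil, add_zero,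
          decide_eq_true_eq]
        rw [show a + (n + 1) = a + n + 1 by omega]
        split_ifs <;> omega
    have h3 := gen (j - a) le_rfl
    have haj := L.haj
    rw [show a + (j - a) = j by omega, hw] at h3
    unfold wdt at hw4
    rw [← h3] at hw4
    omega
  rcases L.wd with w | w | w | w | w <;> exact key _ w (by decide)

end Pool.Agent.GaussPoset.EK
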