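import Pool.Agent.W_448fin_h16.FnL

/-!
# Final assembly (MP_448cb3_co): case B: `HRow` from the named inputs of `FnL`
-/

namespace Pool.Agent.GaussPoset.EK

set_option linter.unusedSectionVars false

open Finset Win St Polynomial Wd Win.W4

universe u

variable {P : Type u} [Fintype P] [PartialOrder P] [DecidableEq P] {r i j : ℕ}

variable {m : ℕ} {x : ℕ → P} {c : ℕ → ℤ} {β : ℤ} {t : Tops P}

variable {K : Finset P} {psi : P → P}

/-- without a join of a double and a single element, everything below a double is in the part -/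
lemma in_part (h : NJ P r j) (hj : 2 ≤ j)
    (hsd : ∀ z y v, K2.SD j (topOf : P → Tops P) z y v → z ∈ cuni (j + 1) (topOf : P → Tops P))
    (t : Tops P) : ∀ z, lev z = j + 2 → ∀ y ∈ uc z, y ∈ cext (j + 1) (topOf : P → Tops P) t →
      (uc y).card = 2 → z ∈ cext (j + 1) (topOf : P → Tops P) t := by
  classical
  have H := h.g.H
  intro z hz y hy hyC hy2
  have hly : lev y = j + 1 := by
    have := lev_uc H hy
    omega
  have hyt : topOf y = t := mem_cext.1 hyC y le_rfl (by omega)
  -- all the covers belong to the component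
  have hcov : ∀ v ∈ uc z, topOf v = t := by
    intro v hv
    by_contra hvt
    have hne : y ≠ v := by
      rintro rfl
      exact hvt hyt
    have hlv : lev v = j + 1 := by
      have := lev_uc H hv
      omega
    have huz : uc z = {y, v} := by
      symm
      apply eq_of_subset_of_card_le
      · intro w hw
        rw [mem_insert, mem_singleton] at hw
        rcases hw with rfl | rfl
        · exact hy
        · exact hv
      · rw [card_pair hne]
        exact uc_card_le H z
    have hv1 : (uc v).card = 1 := by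
      have h1 := uc_card_le H v
      have h0 : (uc v).card ≠ 0 := by
        intro h0
        have hvt' : v < (topOf v : P) := lt_of_le_of_ne (le_topOf v) (by
          intro h2
          have := (topOf v).2
          rw [← h2] at this
          omega)
        obtain ⟨x, hx, -⟩ := Hul.exists_cov hvt'
        have h3 : x ∈ uc v := mem_uc.2 hx
        rw [card_eq_zero.1 h0] at h3
        exact absurd h3 (notMem_empty x)
      have h2 : (uc v).card ≠ 2 := by
        intro h2
        obtain ⟨w, hw, hw'⟩ := NJ.noQ h hj z hz y hy v hv hne hy2 h2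
        have e1 := h.split (mem_uc.1 hw) (by omega)
        have e2 := h.split (mem_uc.1 hw') (by omega)
        exact hvt (by rw [e2, ← e1, hyt])
      omega
    have hS : K2.SD j (topOf : P → Tops P) z y v :=
      ⟨hz, huz, by rw [hyt]; exact fun h => hvt h.symm, hy2, hv1⟩
    have h1 := hsd z y v hS
    unfold cuni at h1
    rw [mem_biUnion] at h1
    obtain ⟨b, -, hb⟩ := h1
    have e1 := mem_cext.1 hb y (mem_uc.1 hy).le (by omega)
    have e2 := mem_cext.1 hb v (mem_uc.1 hv).le (by omega)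
    exact hvt (by rw [e2, ← e1, hyt])
  rw [mem_cext]
  intro w hzw hw
  have hne : z ≠ w := by
    rintro rfl
    omega
  obtain ⟨v, hv, hvw⟩ := Hul.exists_cov (lt_of_le_of_ne hzw hne)
  have h1 := hcov v (mem_uc.2 hv)
  have hlv : lev v ≤ j + 1 := by
    have := lev_cov H hv
    omega
  rw [← h1]
  exact (Split.le h.split v hvw hlv).symm

/-- `F ≥ 0` for all the components -/
theorem CB.F_nonneg (hC : HCCu P) (hFo : HFold P) (hL : HLateF P) (h : CB P r j) (hj : 2 ≤ j)
    (hW : W0 P j) (t : Tops P) : 0 ≤ FF j t := by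
  classical
  have hn := h.nj
  obtain ⟨lo, hi, e, C, hS⟩ := hsh (P := P) r j hn.g
  obtain ⟨m, x, c, β, B⟩ := NJ.rowB hn hj t
  rcases Nat.lt_or_ge m 3 with hm | hm
  · exact NJ.nat_F hn hj (NJ.nat_three hn hj hW B (by omega))
  rcases B.cases hn hm with h1 | ⟨x', c', B', h1⟩
  · exact NJ.nat_F hn hj h1
  clear B x c
  rcases h1 with ⟨c0, c1, hb, h2⟩ | ⟨hb, c0, c1⟩
  · by_cases hcl : (uc (x' 0)).card = 2
    · rcases h2 with h2 | h2
      · rcases Nat.lt_or_ge m 4 with hm4 | hm4
        · obtain rfl : m = 3 := by omega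
          have := NJ.F_dl3_pos hn hj B' hb c0 c1 (h2 2 le_rfl (by omega)) (C t) (hS t) (hW.w t) hcl
          unfold FF
          linarith
        · exact NJ.F_dl hn hj B' hm4 hb c0 c1 h2 (hW.w t) hcl
      · obtain ⟨h7, d2, d3⟩ := hW.six t m x' c' β B' h2
        refine (NJ.pat6_F hn hj (exists_red P j).choose_spec.choose_spec B' h2 h7 d2 d3).1 hcl ?_
        rcases CB.shape hC hFo h hj hW C hS B'.rev hm with ⟨h3, -⟩ | ⟨a, L⟩
        · have := h3 (by
            show c' (m - 1 - 0) = 1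
            rw [Nat.sub_zero]
            exact h2.2.2.2.2.2.1)
          rwa [Nat.sub_zero] at this
        · have := LateC.len hn hj L (C t) B'
          omega
    · rcases CB.shape hC hFo h hj hW C hS B' hm with ⟨h3, -⟩ | ⟨a, L⟩
      · exact absurd (h3 c0) hcl
      · have h4 := LateC.len hn hj L (C t) B'
        have W := NJ.prow hn hj B' (by omega)
        have hop : (uc (x' 0)).card = 1 := (W.uc_le (k := 0) (by omega)).resolve_right hcl
        by_cases hx : m = 3 → UE j (cext (j + 1) (topOf : P → Tops P) t) x' 2 ≠ ∅ ∨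
            (uc (x' 3)).card = 2
        · exact hL r j hj h hW t m x' c' β _ _ _ a B' (C t) L hm (Or.inl ⟨c0, hop, hx⟩)
        · push Not at hx
          obtain ⟨rfl, hx1, hx2⟩ := hx
          have h5 : c' 2 = 0 := by
            rcases h2 with h2 | h2
            · exact h2 2 le_rfl (by omega)
            · have := h2.1
              omega
          have := NJ.F_dl3_open hn hj B' hb c0 c1 h5 (hW.w t)
            ((W.uc_le (k := 3) le_rfl).resolve_right hx2) hx1
          unfold FF
          linarith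
  · rcases Nat.lt_or_ge m 4 with hm4 | hm4
    · obtain rfl : m = 3 := by omega
      exact NJ.F_r3s hn hj B' hb (C t) (hS t) (hW.w t)
    · rcases CB.shape hC hFo h hj hW C hS B' hm with ⟨-, h3⟩ | ⟨a, L⟩
      · exact absurd hb h3
      · exact hL r j hj h hW t m x' c' β _ _ _ a B' (C t) L hm (Or.inr ⟨hb, c0, hm4⟩)

/-- no rotated row -/
theorem CB.no_rot (hC : HCCu P) (hFo : HFold P) (hL0 : HLate0 P) (h : CB P r j) (hj : 2 ≤ j)
    (hZ : Z0 P j) (B : RowB P j t m x c β) (hm : 3 ≤ m) : β ≠ 1 := by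
  classical
  intro hb
  have hn := h.nj
  obtain ⟨lo, hi, e, C, hS⟩ := hsh (P := P) r j hn.g
  rcases B.cases hn hm with h1 | ⟨x', c', B', h1⟩
  · -- natural
    have hne : x 0 ≠ x m := fun q => by
      have := B.row.inj 0 m (by omega) le_rfl q
      omega
    have e1 := B.row.df 0 m (by omega) le_rfl
    have hl0 := B.row.lev_x 0 (by omega)
    have hlm := B.row.lev_x m le_rfl
    rw [if_neg (by omega), if_pos ⟨rfl, rfl⟩, Df_pair hn.g.H hl0 hne,
      h1 (x 0) (x m) hl0 hlm ((RowB.topOf_iff hn hl0).1 (B.row.kap 0 (by omega)))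
        ((RowB.topOf_iff hn hlm).1 (B.row.kap m le_rfl)) hne] at e1
    rw [sub_self, hb] at e1
    norm_num at e1
  rcases h1 with ⟨-, -, hb', -⟩ | ⟨-, c0, c1⟩
  · rw [hb'] at hb
    norm_num at hb
  rcases CB.shape hC hFo h hj hZ.w C hS B' hm with ⟨-, h3⟩ | ⟨a, L⟩
  · exact h3 hb
  · by_cases hx : m = 3 → pen (x' 1) ≠ ∅ ∧ pen (x' 0) = ∅
    · exact hL0 r j hj h hZ t m x' c' β _ _ _ a B' (C t) L hm (Or.inr ⟨hb, c0, hx⟩)
    · rw [Classical.not_imp] at hx
      obtain ⟨rfl, hx⟩ := hx
      have h2 := NJ.F_r3_pos hn hj B' hb c0 (C t) (hS t) (hZ.w.w t) (fun p1 p0 => hx ⟨p1, p0⟩)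
      have h3 := hZ.F t
      unfold FF at h3
      omega

/-- the state `Z1` -/
theorem CB.z1 (hC : HCCu P) (hFo : HFold P) (hL : HLateF P) (hL0 : HLate0 P) (h : CB P r j)
    (hj : 2 ≤ j) (hW : W0 P j) : Z1 P j := by
  have hn := h.nj
  have hZ := NJ.z0 hn hj hW (fun t => CB.F_nonneg hC hFo hL h hj hW t)
  refine ⟨hZ, ?_⟩
  intro z y v S
  by_contra hz
  obtain ⟨m, x, c, β, B, hm, hb, -⟩ := hZ.sd z y v S hz
  exact CB.no_rot hC hFo hL0 h hj hZ B hm hb

/-- no double edge at the end of a row with at least four sites -/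
theorem CB.no_dl (hC : HCCu P) (hFo : HFold P) (hL0 : HLate0 P) (hT : HRT P) (h : CB P r j)
    (hj : 2 ≤ j) (hZ : Z1 P j) (B : RowB P j t m x c β) (hm : 3 ≤ m) : c 0 ≠ 1 := by
  classical
  intro c0
  have hn := h.nj
  obtain ⟨lo, hi, e, C, hS⟩ := hsh (P := P) r j hn.g
  have h2 : c 1 = -1 ∧ β = 0 ∧ ((∀ k, 2 ≤ k → k < m → c k = 0) ∨ Pat6 m c β) := by
    rcases B.pat with ⟨p1, p2⟩ | ⟨-, p1, p2, p3⟩ | ⟨-, p1, p2, p3⟩ | ⟨-, p1, p2, p3, p4⟩ |
      ⟨-, p1, p2, p3, p4⟩ | p1 | ⟨p1, -⟩ | p1
    · have := p2 0 (by omega)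
      omega
    · omega
    · have := p3 0 (by omega)
      omega
    · exact ⟨p3, p1, Or.inl p4⟩
    · have := p4 0 (by omega)
      omega
    · exact ⟨p1.2.2.2.1, p1.2.1, Or.inr p1⟩
    · omega
    · exact (B.not8 p1).elim
  obtain ⟨c1, hb, h2⟩ := h2
  have hF := hZ.F t
  unfold FF at hF
  by_cases hcl : (uc (x 0)).card = 2
  · rcases h2 with h2 | h2
    · rcases Nat.lt_or_ge m 4 with hm4 | hm4
      · obtain rfl : m = 3 := by omega
        have := NJ.F_dl3_pos hn hj B hb c0 c1 (h2 2 le_rfl (by omega)) (C t) (hS t) (hZ.w.w t) hcl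
        omega
      · subst hb
        exact hT r j hj h hZ t m x c B hm4 hcl c0 c1 h2
    · obtain ⟨h7, d2, d3⟩ := hZ.w.six t m x c β B h2
      have h3 := ((NJ.pat6_F hn hj (exists_red P j).choose_spec.choose_spec B h2 h7 d2 d3).2.2
        (in_part hn hj hZ.no_sd t)).2 (Or.inl hcl)
      have h4 : W4.Fv j (cext (j + 1) (topOf : P → Tops P) t) =
        Fn j (cext (j + 1) (topOf : P → Tops P) t) := rfl
      omega
  · rcases CB.shape hC hFo h hj hZ.w C hS B hm with ⟨h3, -⟩ | ⟨a, L⟩
    · exact absurd (h3 c0) hcl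
    · have h4 := LateC.len hn hj L (C t) B
      have W := NJ.prow hn hj B (by omega)
      have hop : (uc (x 0)).card = 1 := (W.uc_le (k := 0) (by omega)).resolve_right hcl
      by_cases hx : m = 3 → UE j (cext (j + 1) (topOf : P → Tops P) t) x 2 ≠ ∅ ∨
          (uc (x 3)).card = 2
      · exact hL0 r j hj h hZ.toZ0 t m x c β _ _ _ a B (C t) L hm (Or.inl ⟨c0, hop, hx⟩)
      · push Not at hx
        obtain ⟨rfl, hx1, hx2⟩ := hx
        have h5 : c 2 = 0 := by
          rcases h2 with h2 | h2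
          · exact h2 2 le_rfl (by omega)
          · have := h2.1
            omega
        have := NJ.F_dl3_open hn hj B hb c0 c1 h5 (hZ.w.w t)
          ((W.uc_le (k := 3) le_rfl).resolve_right hx2) hx1
        omega

/-- `HRow` FROM THE NAMED INPUTS -/
theorem hrow (hC : HCCu P) (h0 : HW0 P) (hFo : HFold P) (hL : HLateF P) (hL0 : HLate0 P)
    (hT : HRT P) : HRow P := by
  intro r i hi1 hB hno t ht
  have h : CB P r (i + 1) := ⟨hB, hno⟩
  have hj : 2 ≤ i + 1 := by omega
  have hZ := CB.z1 hC hFo hL hL0 h hj (h0 r (i + 1) hj h)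
  refine rowOK_of h.nj hj ⟨t, ht⟩ fun m x c β B hm => ?_
  have g1 := CB.no_dl hC hFo hL0 hT h hj hZ B hm
  have g2 := CB.no_dl hC hFo hL0 hT h hj hZ B.rev hm
  have g3 := CB.no_rot hC hFo hL0 h hj hZ.toZ0 B hm
  refine ⟨g1, ?_, fun hb => absurd hb g3, fun hb => absurd hb g3⟩
  have g2' : c (m - 1 - 0) ≠ 1 := g2
  rwa [Nat.sub_zero] at g2'

/-- the element (C) of `FnJ` from `HCCu` -/
theorem hcc5 (hC : HCCu P) : HCC5 P := by
  intro r m hm hB hno lo hi e C hS hT t z S h0 hz1 hz2
  exact hC r m (by omega) ⟨hB, hno⟩ lo hi e C hS t z S h0 hz1 hz2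

/-- THE THEOREM from the inputs which are left -/
theorem distrib_of_inputs4 (hG : IsGaussian P) (hc : (SimpleGraph.hasse P).Connected)
    (h1 : HJoin10 P) (h2 : HS7 P) (hC : HCCu P) (h0 : HW0 P) (hFo : HFold P) (hL : HLateF P)
    (hL0 : HLate0 P) (hT : HRT P) : IsDistribLatticeOrder P :=
  distrib_of_inputs3 hG hc h1 h2 (hcc5 hC) (hrow hC h0 hFo hL hL0 hT)

end Pool.Agent.GaussPoset.EK
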