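import Pool.Agent.W_448fin_h16.FnM
import Pool.Agent.W_448j10_h67.JcD
import Pool.Agent.W_448w6_h53.WeG
import Pool.Agent.W_448cc6_h94.CyE
import Pool.Agent.W_448j6_h22.KaR
import Pool.Agent.W_448s14_h94.SgN

/-!
# Final assembly (MP_448cb3_co): case B, the late rows from one input `HTail`

* `hccu`: the element (C) from `m = 3`;
* `late_pos`: the rows of the late words with a defect have `F > 0`, from the input `HTail`
  (the end of the long chain of a late word has a pendant).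
-/

namespace Pool.Agent.GaussPoset.EK

set_option linter.unusedSectionVars false

open Finset Win St Polynomial Wd Win.W4

universe u

section inputs

variable (P : Type u) [Fintype P] [PartialOrder P] [DecidableEq P]

/-- INPUT (A6): there is no element (C) for `m = 3` -/
def HCC3 : Prop :=
  ∀ r, CB P r (2 * 3) → ∀ (lo hi : Tops P → ℕ → ℕ) (e : Tops P → ℕ → ℕ → P),
    (∀ t : Tops P, Cp.Comp (2 * 3) (t : P) (lo t) (hi t) (e t)) →
    (∀ t : Tops P, Shape (2 * 3) (lo t) (hi t)) →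
    ∀ (t : Tops P) (z : P), StairShape (2 * 3) (lo t) (hi t) → lo t (2 * 3) = 0 →
      z ⋖ e t (2 * 3) 3 → z ⋖ e t (2 * 3) 0 → False

/-- INPUT (near laws of the last level): the end of the long chain of a late word -/
def HTail : Prop :=
  ∀ r j, NJ P r j → 2 ≤ j → ∀ (lo hi : Tops P → ℕ → ℕ) (e : Tops P → ℕ → ℕ → P),
    (∀ t : Tops P, Cp.Comp j (t : P) (lo t) (hi t) (e t)) →
    (∀ t : Tops P, Shape j (lo t) (hi t)) →
    ∀ (t : Tops P) (a : ℕ), LateC j a (lo t) (hi t) →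
      word (lo t) (hi t) a (j - a) ≠ [OC, CO, CO, OO, CO, OO, OC] →
      j ≤ 2 * a ∧ (j + 1 ≤ 2 * a → (pen (e t j (hi t j))).Nonempty)

end inputs

variable {P : Type u} [Fintype P] [PartialOrder P] [DecidableEq P] {r i j : ℕ}

variable {m : ℕ} {x : ℕ → P} {c : ℕ → ℤ} {β : ℤ} {t : Tops P}

/-- no element (C), all `m` -/
theorem hccu (h3 : HCC3 P) : HCCu P := by
  intro r m hm h lo hi e C hS t z S h0 hz1 hz2
  have hcase : m = 3 ∨ m = 4 ∨ m = 5 ∨ m = 6 ∨ m = 7 ∨ m = 8 ∨ 9 ≤ m := by omega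
  rcases hcase with rfl | rfl | rfl | rfl | rfl | rfl | h9
  · exact h3 r h lo hi e C hS t z S h0 hz1 hz2
  · exact (J8.level8 ⟨h.bad.gt, by norm_num, by norm_num, C, hS⟩).2 t z S h0 hz1 hz2
  · exact J10.no_cc_five h.bad.gt C hS h.no S h0 hz1 hz2
  · exact W6.no_cc_six h.bad.gt C hS h.no S h0 hz1 hz2
  · exact Cy.no_cc_seven h.bad.gt C hS h.no S h0 hz1 hz2
  · exact Fi.no_cc_eight h.bad.gt h.bad.lt C hS h.no S h0 hz1 hz2
  · exact GaussPoset.caseB_no_cc_big (Or.inr (by omega)) h.bad.gt C hS h.no S h0 hz1 hz2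

/-- no pendant below an element with two children which are doubles -/
lemma pen_empty (H : Gr P r) {w y y' : P} (hy : y ⋖ w) (hy' : y' ⋖ w) (hne : y ≠ y')
    (h1 : (uc y).card = 2) (h2 : (uc y').card = 2) : pen w = ∅ := by
  rw [eq_empty_iff_forall_notMem]
  intro z hz
  obtain ⟨hz1, hz2⟩ := Win.mem_pen.1 hz
  refine Win.dc_three H hy hy' hz1 hne ?_ ?_
  · rintro rfl
    omega
  · rintro rfl
    omega

/-- a common child of two sites is a double -/
lemma RowB.uc_two (h : NJ P r j) (B : RowB P j t m x c β) {a b : ℕ} (ha : a ≤ m) (hb : b ≤ m)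
    (hab : a ≠ b) {y : P} (h1 : y ⋖ x a) (h2 : y ⋖ x b) : uc y = {x a, x b} :=
  StB_uc_pair h.g.H h1 h2 (fun q => hab (B.row.inj a b ha hb q))

lemma RowB.uc_two' (h : NJ P r j) (B : RowB P j t m x c β) {a b : ℕ} (ha : a ≤ m) (hb : b ≤ m)
    (hab : a ≠ b) {y : P} (h1 : y ⋖ x a) (h2 : y ⋖ x b) : (uc y).card = 2 := by
  rw [B.uc_two h ha hb hab h1 h2, card_pair (fun q => hab (B.row.inj a b ha hb q))]

/-- the number of common children -/
lemma RowB.dcv_eq (h : NJ P r j) (B : RowB P j t m x c β) {a b : ℕ} (hab : a < b) (hb : b ≤ m) :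
    (dcv (x a) (x b) : ℤ) = (if b = a + 1 then 1 + c a else 0) + (if a = 0 ∧ b = m ∧ b ≠ a + 1
      then β else 0) := by
  have H := h.g.H
  have hne : x a ≠ x b := fun q => by
    have := B.row.inj a b (by omega) hb q
    omega
  have e1 := B.row.df a b hab hb
  rw [Df_pair H (B.row.lev_x a (by omega)) hne, B.ucv_x a b hab hb] at e1
  by_cases h1 : b = a + 1
  · rw [if_pos h1, if_pos h1] at e1
    rw [if_pos h1, if_neg (by omega)]
    push_cast at e1
    linarith
  · rw [if_neg h1, if_neg h1] at e1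
    rw [if_neg h1]
    by_cases h2 : a = 0 ∧ b = m
    · rw [if_pos h2] at e1
      rw [if_pos ⟨h2.1, h2.2, h1⟩]
      push_cast at e1
      linarith
    · rw [if_neg h2] at e1
      rw [if_neg (by tauto)]
      push_cast at e1
      linarith

/-- two common children -/
lemma exists_two {v w : P} (h : 2 ≤ (dcv v w : ℤ)) :
    ∃ y y', y ≠ y' ∧ y ⋖ v ∧ y ⋖ w ∧ y' ⋖ v ∧ y' ⋖ w := by
  classical
  have h2 : 1 < dcv v w := by
    have : (2 : ℤ) ≤ (dcv v w : ℤ) := h
    omega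
  unfold dcv at h2
  obtain ⟨y, hy, y', hy', hne⟩ := one_lt_card.1 h2
  rw [mem_filter] at hy hy'
  exact ⟨y, y', hne, hy.2.1, hy.2.2, hy'.2.1, hy'.2.2⟩

/-- no pendant below a site with a double edge -/
lemma RowB.pen_dl (h : NJ P r j) (B : RowB P j t m x c β) {a b : ℕ} (ha : a ≤ m) (hb : b ≤ m)
    (hab : a ≠ b) (h2 : 2 ≤ (dcv (x a) (x b) : ℤ)) : pen (x a) = ∅ := by
  obtain ⟨y, y', hne, h3, h4, h5, h6⟩ := exists_two h2
  exact pen_empty h.g.H h3 h5 hne (B.uc_two' h ha hb hab h3 h4) (B.uc_two' h ha hb hab h5 h6)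

/-- no pendant below a site with two simple edges -/
lemma RowB.pen_two (h : NJ P r j) (B : RowB P j t m x c β) {a b b' : ℕ} (ha : a ≤ m) (hb : b ≤ m)
    (hb' : b' ≤ m) (hab : a ≠ b) (hab' : a ≠ b') (hbb : b ≠ b') (h1 : 1 ≤ (dcv (x a) (x b) : ℤ))
    (h2 : 1 ≤ (dcv (x a) (x b') : ℤ)) : pen (x a) = ∅ := by
  classical
  have hget : ∀ v w : P, 1 ≤ (dcv v w : ℤ) → ∃ y, y ⋖ v ∧ y ⋖ w := by
    intro v w hvw
    have h3 : 0 < dcv v w := by exact_mod_cast hvw
    unfold dcv at h3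
    obtain ⟨y, hy⟩ := card_pos.1 h3
    rw [mem_filter] at hy
    exact ⟨y, hy.2.1, hy.2.2⟩
  obtain ⟨y, h3, h4⟩ := hget _ _ h1
  obtain ⟨y', h5, h6⟩ := hget _ _ h2
  refine pen_empty h.g.H h3 h5 ?_ (B.uc_two' h ha hb hab h3 h4) (B.uc_two' h ha hb' hab' h5 h6)
  rintro rfl
  have e1 := B.uc_two h ha hb hab h3 h4
  have h7 : x b' ∈ uc y := mem_uc.2 h6
  rw [e1, mem_insert, mem_singleton] at h7
  rcases h7 with h7 | h7
  · exact hab' (B.row.inj b' a hb' ha h7).symm
  · exact hbb (B.row.inj b' b hb' hb h7).symm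

/-- the values of the ends for the late words -/
lemma LateC.cases {a : ℕ} {lo hi : ℕ → ℕ} {e : ℕ → ℕ → P} (L : LateC j a lo hi)
    (C : Cp.Comp j (t : P) lo hi e) :
    (j = a + 3 ∧ word lo hi a (j - a) = [OC, OO, OO] ∧ lo j = 0 ∧ hi j = 3 ∧ lo (j - 1) = 0 ∧
      hi (j - 1) = 2 ∧ lo (j - 2) = 0 ∧ hi (j - 2) = 1) ∨
    (j = a + 4 ∧ word lo hi a (j - a) = [OC, OO, CO, OO] ∧ lo j = 1 ∧ hi j = 4 ∧ lo (j - 1) = 1 ∧
      hi (j - 1) = 3 ∧ lo (j - 2) = 0 ∧ hi (j - 2) = 2) ∨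
    (j = a + 6 ∧ word lo hi a (j - a) = [OC, CO, CO, OO, CO, OO] ∧ lo j = 3 ∧ hi j = 6 ∧
      lo (j - 1) = 3 ∧ hi (j - 1) = 5 ∧ lo (j - 2) = 2 ∧ hi (j - 2) = 4) ∨
    (j = a + 7 ∧ word lo hi a (j - a) = [OC, CO, CO, OO, CO, OO, OC] ∧ lo j = 3 ∧ hi j = 6 ∧
      lo (j - 1) = 3 ∧ hi (j - 1) = 6 ∧ lo (j - 2) = 3 ∧ hi (j - 2) = 5 ∧ lo (j - 3) = 2 ∧
      hi (j - 3) = 4) ∨
    (j = a + 7 ∧ word lo hi a (j - a) = [OC, CO, CO, OO, CO, OO, OO] ∧ lo j = 3 ∧ hi j = 7 ∧
      lo (j - 1) = 3 ∧ hi (j - 1) = 6 ∧ lo (j - 2) = 3 ∧ hi (j - 2) = 5 ∧ lo (j - 3) = 2 ∧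
      hi (j - 3) = 4) := by
  have haj := L.haj
  have h0 := L.two
  rcases L.wd with w | w | w | w | w
  all_goals
    obtain ⟨hd, hv⟩ := word_vals w (fun k hk => C.lo_step k (by omega))
      (fun k hk => C.hi_step k (by omega))
    simp only [List.length_cons, List.length_nil] at hd
  · left
    have v0 := hv 0 false false rfl
    have v1 := hv 1 false true rfl
    have v2 := hv 2 false true rfl
    simp only [Bool.false_eq_true, if_false, if_true, add_zero] at v0 v1 v2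
    obtain rfl : j = a + 3 := by omega
    refine ⟨rfl, w, ?_⟩
    simp only [show a + 3 - 1 = a + 1 + 1 by omega, show a + 3 - 2 = a + 1 by omega,
      show a + 3 = a + 2 + 1 by omega, show a + 2 = a + 1 + 1 by omega] at *
    omega
  · right; left
    have v0 := hv 0 false false rfl
    have v1 := hv 1 false true rfl
    have v2 := hv 2 true true rfl
    have v3 := hv 3 false true rfl
    simp only [Bool.false_eq_true, if_false, if_true, add_zero] at v0 v1 v2 v3
    obtain rfl : j = a + 4 := by omega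
    refine ⟨rfl, w, ?_⟩
    simp only [show a + 4 - 1 = a + 2 + 1 by omega, show a + 4 - 2 = a + 1 + 1 by omega,
      show a + 4 = a + 3 + 1 by omega, show a + 3 = a + 2 + 1 by omega,
      show a + 2 = a + 1 + 1 by omega] at *
    omega
  · right; right; left
    have v0 := hv 0 false false rfl
    have v1 := hv 1 true true rfl
    have v2 := hv 2 true true rfl
    have v3 := hv 3 false true rfl
    have v4 := hv 4 true true rfl
    have v5 := hv 5 false true rfl
    simp only [Bool.false_eq_true, if_false, if_true, add_zero] at v0 v1 v2 v3 v4 v5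
    obtain rfl : j = a + 6 := by omega
    refine ⟨rfl, w, ?_⟩
    have u1 : a + 6 - 1 = a + 4 + 1 := by omega
    have u2 : a + 6 - 2 = a + 3 + 1 := by omega
    rw [u1, u2]
    have u3 : a + 1 + 1 = a + 2 := rfl
    have u4 : a + 2 + 1 = a + 3 := rfl
    have u5 : a + 3 + 1 = a + 4 := rfl
    have u6 : a + 4 + 1 = a + 5 := rfl
    have u7 : a + 5 + 1 = a + 6 := rfl
    rw [u3] at v1
    rw [u4] at v2
    rw [u5] at v3 ⊢
    rw [u6] at v4 ⊢
    rw [u7] at v5
    omega
  · right; right; right; left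
    have v0 := hv 0 false false rfl
    have v1 := hv 1 true true rfl
    have v2 := hv 2 true true rfl
    have v3 := hv 3 false true rfl
    have v4 := hv 4 true true rfl
    have v5 := hv 5 false true rfl
    have v6 := hv 6 false false rfl
    simp only [Bool.false_eq_true, if_false, if_true, add_zero] at v0 v1 v2 v3 v4 v5 v6
    obtain rfl : j = a + 7 := by omega
    refine ⟨rfl, w, ?_⟩
    have u1 : a + 7 - 1 = a + 5 + 1 := by omega
    have u2 : a + 7 - 2 = a + 4 + 1 := by omega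
    have u0 : a + 7 - 3 = a + 3 + 1 := by omega
    rw [u1, u2, u0]
    have u3 : a + 1 + 1 = a + 2 := rfl
    have u4 : a + 2 + 1 = a + 3 := rfl
    have u5 : a + 3 + 1 = a + 4 := rfl
    have u6 : a + 4 + 1 = a + 5 := rfl
    have u7 : a + 5 + 1 = a + 6 := rfl
    have u8 : a + 6 + 1 = a + 7 := rfl
    rw [u3] at v1
    rw [u4] at v2
    rw [u5] at v3 ⊢
    rw [u6] at v4 ⊢
    rw [u7] at v5 ⊢
    rw [u8] at v6
    omega
  · right; right; right; right
    have v0 := hv 0 false false rfl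
    have v1 := hv 1 true true rfl
    have v2 := hv 2 true true rfl
    have v3 := hv 3 false true rfl
    have v4 := hv 4 true true rfl
    have v5 := hv 5 false true rfl
    have v6 := hv 6 false true rfl
    simp only [Bool.false_eq_true, if_false, if_true, add_zero] at v0 v1 v2 v3 v4 v5 v6
    obtain rfl : j = a + 7 := by omega
    refine ⟨rfl, w, ?_⟩
    have u1 : a + 7 - 1 = a + 5 + 1 := by omega
    have u2 : a + 7 - 2 = a + 4 + 1 := by omega
    have u0 : a + 7 - 3 = a + 3 + 1 := by omega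
    rw [u1, u2, u0]
    have u3 : a + 1 + 1 = a + 2 := rfl
    have u4 : a + 2 + 1 = a + 3 := rfl
    have u5 : a + 3 + 1 = a + 4 := rfl
    have u6 : a + 4 + 1 = a + 5 := rfl
    have u7 : a + 5 + 1 = a + 6 := rfl
    have u8 : a + 6 + 1 = a + 7 := rfl
    rw [u3] at v1
    rw [u4] at v2
    rw [u5] at v3 ⊢
    rw [u6] at v4 ⊢
    rw [u7] at v5 ⊢
    rw [u8] at v6
    omega

end Pool.Agent.GaussPoset.EK
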