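import Pool.Agent.W_448fin_h16.FnN

/-!
# Final assembly (MP_448cb3_co): case B, the late rows: `late_pos`

The rows of the late words with a defect have `F > 0`, from the input `HTail`.
-/

namespace Pool.Agent.GaussPoset.EK

set_option linter.unusedSectionVars false

open Finset Win St Polynomial Wd Win.W4

universe u

variable {P : Type u} [Fintype P] [PartialOrder P] [DecidableEq P] {r i j : ℕ}

variable {m : ℕ} {x : ℕ → P} {c : ℕ → ℤ} {β : ℤ} {t : Tops P}

/-- the sites of a reversed row -/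
lemma RowB.rev_site {lo hi : ℕ → ℕ} {e : ℕ → ℕ → P} (hlen : hi j = lo j + m)
    (hor : ∀ k, k ≤ m → x k = e j (hi j - k)) {k : ℕ} (hk : k ≤ m) :
    e j (lo j + k) = x (m - k) := by
  rw [hor (m - k) (by omega)]
  congr 1
  omega

/-- the pendants below the second and the third site, letters C, O at the left end -/
lemma s5c_late (h : NJ P r j) (hj3 : 3 ≤ j) {lo hi : ℕ → ℕ} {e : ℕ → ℕ → P}
    (C : Cp.Comp j (t : P) lo hi e) (h1 : lo (j - 2) = lo (j - 3) + 1)
    (h2 : lo (j - 1) = lo (j - 2)) (h3 : lo (j - 1) < hi (j - 1)) (h4 : hi (j - 2) ≠ hi (j - 3)) :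
    pen (e j (lo (j - 1) + 1)) ≠ ∅ ∨ pen (e j (lo (j - 1) + 2)) ≠ ∅ := by
  have hne : ∀ w : P, (pen w).card = 1 → pen w ≠ ∅ := by
    intro w hw h0
    rw [h0, card_empty] at hw
    omega
  have hL : LCO lo hi (j - 1) := by
    refine ⟨by omega, ?_, ?_, h3⟩
    · rw [show j - 1 - 1 = j - 2 by omega, show j - 1 - 2 = j - 3 by omega]
      exact h1
    · rw [show j - 1 - 1 = j - 2 by omega]
      exact h2
  rcases NJ.s5c h (by omega) C with ⟨g1, -⟩ | ⟨-, -, b, hb, hb2⟩ | ⟨g1, -, -⟩
  · exact absurd hL g1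
  · have hbj := hb2 b (by omega) (by omega)
    rw [if_pos rfl, show j - 1 + 1 = j by omega] at hbj
    rcases hb with rfl | ⟨rfl, -⟩
    · exact Or.inl (hne _ hbj)
    · exact Or.inr (hne _ hbj)
  · obtain ⟨-, g2, -⟩ := g1
    rw [show j - 1 - 1 = j - 2 by omega, show j - 1 - 2 = j - 3 by omega] at g2
    exact absurd g2 h4

/-- a late row: the last site of the long chain with a pendant: no new pair there, no double edge -/
lemma RowB.no_end_R (h : NJ P r j) (B : RowB P j t m x c β) (hm : 3 ≤ m) (hβ : β = 1)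
    (c1 : ∀ k, 1 ≤ k → k < m → c k = 0) (hp : pen (x m) ≠ ∅) : False := by
  refine hp (B.pen_two h (b := m - 1) (b' := 0) le_rfl (by omega) (by omega) (by omega) (by omega)
    (by omega) ?_ ?_)
  · rw [StB_dcv_comm, B.dcv_eq h (by omega) le_rfl, if_pos (by omega), if_neg (by omega),
      c1 (m - 1) (by omega) (by omega)]
    norm_num
  · rw [StB_dcv_comm, B.dcv_eq h (by omega) le_rfl, if_neg (by omega), if_pos ⟨rfl, rfl, by omega⟩,
      hβ]
    norm_num

lemma RowB.no_end_D (h : NJ P r j) (B : RowB P j t m x c β) (hm : 3 ≤ m) (c0 : c 0 = 1)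
    (hp : pen (x 0) ≠ ∅) : False := by
  refine hp (B.pen_dl h (b := 1) (by omega) (by omega) (by omega) ?_)
  rw [B.dcv_eq h (by omega) (by omega), if_pos rfl, if_neg (by omega), c0]
  norm_num

/-- an inner site with two simple edges -/
lemma RowB.pen_mid (h : NJ P r j) (B : RowB P j t m x c β) {k : ℕ} (k0 : 1 ≤ k) (k1 : k < m)
    (h1 : c (k - 1) = 0) (h2 : c k = 0) : pen (x k) = ∅ := by
  refine B.pen_two h (b := k - 1) (b' := k + 1) (by omega) (by omega) (by omega) (by omega)
    (by omega) (by omega) ?_ ?_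
  · rw [StB_dcv_comm, B.dcv_eq h (by omega) (by omega), if_pos (by omega), if_neg (by omega), h1]
    norm_num
  · rw [B.dcv_eq h (by omega) (by omega), if_pos (by omega), if_neg (by omega), h2]
    norm_num

/-- the double edge at the beginning: no pendant below the second site -/
lemma RowB.pen_second (h : NJ P r j) (B : RowB P j t m x c β) (hm : 3 ≤ m) (c0 : c 0 = 1) :
    pen (x 1) = ∅ := by
  refine B.pen_dl h (b := 0) (by omega) (by omega) (by omega) ?_
  rw [StB_dcv_comm, B.dcv_eq h (by omega) (by omega), if_pos rfl, if_neg (by omega), c0]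
  norm_num

/-- the new pair -/
lemma RowB.new_pair (h : NJ P r j) (B : RowB P j t m x c β) (hm : 3 ≤ m) (hβ : β = 1) :
    ∃ z, z ⋖ x 0 ∧ z ⋖ x m := by
  obtain ⟨z, -, -, h3, h4⟩ := B.low h (a := 0) (b := m) (by omega) le_rfl (by
    rw [B.dcv_eq h (by omega) le_rfl, if_neg (by omega), if_pos ⟨rfl, rfl, by omega⟩, hβ]
    norm_num)
  exact ⟨z, h3, h4⟩

/-- the normal forms of the defects of a late row -/
def Dft (m : ℕ) (c : ℕ → ℤ) (β : ℤ) : Prop :=
  (c 0 = 1 ∧ c 1 = -1 ∧ β = 0 ∧ ∀ k, 2 ≤ k → k < m → c k = 0) ∨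
    (β = 1 ∧ c 0 = -1 ∧ ∀ k, 1 ≤ k → k < m → c k = 0)

/-- five sites: only the new pair with the lost edge at the short end -/
lemma late_five (h : NJ P r j) (hj : 2 ≤ j) {lo hi : ℕ → ℕ} {e : ℕ → ℕ → P}
    (C : Cp.Comp j (t : P) lo hi e) (B : RowB P j t 4 x c β) (hd : Dft 4 c β)
    (hlen : hi j = lo j + 4)
    (hor : (∀ k, k ≤ 4 → x k = e j (lo j + k)) ∨ (∀ k, k ≤ 4 → x k = e j (hi j - k)))
    (q : pen (e j (lo j + 1)) ≠ ∅ ∨ pen (e j (lo j + 2)) ≠ ∅) :
    β = 1 ∧ ∀ k, k ≤ 4 → x k = e j (lo j + k) := by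
  rcases hor with hor | hor
  · rw [← hor 1 (by omega), ← hor 2 (by omega)] at q
    rcases hd with ⟨c0, -, -, -⟩ | ⟨b1, -, -⟩
    · rcases q with q | q
      · exact absurd (B.pen_second h (by omega) c0) q
      · exact absurd (B.pen0 2 le_rfl le_rfl) q
    · exact ⟨b1, hor⟩
  · rw [RowB.rev_site hlen hor (k := 1) (by omega), RowB.rev_site hlen hor (k := 2) (by omega)] at q
    exfalso
    have h3 : c 2 = 0 ∧ c 3 = 0 := by
      rcases hd with ⟨-, -, -, h1⟩ | ⟨-, -, h1⟩
      · exact ⟨h1 2 le_rfl (by omega), h1 3 (by omega) (by omega)⟩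
      · exact ⟨h1 2 (by omega) (by omega), h1 3 (by omega) (by omega)⟩
    rcases q with q | q
    · exact q (B.pen_mid h (k := 3) (by omega) (by omega) h3.1 h3.2)
    · exact q (B.pen0 2 le_rfl le_rfl)

/-- THE LATE ROWS: `F > 0` -/
theorem late_pos (hT : HTail P) (h : CB P r j) (hj : 2 ≤ j)
    {lo hi : Tops P → ℕ → ℕ} {e : Tops P → ℕ → ℕ → P}
    (C : ∀ t : Tops P, Cp.Comp j (t : P) (lo t) (hi t) (e t))
    (hS : ∀ t : Tops P, Shape j (lo t) (hi t)) (B : RowB P j t m x c β) (hm : 3 ≤ m) {a : ℕ}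
    (L : LateC j a (lo t) (hi t)) (hw : v3 j t = 0) (hd : Dft m c β) : 2 ≤ FF j t := by
  classical
  have hn := h.nj
  have H := hn.g.H
  obtain ⟨hlen, hor⟩ := B.orient hn hj (C t)
  have Ct := C t
  have ha := L.ha
  -- the closure of the sites
  have sing : ∀ s, lo t j ≤ s → s ≤ hi t j → ((uc (e t j s)).card = 1 ↔
      s = lo t (j - 1) ∨ s = hi t (j - 1) + 1) := by
    intro s s1 s2
    have h1 := Ct.single_up H hn.g.good t.2 (k := j - 1) (s := s) (by omega)
      (by rw [show j - 1 + 1 = j by omega]; exact s1) (by rw [show j - 1 + 1 = j by omega]; exact s2)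
    rwa [show j - 1 + 1 = j by omega] at h1
  -- four sites, double edge at the short end
  have openD : m = 3 → c 0 = 1 → c 1 = -1 → β = 0 → (∀ k, 2 ≤ k → k < m → c k = 0) →
      (uc (x 3)).card = 1 →
      ((∀ k, k ≤ 3 → x k = e t j (lo t j + k)) → hi t (j - 1) ≠ hi t (j - 2)) →
      ((∀ k, k ≤ 3 → x k = e t j (hi t j - k)) → lo t (j - 1) ≠ lo t (j - 2) + 1) →
      2 ≤ FF j t := by
    intro hm3 c0 c1 b0 c2 h3 hf hb
    subst hm3
    refine NJ.F_dl3_open hn hj B b0 c0 c1 (c2 2 le_rfl (by omega)) hw h3 ?_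
    by_contra hU
    obtain ⟨z, hz⟩ := nonempty_iff_ne_empty.2 hU
    obtain ⟨-, -, hor'⟩ := NJ.letters hn hj B Ct (n := j - 2) (by omega) hz
    rw [show j - 2 + 1 = j - 1 by omega] at hor'
    rcases hor' with ⟨q1, q2, -⟩ | ⟨q1, q2, -⟩
    · exact hf q1 q2
    · exact hb q1 q2
  -- the tail
  have tail := hT r j hn hj lo hi e C hS t a L
  rcases L.cases Ct with ⟨ja, w, l0, h0, l1, h1, l2, h2⟩ | ⟨ja, w, l0, h0, l1, h1, l2, h2⟩ |
    ⟨ja, w, l0, h0, l1, h1, l2, h2⟩ | ⟨ja, w, l0, h0, l1, h1, l2, h2, l3, h3⟩ |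
    ⟨ja, w, l0, h0, l1, h1, l2, h2, l3, h3⟩
  · -- OC OO OO
    obtain rfl : m = 3 := by omega
    obtain ⟨t1, t2⟩ := tail (by rw [w]; decide)
    have s0 := (sing (lo t j) le_rfl (by omega)).2 (Or.inl (by omega))
    have s3 := (sing (hi t j) (by omega) le_rfl).2 (Or.inr (by omega))
    by_cases ht : j + 1 ≤ 2 * a
    · have hp := nonempty_iff_ne_empty.1 (t2 ht)
      rcases hor with hor | hor
      · have e3 : x 3 = e t j (hi t j) := by rw [hor 3 le_rfl, hlen]
        rcases hd with ⟨c0, c1, b0, c2⟩ | ⟨b1, c0, c1⟩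
        · exact openD rfl c0 c1 b0 c2 (by rw [e3]; exact s3) (fun _ => by omega)
            (fun _ => by omega)
        · exact (B.no_end_R hn hm b1 c1 (by rw [e3]; exact hp)).elim
      · have e0 : x 0 = e t j (hi t j) := by rw [hor 0 (by omega), Nat.sub_zero]
        rcases hd with ⟨c0, c1, b0, c2⟩ | ⟨b1, c0, c1⟩
        · exact (B.no_end_D hn hm c0 (by rw [e0]; exact hp)).elim
        · exact NJ.F_r3_pos hn hj B b1 c0 Ct (hS t) hw (fun _ => by rw [e0]; exact hp)
    · obtain rfl : a = 3 := by omega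
      obtain rfl : j = 6 := by omega
      rcases hd with ⟨c0, c1, b0, c2⟩ | ⟨b1, c0, c1⟩
      · refine openD rfl c0 c1 b0 c2 ?_ (fun _ => by omega) (fun _ => by omega)
        rcases hor with hor | hor
        · rw [hor 3 le_rfl, ← hlen]
          exact s3
        · rw [hor 3 le_rfl, show hi t 6 - 3 = lo t 6 by omega]
          exact s0
      · exfalso
        obtain ⟨z, z0, z3⟩ := B.new_pair hn hm b1
        have hzl := lev_cov H z0
        have hx0 := B.row.lev_x 0 (by omega)
        have hzt : z ≤ (t : P) := by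
          refine z0.le.trans ?_
          rw [← B.row.kap 0 (by omega)]
          exact le_topOf (x 0)
        rcases J6.late6 hn C hS t (L.one 2 (by omega)).2
          (by have := L.two; omega) with ⟨-, g⟩ | ⟨-, -, g, -⟩
        · exact g z hzt (by omega)
        · rcases hor with hor | hor
          · rw [hor 0 (by omega), l0] at z0
            rw [hor 3 le_rfl, l0] at z3
            exact g l0 z z0 z3
          · rw [hor 0 (by omega), h0] at z0
            rw [hor 3 le_rfl, h0] at z3
            exact g l0 z z3 z0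
  · -- OC OO CO OO
    obtain rfl : m = 3 := by omega
    obtain ⟨t1, t2⟩ := tail (by rw [w]; decide)
    have s3 := (sing (hi t j) (by omega) le_rfl).2 (Or.inr (by omega))
    by_cases ht : j + 1 ≤ 2 * a
    · have hp := nonempty_iff_ne_empty.1 (t2 ht)
      rcases hor with hor | hor
      · have e3 : x 3 = e t j (hi t j) := by rw [hor 3 le_rfl, hlen]
        rcases hd with ⟨c0, c1, b0, c2⟩ | ⟨b1, c0, c1⟩
        · refine openD rfl c0 c1 b0 c2 (by rw [e3]; exact s3) (fun _ => by omega) (fun hor' => ?_)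
          exfalso
          have g1 := hor 0 (by omega)
          rw [hor' 0 (by omega)] at g1
          have := Ct.inj j _ _ le_rfl (by omega) (by omega) (by omega) (by omega) g1
          omega
        · exact (B.no_end_R hn hm b1 c1 (by rw [e3]; exact hp)).elim
      · have e0 : x 0 = e t j (hi t j) := by rw [hor 0 (by omega), Nat.sub_zero]
        rcases hd with ⟨c0, c1, b0, c2⟩ | ⟨b1, c0, c1⟩
        · exact (B.no_end_D hn hm c0 (by rw [e0]; exact hp)).elim
        · exact NJ.F_r3_pos hn hj B b1 c0 Ct (hS t) hw (fun _ => by rw [e0]; exact hp)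
    · exfalso
      obtain rfl : a = 4 := by omega
      obtain rfl : j = 8 := by omega
      refine (J8.level8 ⟨h.bad.gt, by norm_num, by norm_num, C, hS⟩).1 t ⟨L.one, L.two, ?_⟩
      rw [w]
      rfl
  · -- OC CO CO OO CO OO
    obtain rfl : m = 3 := by omega
    obtain ⟨t1, t2⟩ := tail (by rw [w]; decide)
    have s3 := (sing (hi t j) (by omega) le_rfl).2 (Or.inr (by omega))
    have fD : (∀ k, k ≤ 3 → x k = e t j (lo t j + k)) → c 0 = 1 → c 1 = -1 → β = 0 →
        (∀ k, 2 ≤ k → k < 3 → c k = 0) → 2 ≤ FF j t := by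
      intro hor c0 c1 b0 c2
      have e3 : x 3 = e t j (hi t j) := by rw [hor 3 le_rfl, hlen]
      refine openD rfl c0 c1 b0 c2 (by rw [e3]; exact s3) (fun _ => by omega) (fun hor' => ?_)
      exfalso
      have g1 := hor 0 (by omega)
      rw [hor' 0 (by omega)] at g1
      have := Ct.inj j _ _ le_rfl (by omega) (by omega) (by omega) (by omega) g1
      omega
    by_cases ht : j + 1 ≤ 2 * a
    · have hp := nonempty_iff_ne_empty.1 (t2 ht)
      rcases hor with hor | hor
      · have e3 : x 3 = e t j (hi t j) := by rw [hor 3 le_rfl, hlen]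
        rcases hd with ⟨c0, c1, b0, c2⟩ | ⟨b1, c0, c1⟩
        · exact fD hor c0 c1 b0 c2
        · exact (B.no_end_R hn hm b1 c1 (by rw [e3]; exact hp)).elim
      · have e0 : x 0 = e t j (hi t j) := by rw [hor 0 (by omega), Nat.sub_zero]
        rcases hd with ⟨c0, c1, b0, c2⟩ | ⟨b1, c0, c1⟩
        · exact (B.no_end_D hn hm c0 (by rw [e0]; exact hp)).elim
        · exact NJ.F_r3_pos hn hj B b1 c0 Ct (hS t) hw (fun _ => by rw [e0]; exact hp)
    · obtain rfl : a = 6 := by omega
      obtain rfl : j = 12 := by omega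
      obtain ⟨-, k2, k3, -⟩ := W6.caseB h.bad.gt C hS h.no
      have D : Cl.WordD 12 6 Cl.wa6 (lo t) (hi t) := ⟨L.one, L.two, by rw [w]; rfl⟩
      rcases hd with ⟨c0, c1, b0, c2⟩ | ⟨b1, c0, c1⟩
      · rcases hor with hor | hor
        · exact fD hor c0 c1 b0 c2
        · exfalso
          obtain ⟨y, y', hne, g1, g2, g3, g4⟩ := exists_two (v := x 0) (w := x 1) (by
            rw [B.dcv_eq hn (by omega) (by omega), if_pos rfl, if_neg (by omega), c0]
            norm_num)
          rw [hor 0 (by omega), h0] at g1 g3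
          rw [hor 1 (by omega), h0] at g2 g4
          exact k3 t y y' D hne g1 g2 g3 g4
      · exfalso
        obtain ⟨z, z0, z3⟩ := B.new_pair hn hm b1
        rcases hor with hor | hor
        · rw [hor 0 (by omega), l0] at z0
          rw [hor 3 le_rfl, l0] at z3
          exact k2 t z D z3 z0
        · rw [hor 0 (by omega), h0] at z0
          rw [hor 3 le_rfl, h0] at z3
          exact k2 t z D z0 z3
  · -- OC CO CO OO CO OO OC
    obtain rfl : m = 3 := by omega
    have q := s5c_late hn (by omega) Ct (by omega) (by omega) (by omega) (by omega)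
    rw [show lo t (j - 1) = lo t j by omega] at q
    have hp2 : pen (e t j (lo t j + 2)) = ∅ := by
      have g := NJ.pen_three hn (i := j - 2) (by omega) (by omega) Ct (a := lo t j + 2) (by omega)
        (by omega)
      rwa [show j - 2 + 2 = j by omega] at g
    have hcl : (uc (e t j (hi t j))).card ≠ 1 := by
      intro g
      have := (sing (hi t j) (by omega) le_rfl).1 g
      omega
    rcases hd with ⟨c0, c1, b0, c2⟩ | ⟨b1, c0, c1⟩
    · rcases hor with hor | hor
      · exfalso
        rcases q with q | q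
        · rw [← hor 1 (by omega)] at q
          exact q (B.pen_second hn hm c0)
        · exact q hp2
      · have W := NJ.prow hn hj B (by omega)
        have e0 : x 0 = e t j (hi t j) := by rw [hor 0 (by omega), Nat.sub_zero]
        exact NJ.F_dl3_pos hn hj B b0 c0 c1 (c2 2 le_rfl (by omega)) Ct (hS t) hw
          ((W.uc_le (k := 0) (by omega)).resolve_left (by rw [e0]; exact hcl))
    · exfalso
      obtain ⟨f1, f2⟩ := B.ends (by rw [b1]; norm_num)
      rcases hor with hor | hor
      · rw [hor 3 le_rfl, ← hlen] at f2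
        exact hcl f2
      · rw [hor 0 (by omega), Nat.sub_zero] at f1
        exact hcl f1
  · -- OC CO CO OO CO OO OO
    exfalso
    obtain rfl : m = 4 := by omega
    obtain ⟨t1, t2⟩ := tail (by rw [w]; decide)
    have q := s5c_late hn (by omega) Ct (by omega) (by omega) (by omega) (by omega)
    rw [show lo t (j - 1) = lo t j by omega] at q
    obtain ⟨b1, hor'⟩ := late_five hn hj Ct B hd hlen hor q
    by_cases ht : j + 1 ≤ 2 * a
    · have hp := nonempty_iff_ne_empty.1 (t2 ht)
      rcases hd with ⟨c0, c1, b0, c2⟩ | ⟨-, c0, c1⟩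
      · rw [b0] at b1
        norm_num at b1
      · refine B.no_end_R hn hm b1 c1 ?_
        rw [hor' 4 le_rfl, ← hlen]
        exact hp
    · obtain rfl : a = 7 := by omega
      obtain rfl : j = 14 := by omega
      obtain ⟨z, z0, z3⟩ := B.new_pair hn hm b1
      have D : Cl.WordD 14 7 Cl.wa7 (lo t) (hi t) := ⟨L.one, L.two, by rw [w]; rfl⟩
      rw [hor' 0 (by omega), l0] at z0
      rw [hor' 4 le_rfl, l0] at z3
      exact Sg.no_ends h.bad.gt h.no C hS t D z z3 z0

end Pool.Agent.GaussPoset.EK
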