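import Pool.Agent.W_448fin_h16.FnO
import Pool.Agent.W_448w8_h94.GxC

/-!
# Final assembly (MP_448cb3_co): case B, `HRow` in the form of the window `j - 1` route

`HRow` from
* `HCCu` : no element (C);
* `HWin1` : the output of the window `j - 1`: all the values (3,2) vanish, no closed [DL] with at
  least five sites, no [DL] at a fold end;
* `HTail` : the near law at the end of the long chain of a late word.
-/

namespace Pool.Agent.GaussPoset.EK

set_option linter.unusedSectionVars false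

open Finset Win St Polynomial Wd Win.W4

universe u

section defs

variable (P : Type u) [Fintype P] [PartialOrder P] [DecidableEq P]

/-- no closed [DL] with at least five sites -/
def ClosedOK (j : ℕ) : Prop :=
  ∀ (t : Tops P) (m : ℕ) (x : ℕ → P) (c : ℕ → ℤ) (β : ℤ), RowB P j t m x c β → 4 ≤ m →
    c 0 = 1 → (uc (x 0)).card = 2 → False

/-- no [DL] at a fold end -/
def FoldOK (j : ℕ) : Prop :=
  ∀ (t : Tops P) (m : ℕ) (x : ℕ → P) (c : ℕ → ℤ) (β : ℤ) (lo hi : ℕ → ℕ) (e : ℕ → ℕ → P),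
    RowB P j t m x c β → Cp.Comp j (t : P) lo hi e → StairShape j lo hi → j % 2 = 0 → 3 ≤ m →
    x 0 = e j (j / 2) → c 0 = 1 → False

/-- INPUT: the output of the window `j - 1` -/
def HWin1 : Prop :=
  ∀ r j, 2 ≤ j → CB P r j → (∀ t : Tops P, v3 j t = 0) ∧ ClosedOK P j ∧ FoldOK P j

end defs

variable {P : Type u} [Fintype P] [PartialOrder P] [DecidableEq P] {r i j : ℕ}

variable {m : ℕ} {x : ℕ → P} {c : ℕ → ℤ} {β : ℤ} {t : Tops P}

/-- the shape of a component with a defect: closed at the double edge, or late -/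
theorem CB.shape1 (hC : HCCu P) (hFo : FoldOK P j) (h : CB P r j) (hj : 2 ≤ j)
    {lo hi : Tops P → ℕ → ℕ} {e : Tops P → ℕ → ℕ → P}
    (C : ∀ t : Tops P, Cp.Comp j (t : P) (lo t) (hi t) (e t))
    (hS : ∀ t : Tops P, Shape j (lo t) (hi t)) (B : RowB P j t m x c β) (hm : 3 ≤ m) :
    ((c 0 = 1 → (uc (x 0)).card = 2) ∧ β ≠ 1) ∨ ∃ a, LateC j a (lo t) (hi t) := by
  classical
  have hn := h.nj
  have H := hn.g.H
  have hdf := B.row.df
  -- the double edge
  have hdd : c 0 = 1 → dcv (x 0) (x 1) = 2 := by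
    intro h0
    have e1 := B.dcv_eq hn (a := 0) (b := 1) (by omega) (by omega)
    rw [if_pos rfl, if_neg (by omega), h0] at e1
    have : (dcv (x 0) (x 1) : ℤ) = 2 := by linarith
    exact_mod_cast this
  -- the new pair
  have hnew : β = 1 → ∃ y, lev y = j + 1 ∧ y ≤ (t : P) ∧ y ⋖ x 0 ∧ y ⋖ x m := by
    intro h1
    refine B.low hn (by omega) le_rfl ?_
    rw [B.dcv_eq hn (by omega) le_rfl, if_neg (by omega), if_pos ⟨rfl, rfl, by omega⟩, h1]
    norm_num
  have hone : (uc (x 0)).card ≠ 2 → (uc (x 0)).card = 1 := by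
    intro h2
    have W := NJ.prow hn hj B (by omega)
    rcases W.uc_le (k := 0) (by omega) with h1 | h1
    · exact h1
    · exact absurd h1 h2
  have hx0t : x 0 ≤ (t : P) := by
    rw [← B.row.kap 0 (by omega)]
    exact le_topOf (x 0)
  have hxmt : x m ≤ (t : P) := by
    rw [← B.row.kap m le_rfl]
    exact le_topOf (x m)
  have hx0 := B.row.lev_x 0 (by omega)
  have hxm := B.row.lev_x m le_rfl
  obtain ⟨hlen, hor⟩ := B.orient hn hj (C t)
  rcases hS t with g1 | ⟨g1, S'⟩ | ⟨g1, S⟩ | ⟨g1, g2, g3⟩ | ⟨g1, g2⟩ | ⟨a, g0, g1, g2, g3, hN, g4⟩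
  · exfalso
    have := g1 j le_rfl
    omega
  · -- rectangle
    left
    refine ⟨fun h0 => ?_, fun h1 => ?_⟩
    · by_contra h2
      have h3 := NJ_rect_S_end hn hj C hS (t := t) (x := x 0) (x' := x 1) (by omega) hx0 hx0t
        (hone h2) (fun q => by
          have := B.row.inj 0 1 (by omega) (by omega) q
          omega)
      rw [hdd h0] at h3
      omega
    · obtain ⟨y, hy1, hy2, hy3, hy4⟩ := hnew h1
      have h3 := rect_no_rotation hn.g hj hn.no C (NJ_level_one hn (by omega) C hS) (t := t)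
        (z := y) (x := x 0) (x' := x m) (by omega) hy1 hy2 hy3 hy4 (fun q => by
          have := B.row.inj 0 m (by omega) le_rfl q
          omega)
      rw [B.ucv_x 0 m (by omega) le_rfl, if_neg (by omega)] at h3
      omega
  · -- stair
    left
    have hhj := S.hi j le_rfl
    have hj6 : 6 ≤ j := by omega
    have hcc : ∀ z : P, lo t j = 0 → j % 2 = 0 → z ⋖ e t j (j / 2) → z ⋖ e t j 0 → False := by
      intro z z0 z1 z2 z3
      obtain ⟨n, rfl⟩ : ∃ n, j = 2 * n := ⟨j / 2, by omega⟩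
      rw [show 2 * n / 2 = n by omega] at z2
      exact hC r n (by omega) h lo hi e C hS t z S z0 z2 z3
    have hNo : NoCC j lo hi e := by
      intro _ t' z S' z0 z1 z2 z3
      obtain ⟨n, rfl⟩ : ∃ n, j = 2 * n := ⟨j / 2, by omega⟩
      rw [show 2 * n / 2 = n by omega] at z2
      exact hC r n (by omega) h lo hi e C hS t' z S' z0 z2 z3
    refine ⟨fun h0 => ?_, fun h1 => ?_⟩
    · by_contra h2
      rcases sd_single hn.g hj6 (C t) S hx0 hx0t (hone h2) with ⟨a1, a2⟩ | ⟨a1, a2⟩
      · have hu := B.ucv_x 0 1 (by omega) (by omega)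
        rw [if_pos rfl] at hu
        have hd := hdd h0
        have hne : x 1 ≠ x 0 := fun q => by
          have := B.row.inj 1 0 (by omega) (by omega) q
          omega
        rw [a2] at hu hd hne
        have h3 := NJ_stair_S_end hn hj6 C hS hNo S a1 hne hu
        omega
      · exact hFo t m x c β (lo t) (hi t) (e t) B (C t) S a1 hm a2 h0
    · obtain ⟨y, hy1, hy2, hy3, hy4⟩ := hnew h1
      have hne : x 0 ≠ x m := fun q => by
        have := B.row.inj 0 m (by omega) le_rfl q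
        omega
      obtain ⟨f1, f2⟩ := B.ends (by rw [h1]; norm_num)
      rcases sd_single hn.g hj6 (C t) S hx0 hx0t f1 with ⟨a1, a2⟩ | ⟨a1, a2⟩ <;>
        rcases sd_single hn.g hj6 (C t) S hxm hxmt f2 with ⟨b1, b2⟩ | ⟨b1, b2⟩
      · exact hne (a2.trans b2.symm)
      · exact hcc y a1 b1 (by rw [← b2]; exact hy4) (by rw [← a2]; exact hy3)
      · exact hcc y b1 a1 (by rw [← a2]; exact hy3) (by rw [← b2]; exact hy4)
      · exact hne (a2.trans b2.symm)
  · exfalso
    subst g1
    omega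
  · subst g1
    exact absurd g2 (NJ_no_six hn C hS t)
  · right
    have Ct := C t
    refine ⟨a, g0, g1, g2, g3, ?_⟩
    have hstep : ∀ k, k < a + (j - a) → lo t k ≤ lo t (k + 1) ∧ lo t (k + 1) ≤ lo t k + 1 := by
      intro k hk
      have := Ct.lo_step k (by omega)
      omega
    have hstep' : ∀ k, k < a + (j - a) → hi t k ≤ hi t (k + 1) ∧ hi t (k + 1) ≤ hi t k + 1 := by
      intro k hk
      have := Ct.hi_step k (by omega)
      omega
    exact late_wide g3 hstep hstep' g4 (by rw [show a + (j - a) = j by omega]; omega)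

/-- the pattern with two double edges does not occur -/
theorem CB.no_pat6 (hC : HCCu P) (hcl : ClosedOK P j) (hFo : FoldOK P j) (h : CB P r j)
    (hj : 2 ≤ j) (B : RowB P j t m x c β) (hp : Pat6 m c β) : False := by
  have hn := h.nj
  obtain ⟨lo, hi, e, C, hS⟩ := hsh (P := P) r j hn.g
  have h5 := hp.1
  rcases CB.shape1 hC hFo h hj C hS B (by omega) with ⟨h3, -⟩ | ⟨a, L⟩
  · exact hcl t m x c β B (by omega) hp.2.2.1 (h3 hp.2.2.1)
  · have := LateC.len hn hj L (C t) B
    omega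

/-- (2a) -/
theorem CB.w0 (hC : HCCu P) (hv : ∀ t : Tops P, v3 j t = 0) (hcl : ClosedOK P j)
    (hFo : FoldOK P j) (h : CB P r j) (hj : 2 ≤ j) : W0 P j :=
  ⟨hv, fun _ _ _ _ _ B hp => (CB.no_pat6 hC hcl hFo h hj B hp).elim⟩

/-- every component is natural or has `F > 0` -/
theorem CB.nat_or (hC : HCCu P) (hT : HTail P) (hv : ∀ t : Tops P, v3 j t = 0)
    (hcl : ClosedOK P j) (hFo : FoldOK P j) (h : CB P r j) (hj : 2 ≤ j) (t : Tops P) :
    NatT j (t : P) ∨ 2 ≤ FF j t := by
  classical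
  have hn := h.nj
  have hW := CB.w0 hC hv hcl hFo h hj
  obtain ⟨lo, hi, e, C, hS⟩ := hsh (P := P) r j hn.g
  obtain ⟨m, x, c, β, B⟩ := NJ.rowB hn hj t
  rcases Nat.lt_or_ge m 3 with hm | hm
  · exact Or.inl (NJ.nat_three hn hj hW B (by omega))
  rcases B.cases hn hm with h1 | ⟨x', c', B', h1⟩
  · exact Or.inl h1
  right
  have hd : Dft m c' β := by
    rcases h1 with ⟨c0, c1, hb, h2 | h2⟩ | ⟨hb, c0, c1⟩
    · exact Or.inl ⟨c0, c1, hb, h2⟩
    · exact (CB.no_pat6 hC hcl hFo h hj B' h2).elim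
    · exact Or.inr ⟨hb, c0, c1⟩
  rcases CB.shape1 hC hFo h hj C hS B' hm with ⟨g1, g2⟩ | ⟨a, L⟩
  · rcases hd with ⟨c0, c1, hb, h2⟩ | ⟨hb, -⟩
    · rcases Nat.lt_or_ge m 4 with hm4 | hm4
      · obtain rfl : m = 3 := by omega
        exact NJ.F_dl3_pos hn hj B' hb c0 c1 (h2 2 le_rfl (by omega)) (C t) (hS t) (hv t) (g1 c0)
      · exact (hcl t m x' c' β B' hm4 c0 (g1 c0)).elim
    · exact absurd hb g2
  · exact late_pos hT h hj C hS B' hm L (hv t) hd

/-- ALL THE COMPONENTS ARE NATURAL -/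
theorem CB.all_nat (hC : HCCu P) (hW : HWin1 P) (hT : HTail P) (h : CB P r j) (hj : 2 ≤ j)
    (t : Tops P) : NatT j (t : P) := by
  have hn := h.nj
  obtain ⟨hv, hcl, hFo⟩ := hW r j hj h
  have hW0 := CB.w0 hC hv hcl hFo h hj
  have hZ := NJ.z0 hn hj hW0 (fun t => by
    rcases CB.nat_or hC hT hv hcl hFo h hj t with h1 | h1
    · exact NJ.nat_F hn hj h1
    · omega)
  rcases CB.nat_or hC hT hv hcl hFo h hj t with h1 | h1
  · exact h1
  · have := hZ.F t
    omega

/-- the defects of a natural component vanish -/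
lemma RowB.nat_zero (h : NJ P r j) (B : RowB P j t m x c β) (hN : NatT j (t : P)) :
    (∀ k, k < m → c k = 0) ∧ (2 ≤ m → β = 0) := by
  have H := h.g.H
  have key : ∀ a b, a < b → b ≤ m → (dcv (x a) (x b) : ℤ) = ucv (x a) (x b) := by
    intro a b hab hb
    have hne : x a ≠ x b := fun q => by
      have := B.row.inj a b (by omega) hb q
      omega
    have ha := B.row.lev_x a (by omega)
    have hbl := B.row.lev_x b hb
    have := hN (x a) (x b) ha hbl ((RowB.topOf_iff h ha).1 (B.row.kap a (by omega)))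
      ((RowB.topOf_iff h hbl).1 (B.row.kap b hb)) hne
    exact_mod_cast this.symm
  constructor
  · intro k hk
    have e1 := key k (k + 1) (by omega) (by omega)
    rw [B.dcv_eq h (by omega) (by omega), B.ucv_x k (k + 1) (by omega) (by omega), if_pos rfl,
      if_neg (by omega), if_pos rfl] at e1
    push_cast at e1
    linarith
  · intro hm
    have e1 := key 0 m (by omega) le_rfl
    rw [B.dcv_eq h (by omega) le_rfl, B.ucv_x 0 m (by omega) le_rfl, if_neg (by omega),
      if_pos ⟨rfl, rfl, by omega⟩, if_neg (by omega)] at e1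
    push_cast at e1
    linarith

/-- `HRow` FROM THE WINDOW `j - 1` -/
theorem hrow1 (hC : HCCu P) (hW : HWin1 P) (hT : HTail P) : HRow P := by
  intro r i hi1 hB hno t ht
  have h : CB P r (i + 1) := ⟨hB, hno⟩
  have hj : 2 ≤ i + 1 := by omega
  refine rowOK_of h.nj hj ⟨t, ht⟩ fun m x c β B hm => ?_
  obtain ⟨g1, g2⟩ := B.nat_zero h.nj (CB.all_nat hC hW hT h hj ⟨t, ht⟩)
  have g3 := g1 0 (by omega)
  have g4 := g1 (m - 1) (by omega)
  have g5 := g2 (by omega)
  refine ⟨by omega, by omega, fun hb => ?_, fun hb => ?_⟩ <;>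
    (rw [g5] at hb; norm_num at hb)

/-- step A for `j = 16` -/
theorem hs7 : HS7 P := by
  intro r hB
  obtain ⟨lo, hi, e, C, hS⟩ := hsh (P := P) r 16 hB.gt
  exact Fi.s7f16 hB.gt hB.lt C hS

/-- THE THEOREM from the inputs which are left -/
theorem distrib_of_inputs5 (hG : IsGaussian P) (hc : (SimpleGraph.hasse P).Connected)
    (h1 : HJoin10 P) (h3 : HCC3 P) (hW : HWin1 P) (hT : HTail P) : IsDistribLatticeOrder P :=
  distrib_of_inputs3 hG hc h1 hs7 (hcc5 (hccu h3)) (hrow1 (hccu h3) hW hT)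

end Pool.Agent.GaussPoset.EK
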