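import Pool.Agent.W_448fin_h16.FnQ

/-!
# Final assembly (MP_448cb3_co): case B, the window `j - 1`, `j`: THE CHARGE RULE

A join `z` of a double `y` and a single element `v` costs (twice) `8 (1 + Ek 1) - 8 [N5s]`.  If
`Ek 2 = 0`, all goes to the part of `y`; if `Ek 2 ≠ 0` and `a b ≠ 0`, then `8 b` goes to the part of
`v` and the rest to the part of `y`; if `Ek 2 ≠ 0` and `a b = 0` (a double in the middle of a component
with two stars), all goes to the part of `v`, at least `16`.
-/

namespace Pool.Agent.GaussPoset.EK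

set_option linter.unusedSectionVars false

open Finset Win St Polynomial Wd Win.W4

universe u

variable {P : Type u} [Fintype P] [PartialOrder P] [DecidableEq P] {r i j : ℕ}

variable {m : ℕ} {x : ℕ → P} {c : ℕ → ℤ} {β : ℤ} {t : Tops P}

variable {K : Finset P} {psi : P → P} {Y V : P → P} {T : Finset P}

/-! ### star sums -/

lemma fnR_coeff {ι' : Type*} [DecidableEq ι'] (f : ι' → ℤ) (I : Finset ι')
    (h : ∀ s ∈ I, 0 ≤ f s) : (∏ s ∈ I, (1 + C (f s) * X) : ℤ[X]).coeff 1 ≤ 1 →
      (∏ s ∈ I, (1 + C (f s) * X) : ℤ[X]).coeff 2 = 0 := by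
  induction I using Finset.induction_on with
  | empty =>
    intro _
    rw [prod_empty, coeff_one, if_neg (by norm_num)]
  | insert s I hs ih =>
    have h1 := paN_coeff f I (fun s hs => h s (mem_insert_of_mem hs)) 1
    have h2 := h s (mem_insert_self _ _)
    have ih := ih (fun s hs => h s (mem_insert_of_mem hs))
    have h0 : (∏ s ∈ I, (1 + C (f s) * X) : ℤ[X]).coeff 0 = 1 := by
      rw [coeff_zero_eq_eval_zero, eval_prod]
      simp
    intro h3
    rw [prod_insert hs, add_mul, one_mul, coeff_add, mul_assoc, coeff_C_mul] at h3 ⊢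
    rw [show (X * ∏ s ∈ I, (1 + C (f s) * X) : ℤ[X]).coeff 1 =
      (∏ s ∈ I, (1 + C (f s) * X) : ℤ[X]).coeff 0 from coeff_X_mul _ 0, h0, mul_one] at h3
    rw [show (X * ∏ s ∈ I, (1 + C (f s) * X) : ℤ[X]).coeff 2 =
      (∏ s ∈ I, (1 + C (f s) * X) : ℤ[X]).coeff 1 from coeff_X_mul _ 1, ih (by linarith), zero_add]
    have h4 : f s = 0 ∨ (∏ s ∈ I, (1 + C (f s) * X) : ℤ[X]).coeff 1 = 0 := by omega
    rcases h4 with h4 | h4
    · rw [h4, zero_mul]
    · rw [h4, mul_zero]

/-- if all the star sums are nonnegative and the second number is not zero, the first is at least two -/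
theorem HS.one_two (h : HS r i K psi) (hs : ∀ k ∈ K, 0 ≤ sst i K T (star i K k))
    (h2 : Ek i K T 2 ≠ 0) : 2 ≤ Ek i K T 1 := by
  classical
  by_contra h1
  apply h2
  rw [Ek_coeff, h.prod T] at h1 ⊢
  refine fnR_coeff _ _ ?_ (by omega)
  intro s hs'
  obtain ⟨k, hk, rfl⟩ := mem_image.1 hs'
  exact hs k hk

/-- the first number, for a set of sites of one component -/
lemma Red.Ek_one_part (R : Red P i K psi) (H : Gr P r) (hi : i ≤ r)
    (hκ : Split (i + 1) (topOf : P → Tops P)) {a : Tops P} (hT : ∀ s ∈ T, topOf s = a) :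
    Ek i K T 1 = sa i (topOf : P → Tops P) K T a := by
  classical
  have kns : ∀ k ∈ K, ∀ s ∈ ns i k, (topOf s : Tops P) = topOf k :=
    fun k hk s hs => EK.kap_ns H hκ (R.sub hk) hs
  rw [K2.Ek_one R.sub, EK.sa_eq]
  have e0 : K.filter (fun k => Disjoint (ns i k) T) =
      K.filter (fun k => topOf k = a ∧ Disjoint (ns i k) T) ∪
        K.filter (fun k => (topOf k : Tops P) ≠ a) := by
    ext k
    rw [mem_union, mem_filter, mem_filter, mem_filter]
    constructor
    · rintro ⟨hk, h1⟩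
      by_cases h3 : (topOf k : Tops P) = a
      · exact Or.inl ⟨hk, h3, h1⟩
      · exact Or.inr ⟨hk, h3⟩
    · rintro (⟨hk, h1, h2⟩ | ⟨hk, h1⟩)
      · exact ⟨hk, h2⟩
      · refine ⟨hk, ?_⟩
        rw [disjoint_left]
        intro s hs hs'
        exact h1 ((kns k hk s hs).symm.trans (hT s hs'))
  have d1 : Disjoint (K.filter (fun k => topOf k = a ∧ Disjoint (ns i k) T))
      (K.filter (fun k => (topOf k : Tops P) ≠ a)) := by
    rw [disjoint_left]
    intro k h h'
    exact (mem_filter.1 h').2 (mem_filter.1 h).2.1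
  have e1 : ∑ k ∈ K.filter (fun k => (topOf k : Tops P) ≠ a), sgn i k = 0 := by
    rw [← Finset.sum_fiberwise_of_maps_to (t := univ.image (topOf : P → Tops P))
      (g := (topOf : P → Tops P)) (fun k _ => mem_image_of_mem _ (mem_univ k))]
    refine Finset.sum_eq_zero fun b _ => ?_
    by_cases h : b ≠ a
    · have : (K.filter (fun k => (topOf k : Tops P) ≠ a)).filter (fun k => topOf k = b) =
          K.filter (fun k => topOf k = b) := by
        ext k
        rw [mem_filter, mem_filter, mem_filter]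
        constructor
        · exact fun h => ⟨h.1.1, h.2⟩
        · rintro ⟨h1, h2⟩
          exact ⟨⟨h1, by rw [h2]; exact h⟩, h2⟩
      rw [this]
      exact EK.sum_K H hi hκ R.mat R.sub b
    · have e2 : (K.filter (fun k => (topOf k : Tops P) ≠ a)).filter (fun k => topOf k = b) = ∅ := by
        rw [filter_eq_empty_iff]
        intro k hk h2
        rw [mem_filter] at hk
        exact h (by rw [← h2]; exact hk.2)
      rw [e2, Finset.sum_empty]
  rw [e0, sum_union d1, e1, add_zero]

section join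

variable (h : NJ P r j) (R : Red P j K psi) {z y v : P}
  (S : K2.SD j (topOf : P → Tops P) z y v)

include h R S

/-- the star sums of a join of a double of a component with two stars -/
theorem NJ.six_stars (hj : 2 ≤ j) (B : RowB P j (topOf y) m x c β) (hp : Pat6 m c β) :
    ∀ k ∈ K, 0 ≤ sst j K (K2.Tz z) (star j K k) := by
  have hS := (NJ.HT h hj R).hs
  have hvs := NJ.join_v h R S hj
  obtain ⟨p, hp1, he⟩ := B.dbL_edge h.g.H h.split hp (paO_y h S) rfl
  rw [S.Tz]
  intro k hk
  by_cases h1 : topOf k = topOf y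
  · refine B.row.sst_nonneg R h.g.H h.split hp hS hp1 ?_ ?_ hk h1
    · rw [← he]
      exact subset_union_left
    · intro s hs hst
      rcases mem_union.1 hs with h2 | h2
      · rw [he, mem_insert, mem_singleton] at h2
        exact h2
      · exact (S.hk (hst.symm.trans (paO_kv h S s h2))).elim
  · by_cases h2 : topOf k = topOf v
    · rw [R.sst_small hS h.split hvs hk h2, paO_sa_v h R S]
      exact NJ.sa_single h hj R (S.lv' h.g.H) S.cv
    · refine (hS.sst_zero hk ?_).ge
      intro k' hk' hd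
      have h3 := star_comp h.g.H h.split R.sub hk' hk hd
      by_contra h4
      rcases paO_meet h R S hk' h4 with e | e
      · exact h1 (h3.symm.trans e)
      · exact h2 (h3.symm.trans e)

/-- the value of a double of a component with two stars -/
theorem NJ.six_double (hj : 2 ≤ j) (B : RowB P j (topOf y) m x c β) (hp : Pat6 m c β) :
    0 ≤ sa j (topOf : P → Tops P) K (uc y) (topOf y) := by
  have hS := (NJ.HT h hj R).hs
  obtain ⟨p, hp1, he⟩ := B.dbL_edge h.g.H h.split hp (paO_y h S) rfl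
  rw [← R.Ek_one_part h.g.H hS.hi h.split (T := uc y) (a := topOf y) (paO_ky h S)]
  refine hS.nonneg ?_ 1
  intro k hk
  by_cases h1 : topOf k = topOf y
  · refine B.row.sst_nonneg R h.g.H h.split hp hS hp1 ?_ ?_ hk h1
    · rw [← he]
    · intro s hs _
      rw [he, mem_insert, mem_singleton] at hs
      exact hs
  · refine (hS.sst_zero hk ?_).ge
    intro k' hk' hd
    have h3 := star_comp h.g.H h.split R.sub hk' hk hd
    rw [disjoint_left]
    intro s hs hs'
    have h5 := kap_ns h.g.H h.split (R.sub hk') hs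
    exact h1 (h3.symm.trans (h5.symm.trans (paO_ky h S s hs')))

end join

/-! ### the charges -/

/-- a choice of the two upper covers of the joins -/
def YW (j : ℕ) (Y V : P → P) : Prop :=
  ∀ z ∈ K2.Z2 j (topOf : P → Tops P), K2.SD j (topOf : P → Tops P) z (Y z) (V z)

lemma exists_YW (P : Type u) [Fintype P] [PartialOrder P] [DecidableEq P] (j : ℕ) :
    ∃ Y V : P → P, YW j Y V := by
  classical
  have h1 : ∀ z : P, ∃ p : P × P, z ∈ K2.Z2 j (topOf : P → Tops P) →
      K2.SD j (topOf : P → Tops P) z p.1 p.2 := by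
    intro z
    by_cases hz : z ∈ K2.Z2 j (topOf : P → Tops P)
    · obtain ⟨-, y, v, S⟩ := K2.mem_Z2.1 hz
      exact ⟨(y, v), fun _ => S⟩
    · exact ⟨(z, z), fun h => absurd h hz⟩
  choose f hf using h1
  exact ⟨fun z => (f z).1, fun z => (f z).2, hf⟩

/-- the value of a double or single element at the window -/
noncomputable def vz (j : ℕ) (K : Finset P) (y : P) : ℤ :=
  sa j (topOf : P → Tops P) K (uc y) (topOf y)

open Classical in
/-- what a join pays to the part of the single element -/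
noncomputable def hz (i : ℕ) (K : Finset P) (Y V : P → P) (z : P) : ℤ :=
  if Ek (i + 1) K (K2.Tz z) 2 = 0 then 0
  else if vz (i + 1) K (Y z) * vz (i + 1) K (V z) = 0 then Pn.cst Wsh i (i + 1) K z
  else 8 * vz (i + 1) K (V z)

open Classical in
/-- the shares of a join -/
noncomputable def gj (i : ℕ) (K : Finset P) (Y V : P → P) (z q : P) : ℤ :=
  if q = V z then hz i K Y V z
  else if q = Y z then Pn.cst Wsh i (i + 1) K z - hz i K Y V z else 0

open Classical in
/-- the sum of the shares at a part -/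
noncomputable def Gt (i : ℕ) (K : Finset P) (Y V : P → P) (t : Tops P) : ℤ :=
  ∑ z ∈ K2.Z2 (i + 1) (topOf : P → Tops P),
    ∑ q ∈ (uc z).filter (fun q => (topOf q : Tops P) = t), gj i K Y V z q

lemma Lm_gj (t : Tops P) : Pn.Lm Wsh (gj i K Y V) i (i + 1) t = Vt i t + Gt i K Y V t := rfl

/-- the choice is unique -/
lemma YW.uniq (hY : YW j Y V) {z y v : P} (hz : z ∈ K2.Z2 j (topOf : P → Tops P))
    (S : K2.SD j (topOf : P → Tops P) z y v) : Y z = y ∧ V z = v := by
  have S' := hY z hz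
  have h1 : Y z ∈ uc z := S'.my
  have h2 : V z ∈ uc z := S'.mv
  rw [S.huc, mem_insert, mem_singleton] at h1 h2
  have a1 := S.cy
  have a2 := S.cv
  have a3 := S'.cy
  have a4 := S'.cv
  constructor
  · rcases h1 with h1 | h1
    · exact h1
    · rw [h1] at a3
      omega
  · rcases h2 with h2 | h2
    · rw [h2] at a4
      omega
    · exact h2

/-- the sum of the shares -/
lemma YW.sum_gj (hY : YW (i + 1) Y V) {z : P} (hz : z ∈ K2.Z2 (i + 1) (topOf : P → Tops P)) :
    ∑ q ∈ uc z, gj i K Y V z q = Pn.cst Wsh i (i + 1) K z := by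
  classical
  have S := hY z hz
  rw [S.huc, sum_pair S.ne]
  unfold gj
  rw [if_neg S.ne, if_pos rfl, if_pos rfl]
  ring

section main

variable (h : NJ P r (i + 1)) (hi1 : 1 ≤ i) (R : Red P (i + 1) K psi)

include h

/-- a join of a double and a single element of two components -/
lemma NJ.sd_Z2 {z y v : P} (S : K2.SD (i + 1) (topOf : P → Tops P) z y v) :
    z ∈ K2.Z2 (i + 1) (topOf : P → Tops P) := by
  refine K2.mem_Z2.2 ⟨?_, y, v, S⟩
  have D : So.CrV i (topOf : P → Tops P) z y v := ⟨S.lz, S.huc, S.hk⟩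
  exact So.not_cuni D h.g.H

include R

/-- the cost -/
lemma NJ.cst_val {z : P} : Pn.cst Wsh i (i + 1) K z =
    8 * (1 + Ek (i + 1) K (K2.Tz z) 1) - (if z ∈ So.N5s i (topOf : P → Tops P) then 8 else 0) := by
  classical
  unfold Pn.cst Pn.e1 Wsh
  by_cases hz : z ∈ So.N5s i (topOf : P → Tops P)
  · rw [if_pos hz, if_pos hz]
    ring
  · rw [if_neg hz, if_neg hz]
    ring

omit h R in
/-- the elements above an element of the level `i + 2` -/
lemma up_le_bi (H : Gr P r) {w : P} (hw : lev w = i + 2) : up i w ≤ ((uc w).biUnion uc).card := by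
  classical
  rw [So.up_eq]
  refine card_le_card ?_
  intro s hs
  rw [mem_filter, mem_lv] at hs
  obtain ⟨y, hy, hys⟩ := exists_covBy_le_of_lt hs.2
  have hly := lev_uc H (mem_uc.2 hy)
  rw [mem_biUnion]
  refine ⟨y, mem_uc.2 hy, mem_uc.2 (H.covBy_iff.2 ⟨lt_of_le_of_ne hys ?_, by omega⟩)⟩
  rintro rfl
  omega

omit R in
/-- a join of a bad double has at most four elements of the level `i` above it -/
lemma NJ.bad_N5s {z y v : P} (S : K2.SD (i + 1) (topOf : P → Tops P) z y v)
    (hb : BadR P (i + 1) y) : z ∉ So.N5s i (topOf : P → Tops P) := by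
  classical
  intro hz
  obtain ⟨-, -, -, h4⟩ := So.mem_N5s.1 hz
  have D : So.CrV i (topOf : P → Tops P) z y v := ⟨S.lz, S.huc, S.hk⟩
  have H := h.g.H
  have h5 := D.up0_le H
  have h6 := up_le_bi H (D.lp' H)
  obtain ⟨s, hs⟩ := card_eq_one.1 S.cv
  rw [hs, singleton_biUnion] at h6
  have h7 := uc_card_le H s
  have h8 := up_le_bi H (D.lp H)
  have h9 : ((uc y).biUnion uc).card ≤ 2 := by
    obtain ⟨m, x, c, β, B, hm, hβ, hc⟩ := hb
    obtain ⟨f1, f2⟩ := B.ends (by rw [hβ]; norm_num)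
    rcases hc with ⟨-, -, e⟩ | ⟨-, -, e⟩
    · rw [e, biUnion_insert, singleton_biUnion]
      have g1 := card_union_add_card_inter (uc (x (m - 1))) (uc (x m))
      rw [card_uc_inter, B.ucv_x (m - 1) m (by omega) le_rfl, if_pos (by omega)] at g1
      have g2 := uc_card_le H (x (m - 1))
      omega
    · rw [e, biUnion_insert, singleton_biUnion]
      have g1 := card_union_add_card_inter (uc (x 0)) (uc (x 1))
      rw [card_uc_inter, B.ucv_x 0 1 (by omega) (by omega), if_pos rfl] at g1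
      have g2 := uc_card_le H (x 1)
      omega
  omega

include hi1 in
/-- the four cases of a join -/
lemma NJ.join_data {z y v : P} (S : K2.SD (i + 1) (topOf : P → Tops P) z y v) :
    Ek (i + 1) K (K2.Tz z) 1 = vz (i + 1) K y + vz (i + 1) K v ∧ 0 ≤ vz (i + 1) K v ∧
    ((∃ m x c β, RowB P (i + 1) (topOf y) m x c β ∧ Pat6 m c β) ∧ 0 ≤ vz (i + 1) K y ∧
      (Ek (i + 1) K (K2.Tz z) 2 ≠ 0 → 2 ≤ Ek (i + 1) K (K2.Tz z) 1) ∨
     (¬ (∃ m x c β, RowB P (i + 1) (topOf y) m x c β ∧ Pat6 m c β) ∧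
      Ek (i + 1) K (K2.Tz z) 2 = vz (i + 1) K y * vz (i + 1) K v ∧
      ((BadR P (i + 1) y ∧ vz (i + 1) K y = -1 ∧ z ∉ So.N5s i (topOf : P → Tops P)) ∨
        (¬ BadR P (i + 1) y ∧ 0 ≤ vz (i + 1) K y)))) := by
  have hjr : i + 1 ≤ r := by have := h.hr; omega
  have h1 := K2.Ek_one_SD h.g.H hjr h.split R.mat R.sub S
  refine ⟨h1, NJ.sa_single h (by omega) R (S.lv' h.g.H) S.cv, ?_⟩
  by_cases h2 : ∃ m x c β, RowB P (i + 1) (topOf y) m x c β ∧ Pat6 m c β
  · left
    obtain ⟨m, x, c, β, B, hp⟩ := id h2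
    exact ⟨h2, NJ.six_double h R S (by omega) B hp,
      (NJ.HT h (by omega) R).hs.one_two (NJ.six_stars h R S (by omega) B hp)⟩
  · right
    obtain ⟨m, x, c, β, B⟩ := NJ.rowB h (by omega) (topOf y)
    have hp : ¬ Pat6 m c β := fun hp => h2 ⟨m, x, c, β, B, hp⟩
    have hy : Small (i + 1) (topOf : P → Tops P) (topOf y) :=
      (B.small h.g.H h.split).resolve_right hp
    refine ⟨h2, (NJ.join_small h R S (by omega) hy (NJ.join_v h R S (by omega))).1, ?_⟩
    by_cases hb : BadR P (i + 1) y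
    · exact Or.inl ⟨hb, sa_badR h R hb, NJ.bad_N5s h S hb⟩
    · exact Or.inr ⟨hb, B.sa_double h R hp (paO_y h S) rfl hb⟩

include hi1 in
/-- the shares are nonnegative -/
lemma NJ.hz_bounds (hY : YW (i + 1) Y V) {z : P}
    (hz2 : z ∈ K2.Z2 (i + 1) (topOf : P → Tops P)) :
    0 ≤ hz i K Y V z ∧ hz i K Y V z ≤ Pn.cst Wsh i (i + 1) K z ∧
      (Ek (i + 1) K (K2.Tz z) 2 ≠ 0 → 8 ≤ hz i K Y V z ∧
        (vz (i + 1) K (Y z) * vz (i + 1) K (V z) = 0 → 16 ≤ hz i K Y V z)) := by
  classical
  have S := hY z hz2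
  obtain ⟨e1, hb, hc⟩ := NJ.join_data h hi1 R S
  have hcst := NJ.cst_val (i := i) h R (z := z)
  rw [e1] at hcst
  unfold hz
  generalize Pn.cst Wsh i (i + 1) K z = cc at *
  generalize Ek (i + 1) K (K2.Tz z) 1 = E1 at *
  generalize Ek (i + 1) K (K2.Tz z) 2 = E2 at *
  generalize vz (i + 1) K (Y z) = a at *
  generalize vz (i + 1) K (V z) = b at *
  rcases hc with ⟨-, ha, h2⟩ | ⟨-, h2, ⟨-, ha, hn⟩ | ⟨-, ha⟩⟩
  · by_cases hE : E2 = 0
    · rw [if_pos hE]
      refine ⟨le_rfl, ?_, fun h3 => absurd hE h3⟩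
      rw [hcst]
      split_ifs <;> linarith
    · rw [if_neg hE]
      have h3 := h2 hE
      by_cases hab : a * b = 0
      · rw [if_pos hab]
        have h4 : 16 ≤ cc := by
          rw [hcst]
          split_ifs <;> linarith
        exact ⟨by linarith, le_rfl, fun _ => ⟨by linarith, fun _ => h4⟩⟩
      · rw [if_neg hab]
        have hb1 : b ≠ 0 := fun q => hab (by rw [q, mul_zero])
        refine ⟨by linarith, ?_, fun _ => ⟨by omega, fun q => absurd q hab⟩⟩
        rw [hcst]
        split_ifs <;> linarith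
  · rw [if_neg hn] at hcst
    subst ha
    by_cases hE : E2 = 0
    · rw [if_pos hE]
      exact ⟨le_rfl, by linarith, fun h3 => absurd hE h3⟩
    · have hb1 : b ≠ 0 := fun q => hE (by rw [h2, q, mul_zero])
      rw [if_neg hE, if_neg (by rw [← h2]; exact hE)]
      exact ⟨by linarith, by linarith, fun _ => ⟨by omega, fun q => absurd q (by rw [← h2]; exact hE)⟩⟩
  · by_cases hE : E2 = 0
    · rw [if_pos hE]
      refine ⟨le_rfl, ?_, fun h3 => absurd hE h3⟩
      rw [hcst]
      split_ifs <;> linarith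
    · have hb1 : b ≠ 0 := fun q => hE (by rw [h2, q, mul_zero])
      rw [if_neg hE, if_neg (by rw [← h2]; exact hE)]
      refine ⟨by linarith, ?_, fun _ => ⟨by omega, fun q => absurd q (by rw [← h2]; exact hE)⟩⟩
      rw [hcst]
      split_ifs <;> linarith

include hi1 in
/-- the share of a double which is not bad -/
lemma NJ.hz_double (hY : YW (i + 1) Y V) {z : P}
    (hz2 : z ∈ K2.Z2 (i + 1) (topOf : P → Tops P))
    (h6 : ¬ (∃ m x c β, RowB P (i + 1) (topOf (Y z)) m x c β ∧ Pat6 m c β))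
    (hbad : ¬ BadR P (i + 1) (Y z)) :
    (Ek (i + 1) K (K2.Tz z) 2 ≠ 0 → 8 ≤ Pn.cst Wsh i (i + 1) K z - hz i K Y V z ∧
      vz (i + 1) K (Y z) * vz (i + 1) K (V z) ≠ 0) ∧
    (vz (i + 1) K (Y z) = 0 → z ∉ So.N5s i (topOf : P → Tops P) →
      8 ≤ Pn.cst Wsh i (i + 1) K z - hz i K Y V z) := by
  classical
  have S := hY z hz2
  obtain ⟨e1, hb, hc⟩ := NJ.join_data h hi1 R S
  have hcst := NJ.cst_val (i := i) h R (z := z)
  rw [e1] at hcst
  unfold hz
  generalize Pn.cst Wsh i (i + 1) K z = cc at *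
  generalize Ek (i + 1) K (K2.Tz z) 1 = E1 at *
  generalize Ek (i + 1) K (K2.Tz z) 2 = E2 at *
  generalize vz (i + 1) K (Y z) = a at *
  generalize vz (i + 1) K (V z) = b at *
  rcases hc with ⟨q, -⟩ | ⟨-, h2, ⟨q, -⟩ | ⟨-, ha⟩⟩
  · exact absurd q h6
  · exact absurd q hbad
  constructor
  · intro hE
    have hb1 : b ≠ 0 := fun q => hE (by rw [h2, q, mul_zero])
    have ha1 : a ≠ 0 := fun q => hE (by rw [h2, q, zero_mul])
    rw [if_neg hE, if_neg (by rw [← h2]; exact hE)]
    refine ⟨?_, by rw [← h2]; exact hE⟩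
    have ha2 : 1 ≤ a := by omega
    rw [hcst]
    split_ifs <;> linarith
  · intro ha0 hn
    rw [if_neg hn, ha0] at hcst
    have hE : E2 = 0 := by rw [h2, ha0, zero_mul]
    rw [if_pos hE]
    linarith

end main

end Pool.Agent.GaussPoset.EK
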