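import Pool.Agent.W_448fin_h16.FnR

/-!
# Final assembly (MP_448cb3_co): case B, the window `j - 1`, `j`: THE CLASSIFICATION OF THE ROWS

`CB.shape2`: a row with at least four sites and a defect is closed at the double edge, or at a fold
end, or the component is late; `late_class`: the rows of the late words.
-/

namespace Pool.Agent.GaussPoset.EK

set_option linter.unusedSectionVars false

open Finset Win St Polynomial Wd Win.W4

universe u

variable {P : Type u} [Fintype P] [PartialOrder P] [DecidableEq P] {r i j : ℕ}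

variable {m : ℕ} {x : ℕ → P} {c : ℕ → ℤ} {β : ℤ} {t : Tops P}

variable {K : Finset P} {psi : P → P} {Y V : P → P}

/-! ### the charges of a part -/

section main

variable (h : NJ P r (i + 1)) (hi1 : 1 ≤ i) (R : Red P (i + 1) K psi) (hY : YW (i + 1) Y V)

include h hi1 R hY

lemma NJ.gj_nonneg {z q : P} (hz2 : z ∈ K2.Z2 (i + 1) (topOf : P → Tops P)) :
    0 ≤ gj i K Y V z q := by
  classical
  obtain ⟨h1, h2, -⟩ := NJ.hz_bounds h hi1 R hY hz2
  unfold gj
  split_ifs
  · exact h1
  · linarith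
  · exact le_rfl

lemma NJ.Gt_ge {z q : P} (hz2 : z ∈ K2.Z2 (i + 1) (topOf : P → Tops P)) (hq : q ∈ uc z)
    (ht : topOf q = t) : gj i K Y V z q ≤ Gt i K Y V t := by
  classical
  unfold Gt
  have h1 : gj i K Y V z q ≤
      ∑ q ∈ (uc z).filter (fun q => (topOf q : Tops P) = t), gj i K Y V z q :=
    single_le_sum (f := fun q => gj i K Y V z q) (fun q _ => NJ.gj_nonneg h hi1 R hY hz2)
      (mem_filter.2 ⟨hq, ht⟩)
  refine h1.trans (single_le_sum (f := fun z => ∑ q ∈ (uc z).filter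
    (fun q => (topOf q : Tops P) = t), gj i K Y V z q)
    (fun z hz => sum_nonneg fun q _ => NJ.gj_nonneg h hi1 R hY hz) hz2)

lemma NJ.Gt_nonneg (t : Tops P) : 0 ≤ Gt i K Y V t := by
  classical
  unfold Gt
  exact sum_nonneg fun z hz => sum_nonneg fun q _ => NJ.gj_nonneg h hi1 R hY hz

/-- THE GAIN OF A ROW WITH `w32 ≠ 0` -/
theorem NJ.gain (hc : CB P r (i + 1)) (hH : HHeavy P)
    (h6 : ∀ (m : ℕ) (x : ℕ → P) (c : ℕ → ℤ) (β : ℤ), RowB P (i + 1) t m x c β → ¬ Pat6 m c β)
    (hbad : ∀ y, topOf y = t → ¬ BadR P (i + 1) y) (hv : v3 (i + 1) t ≠ 0) :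
    8 ≤ Gt i K Y V t ∧ (NoHeavy (i + 1) K t → 16 ≤ Gt i K Y V t) := by
  classical
  have hex : ∃ z y v : P, K2.SD (i + 1) (topOf : P → Tops P) z y v ∧
      (topOf y = t ∨ topOf v = t) ∧ Ek (i + 1) K (K2.Tz z) 2 ≠ 0 := by
    by_contra hcon
    push Not at hcon
    exact hv (hH r (i + 1) K psi (by omega) hc R t h6 (fun z y v S ht => hcon z y v S ht))
  obtain ⟨z, y, v, S, ht, hE⟩ := hex
  have hz2 := NJ.sd_Z2 h S
  obtain ⟨rfl, rfl⟩ := hY.uniq hz2 S
  obtain ⟨-, -, key⟩ := NJ.hz_bounds h hi1 R hY hz2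
  obtain ⟨k1, k2⟩ := key hE
  rcases ht with ht | ht
  · have h61 : ¬ (∃ m x c β, RowB P (i + 1) (topOf (Y z)) m x c β ∧ Pat6 m c β) := by
      rw [ht]
      rintro ⟨m, x, c, β, B, hp⟩
      exact h6 m x c β B hp
    obtain ⟨g1, -⟩ := NJ.hz_double h hi1 R hY hz2 h61 (hbad _ ht)
    obtain ⟨g2, g3⟩ := g1 hE
    have g4 := NJ.Gt_ge h hi1 R hY hz2 S.my ht
    have g5 : gj i K Y V z (Y z) = Pn.cst Wsh i (i + 1) K z - hz i K Y V z := by
      unfold gj
      rw [if_neg S.ne, if_pos rfl]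
    exact ⟨by linarith, fun hN => absurd (hN z _ _ S (Or.inl ht)) g3⟩
  · have g4 := NJ.Gt_ge h hi1 R hY hz2 S.mv ht
    have g5 : gj i K Y V z (V z) = hz i K Y V z := by
      unfold gj
      rw [if_pos rfl]
    exact ⟨by linarith, fun hN => by
      have := k2 (hN z _ _ S (Or.inr ht))
      linarith⟩

/-- the gain of a light join at a double -/
theorem NJ.gain_light {z y v : P} (S : K2.SD (i + 1) (topOf : P → Tops P) z y v)
    (ht : topOf y = t)
    (h6 : ∀ (m : ℕ) (x : ℕ → P) (c : ℕ → ℤ) (β : ℤ), RowB P (i + 1) t m x c β → ¬ Pat6 m c β)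
    (hbad : ∀ y, topOf y = t → ¬ BadR P (i + 1) y)
    (ha : sa (i + 1) (topOf : P → Tops P) K (uc y) (topOf y) = 0)
    (hn : z ∉ So.N5s i (topOf : P → Tops P)) : 8 ≤ Gt i K Y V t := by
  classical
  have hz2 := NJ.sd_Z2 h S
  obtain ⟨rfl, rfl⟩ := hY.uniq hz2 S
  have h61 : ¬ (∃ m x c β, RowB P (i + 1) (topOf (Y z)) m x c β ∧ Pat6 m c β) := by
    rw [ht]
    rintro ⟨m, x, c, β, B, hp⟩
    exact h6 m x c β B hp
  obtain ⟨-, g1⟩ := NJ.hz_double h hi1 R hY hz2 h61 (hbad _ ht)
  have g4 := NJ.Gt_ge h hi1 R hY hz2 S.my ht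
  have g5 : gj i K Y V z (Y z) = Pn.cst Wsh i (i + 1) K z - hz i K Y V z := by
    unfold gj
    rw [if_neg S.ne, if_pos rfl]
  have := g1 ha hn
  linarith

/-- two joins at the part -/
lemma NJ.Gt_two {z z' q q' : P} (hz2 : z ∈ K2.Z2 (i + 1) (topOf : P → Tops P))
    (hz2' : z' ∈ K2.Z2 (i + 1) (topOf : P → Tops P)) (hne : z ≠ z') (hq : q ∈ uc z)
    (hq' : q' ∈ uc z') (ht : topOf q = t) (ht' : topOf q' = t) :
    gj i K Y V z q + gj i K Y V z' q' ≤ Gt i K Y V t := by
  classical
  have h0 : ∀ z ∈ K2.Z2 (i + 1) (topOf : P → Tops P), 0 ≤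
      ∑ q ∈ (uc z).filter (fun q => (topOf q : Tops P) = t), gj i K Y V z q :=
    fun z hz => sum_nonneg fun q _ => NJ.gj_nonneg h hi1 R hY hz
  have h1 : ∀ z q : P, z ∈ K2.Z2 (i + 1) (topOf : P → Tops P) → q ∈ uc z → topOf q = t →
      gj i K Y V z q ≤
        ∑ q ∈ (uc z).filter (fun q => (topOf q : Tops P) = t), gj i K Y V z q :=
    fun z q hz hq ht => single_le_sum (f := fun q => gj i K Y V z q)
      (fun q _ => NJ.gj_nonneg h hi1 R hY hz) (mem_filter.2 ⟨hq, ht⟩)
  have h2 : ∑ z ∈ ({z, z'} : Finset P),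
      ∑ q ∈ (uc z).filter (fun q => (topOf q : Tops P) = t), gj i K Y V z q ≤
        Gt i K Y V t := by
    unfold Gt
    refine sum_le_sum_of_subset_of_nonneg ?_ (fun z hz _ => h0 z hz)
    intro w hw
    rw [mem_insert, mem_singleton] at hw
    rcases hw with rfl | rfl
    · exact hz2
    · exact hz2'
  rw [sum_pair hne] at h2
  have h3 := h1 z q hz2 hq ht
  have h4 := h1 z' q' hz2' hq' ht'
  linarith

/-- THE GAIN OF A ROW WITH `w32 ≠ 0` AND A LIGHT JOIN AT A DOUBLE -/
theorem NJ.gain_both (hc : CB P r (i + 1)) (hH : HHeavy P)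
    (h6 : ∀ (m : ℕ) (x : ℕ → P) (c : ℕ → ℤ) (β : ℤ), RowB P (i + 1) t m x c β → ¬ Pat6 m c β)
    (hbad : ∀ y, topOf y = t → ¬ BadR P (i + 1) y) (hv : v3 (i + 1) t ≠ 0)
    {z y v : P} (S : K2.SD (i + 1) (topOf : P → Tops P) z y v) (hyt : topOf y = t)
    (ha : sa (i + 1) (topOf : P → Tops P) K (uc y) (topOf y) = 0)
    (hn : z ∉ So.N5s i (topOf : P → Tops P)) : 16 ≤ Gt i K Y V t := by
  classical
  have h61 : ∀ q : P, topOf q = t →
      ¬ (∃ m x c β, RowB P (i + 1) (topOf q) m x c β ∧ Pat6 m c β) := by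
    intro q hq
    rw [hq]
    rintro ⟨m, x, c, β, B, hp⟩
    exact h6 m x c β B hp
  have hz2 := NJ.sd_Z2 h S
  obtain ⟨rfl, rfl⟩ := hY.uniq hz2 S
  obtain ⟨-, g1⟩ := NJ.hz_double h hi1 R hY hz2 (h61 _ hyt) (hbad _ hyt)
  have g5 : gj i K Y V z (Y z) = Pn.cst Wsh i (i + 1) K z - hz i K Y V z := by
    unfold gj
    rw [if_neg S.ne, if_pos rfl]
  have g6 := g1 ha hn
  obtain ⟨z', y', v', S', ht', hE⟩ : ∃ z y v : P, K2.SD (i + 1) (topOf : P → Tops P) z y v ∧
      (topOf y = t ∨ topOf v = t) ∧ Ek (i + 1) K (K2.Tz z) 2 ≠ 0 := by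
    by_contra hcon
    push Not at hcon
    exact hv (hH r (i + 1) K psi (by omega) hc R t h6 (fun z y v S ht => hcon z y v S ht))
  have hz2' := NJ.sd_Z2 h S'
  obtain ⟨rfl, rfl⟩ := hY.uniq hz2' S'
  have hne : z ≠ z' := by
    rintro rfl
    apply hE
    obtain ⟨-, -, hc2⟩ := NJ.join_data h hi1 R S
    rcases hc2 with ⟨k1, -⟩ | ⟨-, k2, -⟩
    · exact absurd k1 (h61 _ hyt)
    · rw [k2]
      unfold vz
      rw [ha, zero_mul]
  rcases ht' with ht' | ht'
  · obtain ⟨g7, -⟩ := NJ.hz_double h hi1 R hY hz2' (h61 _ ht') (hbad _ ht')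
    obtain ⟨g8, -⟩ := g7 hE
    have g9 := NJ.Gt_two h hi1 R hY hz2 hz2' hne S.my S'.my hyt ht'
    have g10 : gj i K Y V z' (Y z') = Pn.cst Wsh i (i + 1) K z' - hz i K Y V z' := by
      unfold gj
      rw [if_neg S'.ne, if_pos rfl]
    linarith
  · obtain ⟨-, -, key⟩ := NJ.hz_bounds h hi1 R hY hz2'
    obtain ⟨k1, -⟩ := key hE
    have g9 := NJ.Gt_two h hi1 R hY hz2 hz2' hne S.my S'.mv hyt ht'
    have g10 : gj i K Y V z' (V z') = hz i K Y V z' := by
      unfold gj
      rw [if_pos rfl]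
    linarith

end main

/-- two rows of the same part -/
lemma RowB.not_bad (h : NJ P r j) (hj : 2 ≤ j) (B : RowB P j t m x c β) (hb : β ≠ 1 ∨ m < 3) :
    ∀ y, topOf y = t → ¬ BadR P j y := by
  rintro y rfl ⟨m', x', c', β', B', hm', hβ', -⟩
  obtain ⟨lo, hi, e, C⟩ := Cp.comp_exists h.g.H (topOf y : Tops P).2 h.g.hr h.g.good
  obtain ⟨l1, o1⟩ := B.orient h hj C
  obtain ⟨l2, o2⟩ := B'.orient h hj C
  have hm : m' = m := by omega
  subst hm
  rcases hb with hb | hb
  · apply hb
    have e1 := B.dcv_eq h (a := 0) (b := m') (by omega) le_rfl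
    have e2 := B'.dcv_eq h (a := 0) (b := m') (by omega) le_rfl
    rw [if_neg (by omega), if_pos ⟨rfl, rfl, by omega⟩, zero_add] at e1 e2
    have e3 : dcv (x 0) (x m') = dcv (x' 0) (x' m') := by
      rcases o1 with o1 | o1 <;> rcases o2 with o2 | o2 <;>
        rw [o1 0 (by omega), o1 m' le_rfl, o2 0 (by omega), o2 m' le_rfl]
      · rw [l1, Nat.sub_zero, Nat.add_sub_cancel, Nat.add_zero]
        exact StB_dcv_comm _ _
      · rw [l1, Nat.sub_zero, Nat.add_sub_cancel, Nat.add_zero]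
        exact StB_dcv_comm _ _
    rw [← e1, e3, e2, hβ']
  · omega

/-- the pattern of a row with a double edge at the beginning -/
lemma RowB.isDL (h : NJ P r j) (B : RowB P j t m x c β) (hm : 3 ≤ m) (h0 : c 0 = 1) :
    IsDL m c β ∨ Pat6 m c β := by
  rcases B.pat with ⟨p1, p2⟩ | ⟨-, p1, p2, p3⟩ | ⟨-, p1, p2, p3⟩ | ⟨-, p1, p2, p3, p4⟩ |
    ⟨-, p1, p2, p3, p4⟩ | p1 | ⟨p1, -⟩ | p1
  · have := p2 0 (by omega)
    omega
  · omega
  · have := p3 0 (by omega)
    omega
  · exact Or.inl ⟨p1, p2, p3, p4⟩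
  · have := p4 0 (by omega)
    omega
  · exact Or.inr p1
  · omega
  · exact (B.not8 p1).elim

/-- the shape of a component with a defect: closed at the double edge, a fold end, or late -/
theorem CB.shape2 (hC : HCCu P) (h : CB P r j) (hj : 2 ≤ j)
    {lo hi : Tops P → ℕ → ℕ} {e : Tops P → ℕ → ℕ → P}
    (C : ∀ t : Tops P, Cp.Comp j (t : P) (lo t) (hi t) (e t))
    (hS : ∀ t : Tops P, Shape j (lo t) (hi t)) (B : RowB P j t m x c β) (hm : 3 ≤ m) :
    ((c 0 = 1 → (uc (x 0)).card = 2 ∨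
        (StairShape j (lo t) (hi t) ∧ j % 2 = 0 ∧ x 0 = e t j (j / 2))) ∧ β ≠ 1) ∨
      ∃ a, LateC j a (lo t) (hi t) := by
  classical
  have hn := h.nj
  have H := hn.g.H
  have hdf := B.row.df
  -- the double edge
  have hdd : c 0 = 1 → dcv (x 0) (x 1) = 2 := by
    intro h0
    have e1 := B.dcv_eq hn (a := 0) (b := 1) (by omega) (by omega)
    rw [if_pos rfl, if_neg (by omega), h0] at e1
    have : (dcv (x 0) (x 1) : ℤ) = 2 := by linarith
    exact_mod_cast this
  -- the new pair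
  have hnew : β = 1 → ∃ y, lev y = j + 1 ∧ y ≤ (t : P) ∧ y ⋖ x 0 ∧ y ⋖ x m := by
    intro h1
    refine B.low hn (by omega) le_rfl ?_
    rw [B.dcv_eq hn (by omega) le_rfl, if_neg (by omega), if_pos ⟨rfl, rfl, by omega⟩, h1]
    norm_num
  have hone : (uc (x 0)).card ≠ 2 → (uc (x 0)).card = 1 := by
    intro h2
    have W := NJ.prow hn hj B (by omega)
    rcases W.uc_le (k := 0) (by omega) with h1 | h1
    · exact h1
    · exact absurd h1 h2
  have hx0t : x 0 ≤ (t : P) := by
    rw [← B.row.kap 0 (by omega)]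
    exact le_topOf (x 0)
  have hxmt : x m ≤ (t : P) := by
    rw [← B.row.kap m le_rfl]
    exact le_topOf (x m)
  have hx0 := B.row.lev_x 0 (by omega)
  have hxm := B.row.lev_x m le_rfl
  obtain ⟨hlen, hor⟩ := B.orient hn hj (C t)
  rcases hS t with g1 | ⟨g1, S'⟩ | ⟨g1, S⟩ | ⟨g1, g2, g3⟩ | ⟨g1, g2⟩ | ⟨a, g0, g1, g2, g3, hN, g4⟩
  · exfalso
    have := g1 j le_rfl
    omega
  · -- rectangle
    left
    refine ⟨fun h0 => ?_, fun h1 => ?_⟩
    · left
      by_contra h2
      have h3 := NJ_rect_S_end hn hj C hS (t := t) (x := x 0) (x' := x 1) (by omega) hx0 hx0t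
        (hone h2) (fun q => by
          have := B.row.inj 0 1 (by omega) (by omega) q
          omega)
      rw [hdd h0] at h3
      omega
    · obtain ⟨y, hy1, hy2, hy3, hy4⟩ := hnew h1
      have h3 := rect_no_rotation hn.g hj hn.no C (NJ_level_one hn (by omega) C hS) (t := t)
        (z := y) (x := x 0) (x' := x m) (by omega) hy1 hy2 hy3 hy4 (fun q => by
          have := B.row.inj 0 m (by omega) le_rfl q
          omega)
      rw [B.ucv_x 0 m (by omega) le_rfl, if_neg (by omega)] at h3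
      omega
  · -- stair
    left
    have hhj := S.hi j le_rfl
    have hj6 : 6 ≤ j := by omega
    have hcc : ∀ z : P, lo t j = 0 → j % 2 = 0 → z ⋖ e t j (j / 2) → z ⋖ e t j 0 → False := by
      intro z z0 z1 z2 z3
      obtain ⟨n, rfl⟩ : ∃ n, j = 2 * n := ⟨j / 2, by omega⟩
      rw [show 2 * n / 2 = n by omega] at z2
      exact hC r n (by omega) h lo hi e C hS t z S z0 z2 z3
    have hNo : NoCC j lo hi e := by
      intro _ t' z S' z0 z1 z2 z3
      obtain ⟨n, rfl⟩ : ∃ n, j = 2 * n := ⟨j / 2, by omega⟩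
      rw [show 2 * n / 2 = n by omega] at z2
      exact hC r n (by omega) h lo hi e C hS t' z S' z0 z2 z3
    refine ⟨fun h0 => ?_, fun h1 => ?_⟩
    · by_cases h2 : (uc (x 0)).card = 2
      · exact Or.inl h2
      rcases sd_single hn.g hj6 (C t) S hx0 hx0t (hone h2) with ⟨a1, a2⟩ | ⟨a1, a2⟩
      · exfalso
        have hu := B.ucv_x 0 1 (by omega) (by omega)
        rw [if_pos rfl] at hu
        have hd := hdd h0
        have hne : x 1 ≠ x 0 := fun q => by
          have := B.row.inj 1 0 (by omega) (by omega) q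
          omega
        rw [a2] at hu hd hne
        have h3 := NJ_stair_S_end hn hj6 C hS hNo S a1 hne hu
        omega
      · exact Or.inr ⟨S, a1, a2⟩
    · obtain ⟨y, hy1, hy2, hy3, hy4⟩ := hnew h1
      have hne : x 0 ≠ x m := fun q => by
        have := B.row.inj 0 m (by omega) le_rfl q
        omega
      obtain ⟨f1, f2⟩ := B.ends (by rw [h1]; norm_num)
      rcases sd_single hn.g hj6 (C t) S hx0 hx0t f1 with ⟨a1, a2⟩ | ⟨a1, a2⟩ <;>
        rcases sd_single hn.g hj6 (C t) S hxm hxmt f2 with ⟨b1, b2⟩ | ⟨b1, b2⟩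
      · exact hne (a2.trans b2.symm)
      · exact hcc y a1 b1 (by rw [← b2]; exact hy4) (by rw [← a2]; exact hy3)
      · exact hcc y b1 a1 (by rw [← a2]; exact hy3) (by rw [← b2]; exact hy4)
      · exact hne (a2.trans b2.symm)
  · exfalso
    subst g1
    omega
  · subst g1
    exact absurd g2 (NJ_no_six hn C hS t)
  · right
    have Ct := C t
    refine ⟨a, g0, g1, g2, g3, ?_⟩
    have hstep : ∀ k, k < a + (j - a) → lo t k ≤ lo t (k + 1) ∧ lo t (k + 1) ≤ lo t k + 1 := by
      intro k hk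
      have := Ct.lo_step k (by omega)
      omega
    have hstep' : ∀ k, k < a + (j - a) → hi t k ≤ hi t (k + 1) ∧ hi t (k + 1) ≤ hi t k + 1 := by
      intro k hk
      have := Ct.hi_step k (by omega)
      omega
    exact late_wide g3 hstep hstep' g4 (by rw [show a + (j - a) = j by omega]; omega)

/-- what is left of the rows of the late words -/
def LateOut (P : Type u) [Fintype P] [PartialOrder P] [DecidableEq P] (j : ℕ) (t : Tops P)
    (m : ℕ) (x : ℕ → P) (c : ℕ → ℤ) (β : ℤ) (lo hi : ℕ → ℕ) (e : ℕ → ℕ → P) : Prop :=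
  (IsDL m c β ∧ (uc (x 0)).card = 2) ∨
  (IsDL m c β ∧ m = 3 ∧ (uc (x 0)).card = 1 ∧ (uc (x 3)).card = 1 ∧
    UE j (cext (j + 1) (topOf : P → Tops P) t) x 2 = ∅ ∧ ∀ k, k ≤ 3 → x k = e j (lo j + k)) ∨
  (m = 3 ∧ β = 1 ∧ c 0 = -1 ∧ (∀ k, 1 ≤ k → k < 3 → c k = 0) ∧ pen (x 0) ≠ ∅ ∧
    ∀ k, k ≤ 3 → x k = e j (hi j - k))

/-- THE ROWS OF THE LATE WORDS -/
theorem late_class (hT : HTail P) (h : CB P r j) (hj : 2 ≤ j)
    {lo hi : Tops P → ℕ → ℕ} {e : Tops P → ℕ → ℕ → P}
    (C : ∀ t : Tops P, Cp.Comp j (t : P) (lo t) (hi t) (e t))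
    (hS : ∀ t : Tops P, Shape j (lo t) (hi t)) (B : RowB P j t m x c β) (hm : 3 ≤ m) {a : ℕ}
    (L : LateC j a (lo t) (hi t)) (hd : Dft m c β) :
    LateOut P j t m x c β (lo t) (hi t) (e t) := by
  classical
  have hn := h.nj
  have H := hn.g.H
  obtain ⟨hlen, hor⟩ := B.orient hn hj (C t)
  have Ct := C t
  have ha := L.ha
  -- the closure of the sites
  have sing : ∀ s, lo t j ≤ s → s ≤ hi t j → ((uc (e t j s)).card = 1 ↔
      s = lo t (j - 1) ∨ s = hi t (j - 1) + 1) := by
    intro s s1 s2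
    have h1 := Ct.single_up H hn.g.good t.2 (k := j - 1) (s := s) (by omega)
      (by rw [show j - 1 + 1 = j by omega]; exact s1) (by rw [show j - 1 + 1 = j by omega]; exact s2)
    rwa [show j - 1 + 1 = j by omega] at h1
  -- four sites, double edge at the short end
  have openD : m = 3 → c 0 = 1 → c 1 = -1 → β = 0 → (∀ k, 2 ≤ k → k < m → c k = 0) →
      (uc (x 3)).card = 1 → (∀ k, k ≤ 3 → x k = e t j (lo t j + k)) →
      ((∀ k, k ≤ 3 → x k = e t j (lo t j + k)) → hi t (j - 1) ≠ hi t (j - 2)) →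
      ((∀ k, k ≤ 3 → x k = e t j (hi t j - k)) → lo t (j - 1) ≠ lo t (j - 2) + 1) →
      LateOut P j t m x c β (lo t) (hi t) (e t) := by
    intro hm3 c0 c1 b0 c2 h3 hor0 hf hb
    subst hm3
    have W := NJ.prow hn hj B (by omega)
    rcases W.uc_le (k := 0) (by omega) with h1 | h1
    · right
      left
      refine ⟨⟨b0, c0, c1, c2⟩, rfl, h1, h3, ?_, hor0⟩
      by_contra hU
      obtain ⟨z, hz⟩ := nonempty_iff_ne_empty.2 hU
      obtain ⟨-, -, hor'⟩ := NJ.letters hn hj B Ct (n := j - 2) (by omega) hz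
      rw [show j - 2 + 1 = j - 1 by omega] at hor'
      rcases hor' with ⟨q1, q2, -⟩ | ⟨q1, q2, -⟩
      · exact hf q1 q2
      · exact hb q1 q2
    · exact Or.inl ⟨⟨b0, c0, c1, c2⟩, h1⟩
  have ring3 : m = 3 → β = 1 → c 0 = -1 → (∀ k, 1 ≤ k → k < m → c k = 0) →
      pen (x 0) ≠ ∅ → (∀ k, k ≤ 3 → x k = e t j (hi t j - k)) →
      LateOut P j t m x c β (lo t) (hi t) (e t) := by
    intro hm3 b1 c0 c1 hp hr
    subst hm3
    exact Or.inr (Or.inr ⟨rfl, b1, c0, c1, hp, hr⟩)
  -- the tail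
  have tail := hT r j hn hj lo hi e C hS t a L
  rcases L.cases Ct with ⟨ja, w, l0, h0, l1, h1, l2, h2⟩ | ⟨ja, w, l0, h0, l1, h1, l2, h2⟩ |
    ⟨ja, w, l0, h0, l1, h1, l2, h2⟩ | ⟨ja, w, l0, h0, l1, h1, l2, h2, l3, h3⟩ |
    ⟨ja, w, l0, h0, l1, h1, l2, h2, l3, h3⟩
  · -- OC OO OO
    have hm3 : m = 3 := by omega
    subst hm3
    obtain ⟨t1, t2⟩ := tail (by rw [w]; decide)
    have s0 := (sing (lo t j) le_rfl (by omega)).2 (Or.inl (by omega))
    have s3 := (sing (hi t j) (by omega) le_rfl).2 (Or.inr (by omega))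
    by_cases ht : j + 1 ≤ 2 * a
    · have hp := nonempty_iff_ne_empty.1 (t2 ht)
      rcases hor with hor | hor
      · have e3 : x 3 = e t j (hi t j) := by rw [hor 3 le_rfl, hlen]
        rcases hd with ⟨c0, c1, b0, c2⟩ | ⟨b1, c0, c1⟩
        · exact openD rfl c0 c1 b0 c2 (by rw [e3]; exact s3) hor (fun _ => by omega)
            (fun _ => by omega)
        · exact (B.no_end_R hn hm b1 c1 (by rw [e3]; exact hp)).elim
      · have e0 : x 0 = e t j (hi t j) := by rw [hor 0 (by omega), Nat.sub_zero]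
        rcases hd with ⟨c0, c1, b0, c2⟩ | ⟨b1, c0, c1⟩
        · exact (B.no_end_D hn hm c0 (by rw [e0]; exact hp)).elim
        · exact ring3 rfl b1 c0 c1 (by rw [e0]; exact hp) hor
    · obtain rfl : a = 3 := by omega
      obtain rfl : j = 6 := by omega
      rcases hd with ⟨c0, c1, b0, c2⟩ | ⟨b1, c0, c1⟩
      · rcases hor with hor | hor
        · refine openD rfl c0 c1 b0 c2 ?_ hor (fun _ => by omega) (fun _ => by omega)
          rw [hor 3 le_rfl, ← hlen]
          exact s3
        · exfalso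
          have g3 := L.two
          norm_num at l1 h1 l2 h2 l0 h0
          have hR : RCO (lo t) (hi t) 5 := by
            refine ⟨by norm_num, ?_, ?_, ?_⟩ <;> norm_num <;> omega
          obtain ⟨b, hb, hb2⟩ : ∃ b, (b = 1 ∨ b = 2) ∧ (pen (e t 6 b)).card = 1 := by
            rcases NJ.s5c hn (by norm_num) Ct with ⟨-, q1, -⟩ | ⟨-, q1, -⟩ | ⟨-, -, b, q1, q2⟩
            · exact absurd hR q1
            · exact absurd hR q1
            · norm_num at q1 q2
              refine ⟨b, by omega, ?_⟩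
              have q3 := q2 b (by omega) (by omega)
              rwa [if_pos rfl] at q3
          have hne : pen (e t 6 b) ≠ ∅ := by
            intro q
            rw [q, card_empty] at hb2
            omega
          rcases hb with rfl | rfl
          · obtain ⟨z, hz⟩ := nonempty_iff_ne_empty.2 hne
            obtain ⟨z1, z2⟩ := mem_pen.1 hz
            have hzt : z ≤ (t : P) := z1.le.trans (Ct.le_t 6 1 (by omega) (by omega) (by omega))
            have hzl := lev_cov H z1
            have hel := Ct.lev_e 6 1 (by omega) (by omega) (by omega)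
            rcases J6.late6 hn C hS t (L.one 2 (by omega)).2 (by omega) with ⟨-, g⟩ | ⟨-, -, -, g⟩
            · exact g z hzt (by omega)
            · refine g (by omega) z ⟨z1, fun y hy => ?_⟩
              obtain ⟨w, hw⟩ := card_eq_one.1 z2
              have e1 := mem_uc.2 z1
              have e2 := mem_uc.2 hy
              rw [hw, mem_singleton] at e1 e2
              rw [e1, e2]
          · apply hne
            have g5 := hor 1 (by omega)
            rw [show hi t 6 - 1 = 2 by omega] at g5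
            rw [← g5]
            exact B.pen_second hn hm c0
      · exfalso
        obtain ⟨z, z0, z3⟩ := B.new_pair hn hm b1
        have hzl := lev_cov H z0
        have hx0 := B.row.lev_x 0 (by omega)
        have hzt : z ≤ (t : P) := by
          refine z0.le.trans ?_
          rw [← B.row.kap 0 (by omega)]
          exact le_topOf (x 0)
        rcases J6.late6 hn C hS t (L.one 2 (by omega)).2
          (by have := L.two; omega) with ⟨-, g⟩ | ⟨-, -, g, -⟩
        · exact g z hzt (by omega)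
        · rcases hor with hor | hor
          · rw [hor 0 (by omega), l0] at z0
            rw [hor 3 le_rfl, l0] at z3
            exact g l0 z z0 z3
          · rw [hor 0 (by omega), h0] at z0
            rw [hor 3 le_rfl, h0] at z3
            exact g l0 z z3 z0
  · -- OC OO CO OO
    have hm3 : m = 3 := by omega
    subst hm3
    obtain ⟨t1, t2⟩ := tail (by rw [w]; decide)
    have s3 := (sing (hi t j) (by omega) le_rfl).2 (Or.inr (by omega))
    by_cases ht : j + 1 ≤ 2 * a
    · have hp := nonempty_iff_ne_empty.1 (t2 ht)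
      rcases hor with hor | hor
      · have e3 : x 3 = e t j (hi t j) := by rw [hor 3 le_rfl, hlen]
        rcases hd with ⟨c0, c1, b0, c2⟩ | ⟨b1, c0, c1⟩
        · refine openD rfl c0 c1 b0 c2 (by rw [e3]; exact s3) hor (fun _ => by omega) (fun hor' => ?_)
          exfalso
          have g1 := hor 0 (by omega)
          rw [hor' 0 (by omega)] at g1
          have := Ct.inj j _ _ le_rfl (by omega) (by omega) (by omega) (by omega) g1
          omega
        · exact (B.no_end_R hn hm b1 c1 (by rw [e3]; exact hp)).elim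
      · have e0 : x 0 = e t j (hi t j) := by rw [hor 0 (by omega), Nat.sub_zero]
        rcases hd with ⟨c0, c1, b0, c2⟩ | ⟨b1, c0, c1⟩
        · exact (B.no_end_D hn hm c0 (by rw [e0]; exact hp)).elim
        · exact ring3 rfl b1 c0 c1 (by rw [e0]; exact hp) hor
    · exfalso
      obtain rfl : a = 4 := by omega
      obtain rfl : j = 8 := by omega
      refine (J8.level8 ⟨h.bad.gt, by norm_num, by norm_num, C, hS⟩).1 t ⟨L.one, L.two, ?_⟩
      rw [w]
      rfl
  · -- OC CO CO OO CO OO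
    have hm3 : m = 3 := by omega
    subst hm3
    obtain ⟨t1, t2⟩ := tail (by rw [w]; decide)
    have s3 := (sing (hi t j) (by omega) le_rfl).2 (Or.inr (by omega))
    have fD : (∀ k, k ≤ 3 → x k = e t j (lo t j + k)) → c 0 = 1 → c 1 = -1 → β = 0 →
        (∀ k, 2 ≤ k → k < 3 → c k = 0) → LateOut P j t 3 x c β (lo t) (hi t) (e t) := by
      intro hor c0 c1 b0 c2
      have e3 : x 3 = e t j (hi t j) := by rw [hor 3 le_rfl, hlen]
      refine openD rfl c0 c1 b0 c2 (by rw [e3]; exact s3) hor (fun _ => by omega) (fun hor' => ?_)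
      exfalso
      have g1 := hor 0 (by omega)
      rw [hor' 0 (by omega)] at g1
      have := Ct.inj j _ _ le_rfl (by omega) (by omega) (by omega) (by omega) g1
      omega
    by_cases ht : j + 1 ≤ 2 * a
    · have hp := nonempty_iff_ne_empty.1 (t2 ht)
      rcases hor with hor | hor
      · have e3 : x 3 = e t j (hi t j) := by rw [hor 3 le_rfl, hlen]
        rcases hd with ⟨c0, c1, b0, c2⟩ | ⟨b1, c0, c1⟩
        · exact fD hor c0 c1 b0 c2
        · exact (B.no_end_R hn hm b1 c1 (by rw [e3]; exact hp)).elim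
      · have e0 : x 0 = e t j (hi t j) := by rw [hor 0 (by omega), Nat.sub_zero]
        rcases hd with ⟨c0, c1, b0, c2⟩ | ⟨b1, c0, c1⟩
        · exact (B.no_end_D hn hm c0 (by rw [e0]; exact hp)).elim
        · exact ring3 rfl b1 c0 c1 (by rw [e0]; exact hp) hor
    · obtain rfl : a = 6 := by omega
      obtain rfl : j = 12 := by omega
      obtain ⟨-, k2, k3, -⟩ := W6.caseB h.bad.gt C hS h.no
      have D : Cl.WordD 12 6 Cl.wa6 (lo t) (hi t) := ⟨L.one, L.two, by rw [w]; rfl⟩
      rcases hd with ⟨c0, c1, b0, c2⟩ | ⟨b1, c0, c1⟩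
      · rcases hor with hor | hor
        · exact fD hor c0 c1 b0 c2
        · exfalso
          obtain ⟨y, y', hne, g1, g2, g3, g4⟩ := exists_two (v := x 0) (w := x 1) (by
            rw [B.dcv_eq hn (by omega) (by omega), if_pos rfl, if_neg (by omega), c0]
            norm_num)
          rw [hor 0 (by omega), h0] at g1 g3
          rw [hor 1 (by omega), h0] at g2 g4
          exact k3 t y y' D hne g1 g2 g3 g4
      · exfalso
        obtain ⟨z, z0, z3⟩ := B.new_pair hn hm b1
        rcases hor with hor | hor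
        · rw [hor 0 (by omega), l0] at z0
          rw [hor 3 le_rfl, l0] at z3
          exact k2 t z D z3 z0
        · rw [hor 0 (by omega), h0] at z0
          rw [hor 3 le_rfl, h0] at z3
          exact k2 t z D z0 z3
  · -- OC CO CO OO CO OO OC
    have hm3 : m = 3 := by omega
    subst hm3
    have q := s5c_late hn (by omega) Ct (by omega) (by omega) (by omega) (by omega)
    rw [show lo t (j - 1) = lo t j by omega] at q
    have hp2 : pen (e t j (lo t j + 2)) = ∅ := by
      have g := NJ.pen_three hn (i := j - 2) (by omega) (by omega) Ct (a := lo t j + 2) (by omega)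
        (by omega)
      rwa [show j - 2 + 2 = j by omega] at g
    have hcl : (uc (e t j (hi t j))).card ≠ 1 := by
      intro g
      have := (sing (hi t j) (by omega) le_rfl).1 g
      omega
    rcases hd with ⟨c0, c1, b0, c2⟩ | ⟨b1, c0, c1⟩
    · rcases hor with hor | hor
      · exfalso
        rcases q with q | q
        · rw [← hor 1 (by omega)] at q
          exact q (B.pen_second hn hm c0)
        · exact q hp2
      · have W := NJ.prow hn hj B (by omega)
        have e0 : x 0 = e t j (hi t j) := by rw [hor 0 (by omega), Nat.sub_zero]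
        exact Or.inl ⟨⟨b0, c0, c1, c2⟩,
          (W.uc_le (k := 0) (by omega)).resolve_left (by rw [e0]; exact hcl)⟩
    · exfalso
      obtain ⟨f1, f2⟩ := B.ends (by rw [b1]; norm_num)
      rcases hor with hor | hor
      · rw [hor 3 le_rfl, ← hlen] at f2
        exact hcl f2
      · rw [hor 0 (by omega), Nat.sub_zero] at f1
        exact hcl f1
  · -- OC CO CO OO CO OO OO
    exfalso
    have hm4 : m = 4 := by omega
    subst hm4
    obtain ⟨t1, t2⟩ := tail (by rw [w]; decide)
    have q := s5c_late hn (by omega) Ct (by omega) (by omega) (by omega) (by omega)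
    rw [show lo t (j - 1) = lo t j by omega] at q
    obtain ⟨b1, hor'⟩ := late_five hn hj Ct B hd hlen hor q
    by_cases ht : j + 1 ≤ 2 * a
    · have hp := nonempty_iff_ne_empty.1 (t2 ht)
      rcases hd with ⟨c0, c1, b0, c2⟩ | ⟨-, c0, c1⟩
      · rw [b0] at b1
        norm_num at b1
      · refine B.no_end_R hn hm b1 c1 ?_
        rw [hor' 4 le_rfl, ← hlen]
        exact hp
    · obtain rfl : a = 7 := by omega
      obtain rfl : j = 14 := by omega
      obtain ⟨z, z0, z3⟩ := B.new_pair hn hm b1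
      have D : Cl.WordD 14 7 Cl.wa7 (lo t) (hi t) := ⟨L.one, L.two, by rw [w]; rfl⟩
      rw [hor' 0 (by omega), l0] at z0
      rw [hor' 4 le_rfl, l0] at z3
      exact Sg.no_ends h.bad.gt h.no C hS t D z z3 z0

end Pool.Agent.GaussPoset.EK
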