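import Pool.Agent.W_448fin_h16.FnS
import Pool.Agent.W_448L1_h63.LaH

/-!
# Final assembly (MP_448cb3_co): case B, the window `j - 1`, `j`: `HHeavy` FROM STEP 0

STEP 0 is `HNo6`: there is no component with two stars.  Then the class fact (L1') is
`NJ.light_zero` (helper63).
-/

namespace Pool.Agent.GaussPoset.EK

set_option linter.unusedSectionVars false

open Finset Win St Polynomial Wd Win.W4

universe u

variable (P : Type u) [Fintype P] [PartialOrder P] [DecidableEq P]

/-- INPUT (STEP 0): there is no component with two stars -/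
def HNo6 : Prop := ∀ r j : ℕ, 2 ≤ j → CB P r j → No6 P j

variable {P}

/-- (L1') from STEP 0 -/
theorem hheavy_of_no6 (h6 : HNo6 P) : HHeavy P := by
  intro r j K psi hj hc R t _ hl
  obtain ⟨i, rfl⟩ : ∃ i, j = i + 1 := ⟨j - 1, by omega⟩
  have hn := hc.nj
  have hN := h6 r (i + 1) hj hc
  refine NJ.light_zero hn hj R hN t ?_
  intro z y v S ht
  obtain ⟨-, -, hd⟩ := NJ.join_data hn (by omega) R S
  have hE := hl z y v S ht
  rcases hd with ⟨⟨m, x, c, β, B, hp⟩, -⟩ | ⟨-, h2, -⟩
  · exact absurd hp (hN _ m x c β B)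
  · rw [h2] at hE
    exact hE

end Pool.Agent.GaussPoset.EK
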