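import Pool.Agent.W_448g2_h96.Asm
import Pool.Agent.W_448win_h16.DualC

/-!
# Final assembly (MP_448cb3_co): without loss of generality `2 * j ≤ r`

`Bad2 P r j`: level `j` is the first bad level of `P`, `2 * j ≤ r`, and the levels less than `j` of the
dual poset are good as well.
-/

namespace Pool.Agent.GaussPoset.Win

set_option linter.unusedSectionVars false

open Finset OrderDual

universe u

/-- level `j` is the first bad level of `P`, and no level less than `j` of the dual is bad -/
structure Bad2 (P : Type u) [Fintype P] [PartialOrder P] [DecidableEq P] (r j : ℕ) : Prop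
    extends Bad P r j where
  two : 2 * j ≤ r
  low : ∀ l, l < j → Good Pᵒᵈ l

variable {P : Type u} [Fintype P] [PartialOrder P] [DecidableEq P] {r j : ℕ}

/-- the levels near the bottom are good -/
lemma Bad2.good_low (h : Bad2 P r j) {l : ℕ} (h1 : r < l + j) (h2 : l ≤ r) : Good P l := by
  rw [← Good_od h.gt.H h2]
  exact h.low (r - l) (by omega)

lemma exists_bad2 (H : Gr P r) (hM : ¬ Modl P) : (∃ j, Bad2 P r j) ∨ ∃ j, Bad2 Pᵒᵈ r j := by
  classical
  obtain ⟨j0, h0⟩ := exists_bad H hM
  have hex : ∃ j, j ≤ r ∧ (¬ Good P j ∨ ¬ Good Pᵒᵈ j) := ⟨j0, h0.gt.hr, Or.inl h0.bad⟩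
  have hj := Nat.find_spec hex
  have hmin : ∀ l, l < Nat.find hex → Good P l ∧ Good Pᵒᵈ l := by
    intro l hl
    have h1 := Nat.find_min hex hl
    have h2 : l ≤ r := by omega
    by_contra hcon
    apply h1
    refine ⟨h2, ?_⟩
    by_contra h3
    push Not at h3
    exact hcon h3
  set j := Nat.find hex with hjdef
  obtain ⟨hjr, hb⟩ := hj
  have hsym : ∀ l, l ≤ r → (Good Pᵒᵈ (r - l) ↔ Good P l) := fun l hl => Good_od H hl
  have hsym' : ∀ l, l ≤ r → (Good Pᵒᵈ l ↔ Good P (r - l)) := fun l hl => by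
    have h1 := hsym (r - l) (by omega)
    rwa [show r - (r - l) = l by omega] at h1
  have hsym2 : ∀ l, l ≤ r → (Good (Pᵒᵈ)ᵒᵈ l ↔ Good P l) := fun l hl => by
    have h1 := Good_od H.dual (i := r - l) (by omega)
    rw [show r - (r - l) = l by omega] at h1
    rw [h1, hsym l hl]
  rcases hb with hb | hb
  · left
    refine ⟨j, ⟨⟨⟨H, hjr, fun l hl => (hmin l hl).1⟩, hb⟩, ?_, fun l hl => (hmin l hl).2⟩⟩
    by_contra hcon
    have h1 := (hmin (r - j) (by omega)).2
    rw [hsym j hjr] at h1
    exact hb h1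
  · right
    refine ⟨j, ⟨⟨⟨H.dual, hjr, fun l hl => (hmin l hl).2⟩, hb⟩, ?_, fun l hl => ?_⟩⟩
    · by_contra hcon
      have h1 := (hmin (r - j) (by omega)).1
      rw [← hsym' j hjr] at h1
      exact hb h1
    · rw [hsym2 l (by omega)]
      exact (hmin l hl).1

/-- the final assembly with the additional information -/
theorem distrib_of_bad2 (hG : IsGaussian P) (hc : (SimpleGraph.hasse P).Connected)
    (hP : ∀ r j, Bad2 P r j → False) (hD : ∀ r j, Bad2 Pᵒᵈ r j → False) :
    IsDistribLatticeOrder P := by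
  obtain ⟨r, H⟩ := gr_of_connected hG hc
  by_cases hM : Modl P
  · exact distrib_of_modl hG hc hM
  · rcases exists_bad2 H hM with ⟨j, hj⟩ | ⟨j, hj⟩
    · exact (hP r j hj).elim
    · exact (hD r j hj).elim

end Pool.Agent.GaussPoset.Win
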